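import Pool.Agent.Lib.MP_33b301_mp.Mono

/-! Gaussian moments on annuli. -/

open Set Filter Topology MeasureTheory Function Real

namespace Pool.Agent.Lib.LandauRad

theorem mono_of {f f' : ℝ → ℝ} {u v : ℝ} (huv : u ≤ v)
    (hd : ∀ x ∈ Icc u v, HasDerivAt f (f' x) x) (h : ∀ x ∈ Ioo u v, 0 ≤ f' x) : f u ≤ f v :=
  monotoneOn_of_deriv_nonneg (convex_Icc u v)
    (fun x hx => (hd x hx).continuousAt.continuousWithinAt)
    (fun x hx => (hd x (interior_subset hx)).differentiableAt.differentiableWithinAt)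
    (fun x hx => by
      rw [(hd x (interior_subset hx)).deriv]; exact h x (by simpa using hx))
    (left_mem_Icc.2 huv) (right_mem_Icc.2 huv) huv

theorem smono_of {f f' : ℝ → ℝ} {u v : ℝ} (huv : u < v)
    (hd : ∀ x ∈ Icc u v, HasDerivAt f (f' x) x) (h : ∀ x ∈ Ioo u v, 0 < f' x) : f u < f v :=
  strictMonoOn_of_deriv_pos (convex_Icc u v)
    (fun x hx => (hd x hx).continuousAt.continuousWithinAt)
    (fun x hx => by
      rw [(hd x (interior_subset hx)).deriv]; exact h x (by simpa using hx))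
    (left_mem_Icc.2 huv.le) (right_mem_Icc.2 huv.le) huv

noncomputable def ee (p b s : ℝ) : ℝ := exp (b * p ^ 2 / 2) * ga b s

noncomputable def Gu (c : ℕ → ℝ) (p b : ℝ) (k : ℕ) : ℝ :=
  exp (b * p ^ 2 / 2) * (c k - mo k (ga b) p)

noncomputable def GF (p b r : ℝ) : ℕ → ℝ := Gu (fun k => mo k (ga b) r) p b

noncomputable def cc : ℕ → ℝ → ℝ
  | 0, b => √(π / (b / 2)) / 2
  | 1, b => 1 / b
  | k + 2, b => (k + 1) * cc k b / b

noncomputable def GI (p b : ℝ) : ℕ → ℝ := Gu (fun k => cc k b) p b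

theorem ee_eq (p b s : ℝ) : ee p b s = exp (-b * (s ^ 2 - p ^ 2) / 2) := by
  unfold ee ga; rw [← exp_add]; congr 1; ring

theorem ee_pos (p b s : ℝ) : 0 < ee p b s := by rw [ee_eq]; exact exp_pos _

theorem ee_self (p b : ℝ) : ee p b p = 1 := by rw [ee_eq]; simp

theorem ee_deriv (p b s : ℝ) : HasDerivAt (ee p b) (-b * s * ee p b s) s :=
  ((ga_deriv b s).const_mul _).congr_deriv (by unfold ee; ring)

theorem GF_deriv (p b r : ℝ) (k : ℕ) :
    HasDerivAt (fun r => GF p b r k) (ee p b r * r ^ k) r :=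
  (((mo_deriv k (ga_cont b) r).sub_const _).const_mul _).congr_deriv (by unfold ee; ring)

theorem GF_self (p b : ℝ) (k : ℕ) : GF p b p k = 0 := by simp [GF, Gu]

theorem GF_zero (b r : ℝ) (k : ℕ) : GF 0 b r k = mo k (ga b) r := by simp [GF, Gu, mo_zero]

theorem GF_rec (p b r : ℝ) (k : ℕ) :
    b * GF p b r (k + 2) = (k + 1) * GF p b r k + p ^ (k + 1) - r ^ (k + 1) * ee p b r := by
  have h1 := ga_rec k b r
  have h2 := ga_rec k b p
  have h3 := ee_self p b
  simp only [GF, Gu, ee] at h3 ⊢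
  linear_combination exp (b * p ^ 2 / 2) * (h1 - h2) + p ^ (k + 1) * h3

theorem ga_rec1 (b r : ℝ) : b * mo 1 (ga b) r = 1 - ga b r :=
  eq_of_deriv (f := fun r => b * mo 1 (ga b) r) (g := fun r => 1 - ga b r)
    (fun x => (mo_deriv _ (ga_cont b) x).const_mul b)
    (fun x => ((ga_deriv b x).const_sub 1).congr_deriv (by ring)) (by simp [mo_zero, ga]) r

theorem GF_rec1 (p b r : ℝ) : b * GF p b r 1 = 1 - ee p b r := by
  have h1 := ga_rec1 b r
  have h2 := ga_rec1 b p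
  have h3 := ee_self p b
  simp only [GF, Gu, ee] at h3 ⊢
  linear_combination exp (b * p ^ 2 / 2) * (h1 - h2) + h3

theorem pow_ga_tendsto {b : ℝ} (hb : 0 < b) (k : ℕ) :
    Tendsto (fun R => R ^ k * ga b R) atTop (𝓝 0) := by
  have h1 : Tendsto (fun R : ℝ => b / 2 * R ^ 2) atTop atTop :=
    (tendsto_pow_atTop two_ne_zero).const_mul_atTop (half_pos hb)
  have h2 := ((tendsto_pow_mul_exp_neg_atTop_nhds_zero k).comp h1).const_mul ((2 / b) ^ k)
  rw [mul_zero] at h2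
  refine squeeze_zero' ?_ ?_ h2
  · filter_upwards [eventually_ge_atTop 0] with R hR
      using mul_nonneg (pow_nonneg hR k) (ga_pos b R).le
  · filter_upwards [eventually_ge_atTop 1] with R hR
    have h3 : ga b R = exp (-(b / 2 * R ^ 2)) := by unfold ga; congr 1; ring
    have h4 : (2 / b) ^ k * ((fun x => x ^ k * exp (-x)) ∘ fun R : ℝ => b / 2 * R ^ 2) R
        = (R ^ 2) ^ k * exp (-(b / 2 * R ^ 2)) := by
      simp only [comp]
      rw [← mul_assoc, ← mul_pow]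
      congr 2
      field_simp
    rw [h4, h3]
    exact mul_le_mul_of_nonneg_right (pow_le_pow_left₀ (by linarith) (by nlinarith) k)
      (exp_pos _).le

theorem cc_lim {b : ℝ} (hb : 0 < b) : ∀ k, Tendsto (mo k (ga b)) atTop (𝓝 (cc k b))
  | 0 => mo0_tendsto hb
  | 1 => by
    have h := ((pow_ga_tendsto hb 0).const_sub 1).div_const b
    simp only [pow_zero, one_mul, sub_zero] at h
    refine h.congr fun R => ?_
    rw [← ga_rec1]; field_simp
  | k + 2 => by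
    have h := (((cc_lim hb k).const_mul ((k : ℝ) + 1)).sub (pow_ga_tendsto hb (k + 1))).div_const b
    rw [sub_zero] at h
    refine h.congr fun R => ?_
    rw [← ga_rec]; field_simp

theorem cc_deriv {b : ℝ} (hb : 0 < b) : ∀ k, HasDerivAt (cc k) (-cc (k + 2) b / 2) b
  | 0 => by
    have h1 : HasDerivAt (fun b : ℝ => π / (b / 2)) (-(π / (b / 2)) / b) b :=
      ((hasDerivAt_const b π).div ((hasDerivAt_id b).div_const 2) (by simpa using hb.ne')).congr_deriv
        (by simp only [id]; field_simp; ring)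
    have h0 : 0 < π / (b / 2) := by positivity
    refine ((h1.sqrt h0.ne').div_const 2).congr_deriv ?_
    have h2 := sq_sqrt h0.le
    have h3 := sqrt_pos.2 h0
    simp only [cc]
    generalize √(π / (b / 2)) = x at *
    rw [← h2]
    field_simp
    ring
  | 1 => by
    refine ((hasDerivAt_const b (1 : ℝ)).div (hasDerivAt_id b) hb.ne').congr_deriv ?_
    simp only [cc, id]
    field_simp
    ring
  | k + 2 => by
    refine ((((cc_deriv hb k).const_mul ((k : ℝ) + 1)).div (hasDerivAt_id b)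
      hb.ne')).congr_deriv ?_
    simp only [cc, id]
    push_cast
    field_simp
    ring

theorem GI_lim (p : ℝ) {b : ℝ} (hb : 0 < b) (k : ℕ) :
    Tendsto (fun r => GF p b r k) atTop (𝓝 (GI p b k)) :=
  ((cc_lim hb k).sub_const _).const_mul _

theorem GI_one (p : ℝ) {b : ℝ} (hb : 0 < b) : b * GI p b 1 = 1 := by
  have h2 := ga_rec1 b p
  have h3 := ee_self p b
  simp only [GI, Gu, ee, cc] at h3 ⊢
  have : b * (1 / b) = 1 := by field_simp
  linear_combination exp (b * p ^ 2 / 2) * (this - h2) + h3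

theorem GI_rec (p : ℝ) {b : ℝ} (hb : 0 < b) (k : ℕ) :
    b * GI p b (k + 2) = (k + 1) * GI p b k + p ^ (k + 1) := by
  have h2 := ga_rec k b p
  have h3 := ee_self p b
  simp only [GI, Gu, ee, cc] at h3 ⊢
  have : b * ((k + 1) * cc k b / b) = (k + 1) * cc k b := by field_simp
  linear_combination exp (b * p ^ 2 / 2) * (this - h2) + p ^ (k + 1) * h3

/-- linear functional of the moments -/
def lin (p : ℝ) (G : ℕ → ℝ) (a0 a1 a2 a3 b0 b1 b2 : ℝ) : ℝ :=
  a0 * G 2 + a1 * (G 4 - p ^ 2 * G 2) + a2 * (G 6 - 2 * p ^ 2 * G 4 + p ^ 4 * G 2)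
    + a3 * (G 8 - 3 * p ^ 2 * G 6 + 3 * p ^ 4 * G 4 - p ^ 6 * G 2) + b0 * G 1
    + b1 * (G 3 - p ^ 2 * G 1) + b2 * (G 5 - 2 * p ^ 2 * G 3 + p ^ 4 * G 1)

def pl (p s a0 a1 a2 a3 b0 b1 b2 : ℝ) : ℝ :=
  s ^ 2 * (a0 + a1 * (s ^ 2 - p ^ 2) + a2 * (s ^ 2 - p ^ 2) ^ 2 + a3 * (s ^ 2 - p ^ 2) ^ 3)
    + s * (b0 + b1 * (s ^ 2 - p ^ 2) + b2 * (s ^ 2 - p ^ 2) ^ 2)

section
variable {p b u v a0 a1 a2 a3 b0 b1 b2 : ℝ}

theorem lin_deriv (r : ℝ) : HasDerivAt (fun r => lin p (GF p b r) a0 a1 a2 a3 b0 b1 b2)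
    (pl p r a0 a1 a2 a3 b0 b1 b2 * ee p b r) r := by
  have d := GF_deriv p b r
  unfold lin
  refine ((((((((d 2).const_mul a0).add (((d 4).sub ((d 2).const_mul _)).const_mul a1)).add
    ((((d 6).sub ((d 4).const_mul _)).add ((d 2).const_mul _)).const_mul a2)).add
    (((((d 8).sub ((d 6).const_mul _)).add ((d 4).const_mul _)).sub
      ((d 2).const_mul _)).const_mul a3)).add ((d 1).const_mul b0)).add
    (((d 3).sub ((d 1).const_mul _)).const_mul b1)).add
    ((((d 5).sub ((d 3).const_mul _)).add ((d 1).const_mul _)).const_mul b2)).congr_deriv ?_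
  unfold pl; ring

theorem lin_self : lin p (GF p b p) a0 a1 a2 a3 b0 b1 b2 = 0 := by simp [lin, GF_self]

theorem lin_lim {l : Filter ℝ} {G : ℕ → ℝ} (d : ∀ k, Tendsto (fun r => GF p b r k) l (𝓝 (G k))) :
    Tendsto (fun r => lin p (GF p b r) a0 a1 a2 a3 b0 b1 b2) l
      (𝓝 (lin p G a0 a1 a2 a3 b0 b1 b2)) :=
  (((((((d 2).const_mul a0).add (((d 4).sub ((d 2).const_mul _)).const_mul a1)).add
    ((((d 6).sub ((d 4).const_mul _)).add ((d 2).const_mul _)).const_mul a2)).add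
    (((((d 8).sub ((d 6).const_mul _)).add ((d 4).const_mul _)).sub
      ((d 2).const_mul _)).const_mul a3)).add ((d 1).const_mul b0)).add
    (((d 3).sub ((d 1).const_mul _)).const_mul b1)).add
    ((((d 5).sub ((d 3).const_mul _)).add ((d 1).const_mul _)).const_mul b2)

theorem cert {N N' : ℝ → ℝ} (huv : u ≤ v) (hN : ∀ s, HasDerivAt N (N' s) s)
    (h : ∀ s ∈ Ioo u v, N' s - b * s * N s ≤ pl p s a0 a1 a2 a3 b0 b1 b2) :
    N v * ee p b v - N u * ee p b u
      ≤ lin p (GF p b v) a0 a1 a2 a3 b0 b1 b2 - lin p (GF p b u) a0 a1 a2 a3 b0 b1 b2 := by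
  have := mono_of (f := fun r => lin p (GF p b r) a0 a1 a2 a3 b0 b1 b2 - N r * ee p b r) huv
    (fun x _ => (lin_deriv x).sub ((hN x).mul (ee_deriv p b x))) fun x hx => by
      have := mul_nonneg (sub_nonneg.2 (h x hx)) (ee_pos p b x).le
      linarith
  linarith

theorem cert0 (huv : u ≤ v) (h : ∀ s ∈ Ioo u v, 0 ≤ pl p s a0 a1 a2 a3 b0 b1 b2) :
    lin p (GF p b u) a0 a1 a2 a3 b0 b1 b2 ≤ lin p (GF p b v) a0 a1 a2 a3 b0 b1 b2 :=
  mono_of huv (fun x _ => lin_deriv x) fun x hx => mul_nonneg (h x hx) (ee_pos p b x).le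

theorem certs (huv : u < v) (h : ∀ s ∈ Ioo u v, 0 < pl p s a0 a1 a2 a3 b0 b1 b2) :
    lin p (GF p b u) a0 a1 a2 a3 b0 b1 b2 < lin p (GF p b v) a0 a1 a2 a3 b0 b1 b2 :=
  smono_of huv (fun x _ => lin_deriv x) fun x hx => mul_pos (h x hx) (ee_pos p b x)

end

noncomputable def sA (p : ℝ) (G : ℕ → ℝ) : ℝ := (G 6 - p ^ 2 * G 4) / (G 4 - p ^ 2 * G 2)

noncomputable def bath (p a : ℝ) : ℝ := (2 * a ^ 5 - 5 * a ^ 2 * p ^ 3 + 3 * p ^ 5) / 15

/-- the maximum property in the exponent, with the constraint as a multiplier -/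
theorem smax0 {p σ r : ℝ} (b b' : ℝ) (hp : 0 ≤ p) (hσ : p ^ 2 < σ) (hr : p ≤ r) :
    (1 - exp (-(b' - b) / 2 * (σ - p ^ 2))) * lin p (GF p b r) 0 (σ - p ^ 2) (-1) 0 0 0 0
      ≤ (σ - p ^ 2) * ((σ * GF p b r 2 - GF p b r 4) - (σ * GF p b' r 2 - GF p b' r 4)) := by
  set c := -(b' - b) / 2 with hc
  set τ := σ - p ^ 2 with hτ
  have τ0 : 0 < τ := sub_pos.2 hσ
  have := mono_of (f := fun r => τ * ((σ * GF p b r 2 - GF p b r 4)
      - (σ * GF p b' r 2 - GF p b' r 4))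
      - (1 - exp (c * τ)) * lin p (GF p b r) 0 τ (-1) 0 0 0 0) hr
    (fun x _ => ((((((GF_deriv p b x 2).const_mul σ).sub (GF_deriv p b x 4)).sub
      (((GF_deriv p b' x 2).const_mul σ).sub (GF_deriv p b' x 4))).const_mul τ).sub
      ((lin_deriv x).const_mul _))) fun x hx => by
    obtain ⟨y, hy⟩ : ∃ y, y = x ^ 2 - p ^ 2 := ⟨_, rfl⟩
    have y0 : 0 ≤ y := by nlinarith [hx.1]
    have e1 : ee p b' x = ee p b x * exp (c * y) := by
      rw [ee_eq, ee_eq, ← exp_add, hy, hc]; congr 1; ring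
    have h1 : 0 ≤ (τ - y) * (τ * (1 - exp (c * y)) - y * (1 - exp (c * τ))) := by
      rcases le_total y τ with h | h
      · exact mul_nonneg (sub_nonneg.2 h) (sub_nonneg.2 (exp_conc y0 h τ0))
      · exact mul_nonneg_of_nonpos_of_nonpos (sub_nonpos.2 h)
          (sub_nonpos.2 (exp_conc τ0.le h (τ0.trans_le h)))
    have h2 := mul_nonneg (mul_nonneg (ee_pos p b x).le (sq_nonneg x)) h1
    refine h2.trans_eq ?_
    have e2 : σ = τ + p ^ 2 := by rw [hτ]; ring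
    rw [e1, pl, ← hy, e2]
    have e3 : x ^ 4 = x ^ 2 * (y + p ^ 2) := by rw [hy]; ring
    rw [e3]
    ring
  simp only [GF_self, lin_self] at this
  linarith

theorem C3_bd : 1 < √(250 / (9 * π)) ∧ √(250 / (9 * π)) ≤ 7 / 2 := by
  have h1 := pi_gt_three
  have h2 := pi_lt_four
  constructor
  · rw [lt_sqrt zero_le_one, lt_div_iff₀ (by positivity)]; linarith
  · rw [sqrt_le_left (by norm_num), div_le_iff₀ (by positivity)]; linarith

/-- the initial inequality on annuli -/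
theorem K_an {p a r : ℝ} (hp : 0 ≤ p) (ha : p < a) (hr : a ≤ r) :
    bath p a ≤ √(250 / (9 * π)) * (a ^ 2 * GF p (5 / (a ^ 2 - p ^ 2)) r 2
      - GF p (5 / (a ^ 2 - p ^ 2)) r 4) := by
  have a0 : 0 < a := hp.trans_lt ha
  have r0 : 0 < r := a0.trans_le hr
  rcases hp.eq_or_lt with rfl | hp
  · have := K_ge0 (σ := a ^ 2) (by positivity) r0 (by nlinarith)
    rw [sqrt_sq a0.le] at this
    simp only [GF_zero, bath]
    generalize √(250 / (9 * π)) = C at *
    norm_num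
    linarith
  obtain ⟨c1, c2⟩ := C3_bd
  set C := √(250 / (9 * π)) with hC
  obtain ⟨τ, hτ⟩ : ∃ τ, τ = a ^ 2 - p ^ 2 := ⟨_, rfl⟩
  have τ0 : 0 < τ := by nlinarith
  rw [← hτ]
  set b := 5 / τ with hb
  have b0 : 0 < b := by positivity
  have bτ : b * τ = 5 := by rw [hb]; field_simp
  have l0 : 0 < log C := log_pos c1
  have l1 : log C ≤ 5 / 2 := by linarith [log_le_sub_one_of_pos (zero_lt_one.trans c1)]
  set y0 := 2 / b * log C with hy0
  have y00 : 0 < y0 := by positivity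
  have yb : b * y0 = 2 * log C := by rw [hy0]; field_simp
  have y1 : y0 ≤ τ := by nlinarith
  set x0 := √y0
  have x00 : 0 < x0 := sqrt_pos.2 y00
  have x02 : x0 ^ 2 = y0 := sq_sqrt y00.le
  set lam := √(y0 + p ^ 2) / x0 with hlam
  have lam0 : 0 ≤ lam := by positivity
  have lam2 : lam ^ 2 * y0 = y0 + p ^ 2 := by
    rw [hlam, div_pow, x02, sq_sqrt (by positivity)]; field_simp
  have s0 : ∀ x : ℝ, 0 < x ^ 2 + p ^ 2 := fun x => by positivity
  have ds : ∀ x, HasDerivAt (fun x : ℝ => √(x ^ 2 + p ^ 2)) (x / √(x ^ 2 + p ^ 2)) x := fun x =>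
    (((hasDerivAt_pow 2 x).add_const _).sqrt (s0 x).ne').congr_deriv (by simp; field_simp)
  have sg1 : ∀ x, 0 < x → x ^ 2 ≤ y0 → lam * x ≤ √(x ^ 2 + p ^ 2) := fun x hx h => by
    refine le_sqrt_of_sq_le (le_of_mul_le_mul_right ?_ y00)
    have : (lam * x) ^ 2 * y0 = (y0 + p ^ 2) * x ^ 2 := by rw [← lam2]; ring
    nlinarith [mul_le_mul_of_nonneg_left h (sq_nonneg p)]
  have sg2 : ∀ x, 0 < x → y0 ≤ x ^ 2 → √(x ^ 2 + p ^ 2) ≤ lam * x := fun x hx h => by
    refine sqrt_le_iff.2 ⟨by positivity, le_of_mul_le_mul_right ?_ y00⟩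
    have : (lam * x) ^ 2 * y0 = (y0 + p ^ 2) * x ^ 2 := by rw [← lam2]; ring
    nlinarith [mul_le_mul_of_nonneg_left h (sq_nonneg p)]
  have dK : ∀ x, HasDerivAt (fun x : ℝ => C * (a ^ 2 * GF p b (√(x ^ 2 + p ^ 2)) 2
      - GF p b (√(x ^ 2 + p ^ 2)) 4) - lam * (C * (τ * mo 2 (ga b) x - mo 4 (ga b) x)))
      (C * ga b x * ((τ - x ^ 2) * (x * (√(x ^ 2 + p ^ 2) - lam * x)))) x := fun x => by
    refine ((((((GF_deriv p b _ 2).comp x (ds x)).const_mul _).sub
      ((GF_deriv p b _ 4).comp x (ds x))).const_mul C).sub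
      (((((mo_deriv 2 (ga_cont b) x).const_mul τ).sub
        (mo_deriv 4 (ga_cont b) x)).const_mul C).const_mul lam)).congr_deriv ?_
    have e1 := sq_sqrt (s0 x).le
    have e2 := sqrt_pos.2 (s0 x)
    have e3 : ee p b (√(x ^ 2 + p ^ 2)) = ga b x := by
      rw [ee_eq, e1, ga]; congr 1; ring
    rw [e3]
    generalize √(x ^ 2 + p ^ 2) = s at *
    have e4 : a ^ 2 = τ - x ^ 2 + s ^ 2 := by linarith
    rw [e4]
    field_simp
    ring
  have dB : ∀ x, HasDerivAt (fun x : ℝ => a ^ 2 * √(x ^ 2 + p ^ 2) ^ 3 / 3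
      - √(x ^ 2 + p ^ 2) ^ 5 / 5 - lam * (τ * x ^ 3 / 3 - x ^ 5 / 5))
      ((τ - x ^ 2) * (x * (√(x ^ 2 + p ^ 2) - lam * x))) x := fun x => by
    refine ((((((ds x).fun_pow 3).const_mul _).div_const 3).sub
      (((ds x).fun_pow 5).div_const 5)).sub (((((hasDerivAt_pow 3 x).const_mul τ).div_const 3).sub
      ((hasDerivAt_pow 5 x).div_const 5)).const_mul lam)).congr_deriv ?_
    have e1 := sq_sqrt (s0 x).le
    have e2 := sqrt_pos.2 (s0 x)
    generalize √(x ^ 2 + p ^ 2) = s at *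
    have e4 : a ^ 2 = τ - x ^ 2 + s ^ 2 := by linarith
    rw [e4]
    norm_num
    field_simp
    ring
  set w := √τ
  have w0 : 0 < w := sqrt_pos.2 τ0
  have w2 : w ^ 2 = τ := sq_sqrt τ0.le
  set X := √(r ^ 2 - p ^ 2)
  have X2 : X ^ 2 = r ^ 2 - p ^ 2 := sq_sqrt (by nlinarith)
  have wX : w ≤ X := sqrt_le_sqrt (by nlinarith)
  have m1 := mono_of w0.le (fun x _ => (dK x).sub (dB x)) fun x hx => by
    have t0 : 0 ≤ τ - x ^ 2 := by nlinarith [hx.1, hx.2]
    have g1 : C * ga b x = exp (b * (y0 - x ^ 2) / 2) := by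
      rw [← exp_log (zero_lt_one.trans c1), ga, ← exp_add]; congr 1; linarith
    have : 0 ≤ (C * ga b x - 1) * (√(x ^ 2 + p ^ 2) - lam * x) := by
      rw [g1]
      rcases le_total (x ^ 2) y0 with h | h
      · exact mul_nonneg (sub_nonneg.2 (one_le_exp (by have := sub_nonneg.2 h; positivity)))
          (sub_nonneg.2 (sg1 x hx.1 h))
      · exact mul_nonneg_of_nonpos_of_nonpos (sub_nonpos.2 (exp_le_one_iff.2 (by nlinarith)))
          (sub_nonpos.2 (sg2 x hx.1 h))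
    nlinarith [mul_nonneg (mul_nonneg t0 hx.1.le) this]
  have m2 := mono_of wX (fun x _ => dK x) fun x hx => by
    have x0' : 0 < x := w0.trans hx.1
    have t0 : τ ≤ x ^ 2 := by nlinarith [hx.1]
    exact mul_nonneg (mul_nonneg (by positivity) (ga_pos b x).le)
      (mul_nonneg_of_nonpos_of_nonpos (sub_nonpos.2 t0)
        (mul_nonpos_of_nonneg_of_nonpos x0'.le (sub_nonpos.2 (sg2 x x0' (y1.trans t0)))))
  have m3 := mul_le_mul_of_nonneg_left (K_ge0 τ0 (w0.trans_le wX) (by nlinarith)) lam0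
  have q1 : √(w ^ 2 + p ^ 2) = a := by rw [w2, hτ, sub_add_cancel, sqrt_sq a0.le]
  have q2 : √(X ^ 2 + p ^ 2) = r := by rw [X2, sub_add_cancel, sqrt_sq r0.le]
  have q3 : √((0 : ℝ) ^ 2 + p ^ 2) = p := by simp [sqrt_sq hp.le]
  simp only [Pi.sub_apply, q1, q2, q3, GF_self, mo_zero] at m1 m2
  rw [← hb, ← hC] at m3
  have q4 : τ * w ^ 3 / 3 - w ^ 5 / 5 = 2 / 15 * τ ^ 2 * w := by rw [← w2]; ring
  rw [q4] at m1
  unfold bath
  linarith

end Pool.Agent.Lib.LandauRad
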