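import Pool.Agent.Lib.MP_33b301_mp.AnA

/-! Moment inequalities on finite and infinite annuli. -/

open Set Filter Topology MeasureTheory Function Real

namespace Pool.Agent.Lib.LandauRad

theorem poly0 {t : ℝ} (h0 : 0 ≤ t) (h1 : t ≤ 2 / 3) :
    0 ≤ 13 / 20 - 27 / 16 * t - 3 / 10 * t ^ 2 + 67 / 16 * t ^ 3 + 13 / 20 * t ^ 4 - t ^ 6 := by
  obtain ⟨y, hy⟩ : ∃ y, y = 2 / 3 - t := ⟨_, rfl⟩
  have y0 : 0 ≤ y := by linarith
  have : 0 ≤ 9477 / 1280 * y ^ 6 + 80919 / 2560 * t * y ^ 5 + 116397 / 2560 * t ^ 2 * y ^ 4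
      + 35829 / 1280 * t ^ 3 * y ^ 3 + 1413 / 80 * t ^ 4 * y ^ 2 + 10035 / 512 * t ^ 5 * y
      + 3925 / 512 * t ^ 6 := by positivity
  refine this.trans_eq ?_
  rw [hy]; ring

theorem poly1 {t : ℝ} (h0 : 0 ≤ t) (h1 : t ≤ 2 / 3) :
    0 ≤ 59 / 60 + 13 / 20 * t - 511 / 40 * t ^ 2 - 3 / 10 * t ^ 3 + 1529 / 40 * t ^ 4
      + 13 / 20 * t ^ 5 - 643 / 30 * t ^ 6 - t ^ 7 := by
  rcases le_total t (2 / 5) with h | h
  · obtain ⟨y, hy⟩ : ∃ y, y = 2 / 5 - t := ⟨_, rfl⟩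
    have y0 : 0 ≤ y := by linarith
    have : 0 ≤ 921875 / 1536 * y ^ 7 + 6696875 / 1536 * t * y ^ 6 + 6301875 / 512 * t ^ 2 * y ^ 5
        + 26322625 / 1536 * t ^ 3 * y ^ 4 + 18823525 / 1536 * t ^ 4 * y ^ 3
        + 2167855 / 512 * t ^ 5 * y ^ 2 + 314917 / 512 * t ^ 6 * y + 23725 / 512 * t ^ 7 := by
      positivity
    refine this.trans_eq ?_
    rw [hy]; ring
  · obtain ⟨y, hy⟩ : ∃ y, y = 2 / 3 - t := ⟨_, rfl⟩
    obtain ⟨x, hx⟩ : ∃ x, x = t - 2 / 5 := ⟨_, rfl⟩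
    have y0 : 0 ≤ y := by linarith
    have x0 : 0 ≤ x := by linarith
    have : 0 ≤ 51886575 / 65536 * y ^ 7 + 146194389 / 65536 * x * y ^ 6
        + 542382075 / 65536 * x ^ 2 * y ^ 5 + 2770083225 / 65536 * x ^ 3 * y ^ 4
        + 6715450125 / 65536 * x ^ 4 * y ^ 3 + 7796469375 / 65536 * x ^ 5 * y ^ 2
        + 4323015625 / 65536 * x ^ 6 * y + 919921875 / 65536 * x ^ 7 := by positivity
    refine this.trans_eq ?_
    rw [hy, hx]; ring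

theorem poly2 {t r : ℝ} (h0 : 0 ≤ t) (hk : 0 ≤ 27 / 20 * (1 - t ^ 2) - 2 * t ^ 2) (r0 : 0 ≤ r)
    (r1 : r ≤ 1) : 0 ≤ (1 - t ^ 2) ^ 2 * ((59 / 60 * (1 - t ^ 2) + 3 * t ^ 2) * (r + t)
      - (1 - t ^ 2) * t / 3) - t ^ 2 * (27 / 20 * (1 - t ^ 2) - 2 * t ^ 2)
      * ((1 - t ^ 2) * (r + t) + 6 * (1 - t ^ 2) * r + 5 * r * (1 - r ^ 2)) := by
  have h1 : t ≤ 2 / 3 := by nlinarith
  have a0 := mul_nonneg (sub_nonneg.2 r1) (mul_nonneg h0 (poly0 h0 h1))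
  have a1 := mul_nonneg r0 (poly1 h0 h1)
  have a2 : 0 ≤ 5 * (t ^ 2 * (27 / 20 * (1 - t ^ 2) - 2 * t ^ 2)) * ((r - 1 / 2) ^ 2 * (r + 1)) := by
    positivity
  refine (add_nonneg (add_nonneg a0 a1) a2).trans_eq ?_
  ring

theorem poly3 {p a : ℝ} (hp : 0 < p) (ha : p < a) : ∃ k, 0 ≤ k ∧ ∀ s b, p ≤ s → s ≤ a →
    b * (a ^ 2 - p ^ 2) ≤ 5 → 0 ≤ (59 / 60 * (a ^ 2 - p ^ 2) + 2 * p ^ 2) * s ^ 2
      - p ^ 2 * (2 * a ^ 2 - p ^ 2 - s ^ 2) - (a ^ 2 - p ^ 2) * p * s / 3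
      + p ^ 2 * k * (a ^ 2 - s ^ 2 - 6 * s * (s - p) - b * s * (s - p) * (a ^ 2 - s ^ 2)) := by
  have a0 : 0 < a := hp.trans ha
  obtain ⟨τ, hτ⟩ : ∃ τ, τ = a ^ 2 - p ^ 2 := ⟨_, rfl⟩
  have τ0 : 0 < τ := by nlinarith
  rcases le_total (27 / 20 * τ - 2 * p ^ 2) 0 with h | h
  · refine ⟨0, le_rfl, fun s b h1 h2 _ => ?_⟩
    have e1 : 0 ≤ (s - p) * ((59 / 60 * τ + 3 * p ^ 2) * (s + p) - τ * p / 3) :=
      mul_nonneg (sub_nonneg.2 h1) (by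
        nlinarith [mul_nonneg τ0.le (hp.le.trans h1), mul_pos τ0 hp,
          mul_nonneg (sq_nonneg p) (add_nonneg (hp.le.trans h1) hp.le)])
    have e2 := mul_nonneg (sq_nonneg p) (neg_nonneg.2 h)
    refine (add_nonneg e1 e2).trans_eq ?_
    rw [hτ]; ring
  refine ⟨(27 / 20 * τ - 2 * p ^ 2) / τ, by positivity, fun s b h1 h2 hb => ?_⟩
  have s0 := hp.le.trans h1
  have e1 : 0 ≤ τ ^ 2 * ((59 / 60 * τ + 3 * p ^ 2) * (s + p) - τ * p / 3)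
      - p ^ 2 * (27 / 20 * τ - 2 * p ^ 2) * (τ * (s + p) + 6 * τ * s + 5 * s * (a ^ 2 - s ^ 2)) := by
    obtain ⟨t, rfl⟩ : ∃ t, p = t * a := ⟨p / a, by field_simp⟩
    obtain ⟨r, rfl⟩ : ∃ r, s = r * a := ⟨s / a, by field_simp⟩
    have := mul_nonneg (pow_pos a0 7).le (poly2 (t := t) (r := r) (nonneg_of_mul_nonneg_left hp.le a0)
      (nonneg_of_mul_nonneg_left (b := a ^ 2) (h.trans_eq (by rw [hτ]; ring)) (by positivity))
      (nonneg_of_mul_nonneg_left s0 a0) (le_of_mul_le_mul_right (by linarith) a0))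
    refine this.trans_eq ?_
    rw [hτ]; ring
  have e2 : 0 ≤ p ^ 2 * (27 / 20 * τ - 2 * p ^ 2) * (s * (s - p) * (a ^ 2 - s ^ 2) * (5 - b * τ)) := by
    have := sub_nonneg.2 h1
    have : 0 ≤ a ^ 2 - s ^ 2 := by nlinarith
    have : 0 ≤ 5 - b * τ := by rw [hτ]; linarith
    positivity
  refine nonneg_of_mul_nonneg_right (a := τ ^ 2) ?_ (by positivity)
  refine (add_nonneg (mul_nonneg (sub_nonneg.2 h1) e1) e2).trans_eq ?_
  have e3 : a ^ 2 = τ + p ^ 2 := by linarith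
  rw [e3]
  field_simp
  ring

theorem certp {p b v a0 a1 a2 a3 b0 b1 b2 : ℝ} {N N' : ℝ → ℝ} (huv : p ≤ v)
    (hN : ∀ s, HasDerivAt N (N' s) s)
    (h : ∀ s ∈ Ioo p v, N' s - b * s * N s ≤ pl p s a0 a1 a2 a3 b0 b1 b2) :
    N v * ee p b v - N p ≤ lin p (GF p b v) a0 a1 a2 a3 b0 b1 b2 := by
  simpa only [lin_self, ee_self, sub_zero, mul_one] using cert huv hN h

theorem via {p b v c a0 a1 a2 a3 b0 b1 b2 : ℝ} (u : ℝ)
    (h1 : c ≤ lin p (GF p b u) a0 a1 a2 a3 b0 b1 b2)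
    (h2 : lin p (GF p b u) a0 a1 a2 a3 b0 b1 b2 ≤ lin p (GF p b v) a0 a1 a2 a3 b0 b1 b2) :
    c ≤ lin p (GF p b v) a0 a1 a2 a3 b0 b1 b2 := h1.trans h2

theorem F4 {p a b r : ℝ} (hp : 0 < p) (ha : p < a) (hr : a ≤ r) (hb : 0 ≤ b) {τ : ℝ}
    (hτ : τ = a ^ 2 - p ^ 2) (h5 : b * τ ≤ 5) (hc : 2 ≤ b * τ ∨ r ^ 2 ≤ p ^ 2 + 2 * τ) :
    -(2 * p ^ 3 * τ ^ 3) ≤ lin p (GF p b r) ((59 / 60 * τ - p ^ 2 * (8 + 2 * b * τ)) * τ ^ 2)
      (p ^ 2 * b * τ ^ 2 - 2 * τ * (59 / 60 * τ - p ^ 2 * (8 + 2 * b * τ)) - 4 * p ^ 2 * τ)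
      (59 / 60 * τ - p ^ 2 * (8 + 2 * b * τ) - 2 * τ * (p ^ 2 * b) + 4 * p ^ 2) (p ^ 2 * b)
      (-(τ ^ 3 * p / 3)) (2 * τ ^ 2 * p / 3) (-(τ * p / 3)) := by
  have τ0 : 0 < τ := by nlinarith
  have a0 := hp.trans ha
  obtain ⟨k, k0, hk⟩ := poly3 hp ha
  have du : ∀ s : ℝ, HasDerivAt (fun s : ℝ => a ^ 2 - s ^ 2) (-(2 * s)) s := fun s => by
    simpa using (hasDerivAt_pow 2 s).const_sub (a ^ 2)
  refine via a (le_trans (le_of_eq ?_) (certp (N := fun s => p ^ 2 * ((a ^ 2 - s ^ 2 + τ)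
    * (a ^ 2 - s ^ 2) ^ 2 * s - k * ((s - p) * (a ^ 2 - s ^ 2) ^ 3))) ha.le (fun s =>
    (((((du s).add_const τ).fun_mul ((du s).fun_pow 2)).fun_mul (hasDerivAt_id' s)).fun_sub
      ((((hasDerivAt_id' s).sub_const p).fun_mul ((du s).fun_pow 3)).const_mul k)).const_mul _)
    fun s hs => ?_)) ?_
  · rw [hτ]; ring
  · have := mul_nonneg (sq_nonneg (a ^ 2 - s ^ 2)) (hk s b hs.1.le hs.2.le (hτ ▸ h5))
    rw [← sub_nonneg]
    refine this.trans_eq ?_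
    rw [pl, hτ]
    norm_num
    ring
  have g0 : ∀ s, a < s → 0 ≤ τ * (s ^ 2 - a ^ 2) ^ 2 * (s * (59 / 60 * s - p / 3)) := fun s hs => by
    have : 0 ≤ 59 / 60 * s - p / 3 := by linarith
    have := a0.trans hs
    positivity
  by_cases h2 : 2 ≤ b * τ
  · have dv : ∀ s : ℝ, HasDerivAt (fun s : ℝ => s ^ 2 - a ^ 2) (2 * s) s := fun s => by
      simpa using (hasDerivAt_pow 2 s).sub_const (a ^ 2)
    have n0 : ∀ u : ℝ, 0 ≤ τ * u ^ 2 - (4 + b * τ) / 6 * u ^ 3 + b / 8 * u ^ 4 := fun u => by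
      refine nonneg_of_mul_nonneg_right (a := τ) ?_ τ0
      have e1 := mul_nonneg (sub_nonneg.2 h2) (show 0 ≤ 8 - b * τ by linarith)
      have e2 : 0 ≤ u ^ 2 * ((τ - (4 + b * τ) / 12 * u) ^ 2
        + (b * τ - 2) * (8 - b * τ) / 144 * u ^ 2) := by positivity
      refine e2.trans_eq ?_
      ring
    rw [← sub_nonneg]
    refine le_trans ?_ (cert (N := fun s => p ^ 2 * (s * (τ * (s ^ 2 - a ^ 2) ^ 2
      - (4 + b * τ) / 6 * (s ^ 2 - a ^ 2) ^ 3 + b / 8 * (s ^ 2 - a ^ 2) ^ 4))) hr (fun s =>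
      ((hasDerivAt_id' s).fun_mul (((((dv s).fun_pow 2).const_mul τ).fun_sub
        (((dv s).fun_pow 3).const_mul _)).fun_add (((dv s).fun_pow 4).const_mul _))).const_mul _)
      fun s hs => ?_)
    · have := mul_nonneg (mul_nonneg (sq_nonneg p) (mul_nonneg (a0.le.trans hr) (n0 (r ^ 2 - a ^ 2))))
        (ee_pos p b r).le
      simpa using this
    · have e1 : 0 ≤ b * s ^ 2 - 1 := by
        nlinarith [mul_le_mul_of_nonneg_left (show τ ≤ s ^ 2 by nlinarith [hs.1]) hb]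
      have := add_nonneg (g0 s hs.1)
        (mul_nonneg (sq_nonneg p) (mul_nonneg e1 (n0 (s ^ 2 - a ^ 2))))
      rw [← sub_nonneg]
      refine this.trans_eq ?_
      rw [pl, hτ]
      norm_num
      ring
  · refine cert0 hr fun s hs => ?_
    have u0 : 0 ≤ s ^ 2 - a ^ 2 := by nlinarith [hs.1]
    have u1 : 0 ≤ τ - (s ^ 2 - a ^ 2) := by
      have := hc.resolve_left h2
      nlinarith [hs.1, hs.2]
    have u2 : 0 ≤ 4 - b * (s ^ 2 - a ^ 2) := by nlinarith [mul_nonneg hb u1]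
    have : 0 ≤ p ^ 2 * (s ^ 2 * (s ^ 2 - a ^ 2) * (τ - (s ^ 2 - a ^ 2)) * (4 - b * (s ^ 2 - a ^ 2))) := by
      positivity
    refine (add_nonneg (g0 s hs.1) this).trans_eq ?_
    rw [pl, hτ]
    ring

structure Lm (p b : ℝ) (l : Filter ℝ) (G : ℕ → ℝ) : Prop where
  p0 : 0 ≤ p
  b0 : 0 ≤ b
  ne : l.NeBot
  lim : ∀ k, Tendsto (fun r => GF p b r k) l (𝓝 (G k))
  dich : ∀ x, (∀ᶠ r in l, r ≤ x) ∨ ∃ x', x < x' ∧ ∀ᶠ r in l, x' ≤ r
  gt : ∃ q, p < q ∧ ∀ᶠ r in l, q ≤ r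
  sg : ∀ᶠ r in l, sA p G ≤ r ^ 2

theorem Lf_pos {p q : ℝ} (b : ℝ) (hp : 0 ≤ p) (hq : p < q) :
    0 < GF p b q 4 - p ^ 2 * GF p b q 2 ∧ sA p (GF p b q) < q ^ 2 := by
  have y0 : ∀ s ∈ Ioo p q, 0 < s ^ 2 - p ^ 2 := fun s hs => by nlinarith [hs.1]
  have h1 := certs (p := p) (b := b) (a0 := 0) (a1 := 1) (a2 := 0) (a3 := 0) (b0 := 0) (b1 := 0)
    (b2 := 0) hq fun s hs => by
      have := mul_pos (pow_pos (hp.trans_lt hs.1) 2) (y0 s hs)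
      simpa [pl] using this
  have h2 := certs (p := p) (b := b) (a0 := 0) (a1 := q ^ 2 - p ^ 2) (a2 := -1) (a3 := 0) (b0 := 0)
    (b1 := 0) (b2 := 0) hq fun s hs => by
      have := mul_pos (mul_pos (pow_pos (hp.trans_lt hs.1) 2) (y0 s hs))
        (show 0 < q ^ 2 - s ^ 2 by nlinarith [hs.1, hs.2])
      refine this.trans_eq ?_
      rw [pl]; ring
  rw [lin_self, lin] at h1 h2
  refine ⟨by linarith, ?_⟩
  rw [sA, div_lt_iff₀ (by linarith)]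
  linarith

theorem Lm_fin {p b q : ℝ} (hp : 0 ≤ p) (hb : 0 ≤ b) (hq : p < q) : Lm p b (pure q) (GF p b q) :=
  ⟨hp, hb, pure_neBot, fun k => tendsto_pure_nhds (fun r => GF p b r k) q,
    fun x => (le_or_gt q x).imp eventually_pure.2 fun h => ⟨q, h, eventually_pure.2 le_rfl⟩,
    ⟨q, hq, eventually_pure.2 le_rfl⟩, eventually_pure.2 (Lf_pos b hp hq).2.le⟩

theorem Lm_inf {p b : ℝ} (hp : 0 ≤ p) (hb : 0 < b) : Lm p b atTop (GI p b) :=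
  ⟨hp, hb.le, atTop_neBot, GI_lim p hb,
    fun x => .inr ⟨x + 1, by linarith, eventually_ge_atTop _⟩,
    ⟨p + 1, by linarith, eventually_ge_atTop _⟩,
    (tendsto_pow_atTop two_ne_zero).eventually_ge_atTop _⟩

namespace Lm

variable {p b : ℝ} {l : Filter ℝ} {G : ℕ → ℝ} {a0 a1 a2 a3 b0 b1 b2 : ℝ}

theorem tr (h : Lm p b l G) {c : ℝ} (e : ∀ᶠ r in l, c ≤ lin p (GF p b r) a0 a1 a2 a3 b0 b1 b2) :
    c ≤ lin p G a0 a1 a2 a3 b0 b1 b2 :=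
  have := h.ne
  ge_of_tendsto (lin_lim h.lim) e

theorem ge (h : Lm p b l G) : ∀ᶠ r in l, p ≤ r := by
  obtain ⟨q, h1, h2⟩ := h.gt
  exact h2.mono fun r hr => h1.le.trans hr

theorem nn (h : Lm p b l G) (e : ∀ s, p < s → 0 ≤ pl p s a0 a1 a2 a3 b0 b1 b2) :
    0 ≤ lin p G a0 a1 a2 a3 b0 b1 b2 :=
  h.tr (h.ge.mono fun _ hr => lin_self.ge.trans (cert0 hr fun s hs => e s hs.1))

theorem pos (h : Lm p b l G) {u : ℝ} (hu : p < u)
    (e : ∀ s, p < s → 0 ≤ pl p s a0 a1 a2 a3 b0 b1 b2)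
    (e' : ∀ s ∈ Ioo p u, 0 < pl p s a0 a1 a2 a3 b0 b1 b2) :
    0 < lin p G a0 a1 a2 a3 b0 b1 b2 := by
  obtain ⟨q, h1, h2⟩ := h.gt
  have h3 := lt_min hu h1
  exact (lin_self.ge.trans_lt (certs (b := b) h3 fun s hs =>
    e' s ⟨hs.1, hs.2.trans_le (min_le_left _ _)⟩)).trans_le (h.tr (h2.mono fun r hr =>
      cert0 ((min_le_right _ _).trans hr) fun s hs => e s (h3.trans hs.1)))

theorem y0 (h : Lm p b l G) {s : ℝ} (hs : p < s) : 0 < s ∧ 0 < s ^ 2 - p ^ 2 :=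
  ⟨h.p0.trans_lt hs, by nlinarith [h.p0]⟩

theorem m1 (h : Lm p b l G) : 0 < G 4 - p ^ 2 * G 2 := by
  have e : ∀ s, p < s → 0 < pl p s 0 1 0 0 0 0 0 := fun s hs => by
    simpa [pl] using mul_pos (pow_pos (h.y0 hs).1 2) (h.y0 hs).2
  simpa [lin] using h.pos (lt_add_one p) (fun s hs => (e s hs).le) fun s hs => e s hs.1

theorem con (h : Lm p b l G) : sA p G * (G 4 - p ^ 2 * G 2) = G 6 - p ^ 2 * G 4 :=
  div_mul_cancel₀ _ h.m1.ne'

theorem tau (h : Lm p b l G) : p ^ 2 < sA p G := by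
  have e : ∀ s, p < s → 0 < pl p s 0 0 1 0 0 0 0 := fun s hs => by
    simpa [pl] using mul_pos (pow_pos (h.y0 hs).1 2) (pow_pos (h.y0 hs).2 2)
  have := h.pos (lt_add_one p) (fun s hs => (e s hs).le) fun s hs => e s hs.1
  rw [sA, lt_div_iff₀ h.m1]
  rw [lin] at this
  linarith

theorem sq (h : Lm p b l G) : ∃ a, p < a ∧ sA p G = a ^ 2 ∧ ∀ᶠ r in l, a ≤ r := by
  have h0 := (sq_nonneg p).trans h.tau.le
  refine ⟨√(sA p G), lt_sqrt_of_sq_lt h.tau, (sq_sqrt h0).symm, ?_⟩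
  filter_upwards [h.ge, h.sg] with r h1 h2 using sqrt_le_iff.2 ⟨h.p0.trans h1, h2⟩

theorem bt (h : Lm p b l G) : b * (sA p G - p ^ 2) ≤ 5 := by
  have dv : ∀ s : ℝ, HasDerivAt (fun s : ℝ => s ^ 2 - p ^ 2) (2 * s) s := fun s => by
    simpa using (hasDerivAt_pow 2 s).sub_const (p ^ 2)
  have h1 := h.tr (c := 0) (a0 := 0) (a1 := 5) (a2 := -b) (a3 := 0) (b0 := 0) (b1 := 0) (b2 := 0)
    (h.ge.mono fun r hr => by
      refine le_trans ?_ (certp (N := fun s => (s ^ 2 - p ^ 2) ^ 2 * s) hr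
        (fun s => ((dv s).fun_pow 2).fun_mul (hasDerivAt_id' s)) fun s hs => ?_)
      · simpa using mul_nonneg (mul_nonneg (sq_nonneg (r ^ 2 - p ^ 2)) (h.p0.trans hr))
          (ee_pos p b r).le
      · rw [← sub_nonneg]
        refine (mul_nonneg (h.y0 hs.1).2.le (sq_nonneg p)).trans_eq ?_
        rw [pl]; norm_num; ring)
  refine le_of_mul_le_mul_right ?_ h.m1
  rw [lin] at h1
  linear_combination h1 + b * h.con

theorem kap (h : Lm p b l G) :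
    0 < G 8 - sA p G * G 6 + p ^ 4 * (sA p G * G 2 - G 4) := by
  obtain ⟨a, h1, h2, -⟩ := h.sq
  have h3 := h.pos (a0 := 0) (a1 := (a ^ 2 - p ^ 2) ^ 2) (a2 := -(2 * (a ^ 2 - p ^ 2))) (a3 := 1)
    (b0 := 0) (b1 := 0) (b2 := 0) h1 (fun s hs => by
      refine (mul_nonneg (mul_pos (pow_pos (h.y0 hs).1 2) (h.y0 hs).2).le
        (sq_nonneg (a ^ 2 - s ^ 2))).trans_eq ?_
      rw [pl]; ring) fun s hs => by
      refine (mul_pos (mul_pos (pow_pos (h.y0 hs.1).1 2) (h.y0 hs.1).2) (pow_pos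
        (show 0 < a ^ 2 - s ^ 2 by nlinarith [hs.2, (h.y0 hs.1).1]) 2)).trans_eq ?_
      rw [pl]; ring
  have h4 := h.con
  rw [h2] at h4 ⊢
  rw [lin] at h3
  linear_combination h3 + (a ^ 2 + p ^ 2) * h4

theorem K_ge (h : Lm p b l G) {a : ℝ} (ha : p < a) (h2 : sA p G = a ^ 2) :
    bath p a ≤ √(250 / (9 * π)) * (a ^ 2 * G 2 - G 4) := by
  have hσ := h2 ▸ h.tau
  have h4 := h2 ▸ h.con
  obtain ⟨τ, hτ⟩ : ∃ τ, τ = a ^ 2 - p ^ 2 := ⟨_, rfl⟩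
  have τ0 : 0 < τ := by linarith
  have C0 : 0 ≤ √(250 / (9 * π)) := sqrt_nonneg _
  have h3 := h.tr (c := τ * bath p a) (a0 := √(250 / (9 * π)) * τ ^ 2)
    (a1 := -(√(250 / (9 * π)) * (τ + (1 - exp (-(5 / τ - b) / 2 * τ)) * τ)))
    (a2 := √(250 / (9 * π)) * (1 - exp (-(5 / τ - b) / 2 * τ))) (a3 := 0) (b0 := 0) (b1 := 0)
    (b2 := 0) (by
      filter_upwards [h.ge, h.sg] with r h5 h6
      have e1 := mul_le_mul_of_nonneg_left (smax0 b (5 / τ) h.p0 hσ h5) C0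
      have e2 := mul_le_mul_of_nonneg_left (K_an h.p0 ha
        (abs_le_of_sq_le_sq' (h2 ▸ h6) (h.p0.trans h5)).2) τ0.le
      rw [← hτ] at e1 e2
      rw [lin] at e1 ⊢
      have e3 : a ^ 2 = τ + p ^ 2 := by linarith
      rw [e3] at e1 e2
      linarith)
  refine le_of_mul_le_mul_left ?_ τ0
  rw [lin] at h3
  have e3 : a ^ 2 = τ + p ^ 2 := by linarith
  rw [e3] at h4 ⊢
  linear_combination h3 - √(250 / (9 * π)) * (1 - exp (-(5 / τ - b) / 2 * τ)) * h4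

theorem two (h : Lm p b l G) : 2 ≤ b * (sA p G - p ^ 2) ∨
    ∀ᶠ r in l, r ^ 2 ≤ p ^ 2 + 2 * (sA p G - p ^ 2) := by
  obtain ⟨τ, hτ⟩ : ∃ τ, τ = sA p G - p ^ 2 := ⟨_, rfl⟩
  have τ0 : 0 < τ := by linarith [h.tau]
  rw [← hτ]
  have w2 := sq_sqrt (show 0 ≤ p ^ 2 + 2 * τ by positivity)
  have w1 : p < √(p ^ 2 + 2 * τ) := lt_sqrt_of_sq_lt (by linarith)
  generalize √(p ^ 2 + 2 * τ) = w at w1 w2
  rcases h.dich w with e | ⟨x, e1, e2⟩
  · right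
    filter_upwards [e, h.ge] with r h1 h2
    nlinarith [h.p0]
  left
  by_contra hc
  have dv : ∀ s : ℝ, HasDerivAt (fun s : ℝ => s ^ 2 - p ^ 2) (2 * s) s := fun s => by
    simpa using (hasDerivAt_pow 2 s).sub_const (p ^ 2)
  have g : ∀ s, w < s → 0 < pl p s 0 (-(48 * τ ^ 2)) (48 * τ) 0 0 0 0 := fun s hs => by
    have := h.y0 (w1.trans hs)
    refine (mul_pos (mul_pos (mul_pos (pow_pos this.1 2) this.2) (show 0 < 48 * τ by positivity))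
      (show 0 < s ^ 2 - p ^ 2 - τ by nlinarith [h.p0])).trans_eq ?_
    rw [pl]; ring
  have h1 := cert (p := p) (b := b) (a0 := 0) (a1 := -(48 * τ ^ 2)) (a2 := 48 * τ) (a3 := 0)
    (b0 := 0) (b1 := 0) (b2 := 0) (N := fun s => -(s * ((s ^ 2 - p ^ 2) ^ 2
      * (2 * τ - (s ^ 2 - p ^ 2)) * (6 * τ + (s ^ 2 - p ^ 2))))) w1.le
    (fun s => ((hasDerivAt_id' s).fun_mul ((((dv s).fun_pow 2).fun_mul ((dv s).const_sub _)).fun_mul
      ((dv s).const_add _))).fun_neg) fun s hs => by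
      have y0 := (h.y0 hs.1).2
      have y1 : 0 ≤ 2 * τ - (s ^ 2 - p ^ 2) := by nlinarith [hs.2, (h.y0 hs.1).1]
      have y2 : 0 ≤ 2 - b * τ := by linarith
      rw [← sub_nonneg]
      refine nonneg_of_mul_nonneg_right (a := τ) ?_ τ0
      have : 0 ≤ (τ + s ^ 2 * (2 - b * τ)) * ((s ^ 2 - p ^ 2) ^ 2 * (2 * τ - (s ^ 2 - p ^ 2))
        * (6 * τ + (s ^ 2 - p ^ 2))) + 2 * s ^ 2 * (s ^ 2 - p ^ 2) ^ 4 := by positivity
      refine this.trans_eq ?_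
      rw [pl]; norm_num; ring
  have h2 := (certs (b := b) e1 fun s hs => g s hs.1).trans_le
    (h.tr (e2.mono fun r hr => cert0 hr fun s hs => (g s (e1.trans hs.1)).le))
  rw [lin_self, w2] at h1
  have h3 : lin p G 0 (-(48 * τ ^ 2)) (48 * τ) 0 0 0 0 = 0 := by
    rw [lin, hτ]; linear_combination (-48 * (sA p G - p ^ 2)) * h.con
  norm_num at h1
  linarith

theorem bath_ge {p a : ℝ} (hp : 0 ≤ p) (ha : p < a) :
    2 / 15 * a * (a ^ 2 - p ^ 2) ^ 2 ≤ bath p a := by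
  have a0 := hp.trans ha.le
  have : 0 ≤ (a - p) ^ 2 * (4 * a * p ^ 2 + 3 * p ^ 3) / 15 := by positivity
  unfold bath
  linarith

theorem K_nn (h : Lm p b l G) : 0 ≤ sA p G * G 2 - G 4 := by
  obtain ⟨a, h1, h2, -⟩ := h.sq
  have h3 := (bath_ge h.p0 h1).trans (h.K_ge h1 h2)
  have a0 := h.p0.trans h1.le
  rw [h2]
  exact nonneg_of_mul_nonneg_right (le_trans (by positivity) h3) (zero_lt_one.trans C3_bd.1)

theorem key (h : Lm p b l G) (hp : 0 < p) (hb : 0 < b) {a τ K κ c ξ dm : ℝ} (ha : p < a)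
    (h2 : sA p G = a ^ 2) (hτ : τ = a ^ 2 - p ^ 2) (hK : K = a ^ 2 * G 2 - G 4)
    (hκ : κ = G 8 - a ^ 2 * G 6 + p ^ 4 * K) (hc : c = b * (K / p - (a ^ 2 * G 1 - G 3)))
    (hξ : ξ = b * (p ^ 2 * (2 * p * τ ^ 3 + b * κ - 8 * τ * K - 2 * b * τ ^ 2 * K) + τ ^ 2 * K)
      / (p ^ 3 * τ ^ 2))
    (hd : dm = G 1 - (3 * a ^ 2 * G 2 - G 4) / (2 * a ^ 3)) (hf : b * K ≤ p * τ) :
    0 ≤ c ∧ 0 ≤ ξ ∧ 0 ≤ dm ∧ c / 200 + 2 * dm ≤ ξ * (1 / b - dm) := by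
  have a0 := hp.trans ha
  have τ0 : 0 < τ := by linarith [h.tau]
  have h4 := h2 ▸ h.con
  have h5 : b * τ ≤ 5 := by rw [hτ, ← h2]; exact h.bt
  have K0 : 0 ≤ K := by rw [hK, ← h2]; exact h.K_nn
  obtain ⟨O, hO⟩ : ∃ O, O = lin p G 0 0 0 0 (τ ^ 2) (-(2 * τ)) 1 := ⟨_, rfl⟩
  obtain ⟨Z, hZ⟩ : ∃ Z, Z = K - p * (a ^ 2 * G 1 - G 3) := ⟨_, rfl⟩
  obtain ⟨D, hD⟩ : ∃ D, D = 2 * a ^ 3 * G 1 - 3 * a ^ 2 * G 2 + G 4 := ⟨_, rfl⟩
  obtain ⟨W, hW⟩ : ∃ W, W = p ^ 2 * (2 * p * τ ^ 3 + b * κ - 8 * τ * K - 2 * b * τ ^ 2 * K)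
    + τ ^ 2 * K := ⟨_, rfl⟩
  have O0 : 0 ≤ O := hO ▸ h.nn fun s hs =>
    (mul_nonneg (hp.trans hs).le (sq_nonneg (a ^ 2 - s ^ 2))).trans_eq (by rw [pl, hτ]; ring)
  have f1 : 0 ≤ a * (a + p) * Z := by
    have := h.nn (a0 := a * (a + p) * τ) (a1 := -(a * (a + p)) - τ) (a2 := 1) (a3 := 0)
      (b0 := -(a * (a + p) * p * τ)) (b1 := a * (a + p) * p) (b2 := 0) fun s hs => by
        have s0 := hp.trans hs
        have := sub_pos.2 hs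
        have : 0 ≤ (a - s) ^ 2 * ((a + s) * s * (s - p) * (a + s + p)) := by positivity
        refine this.trans_eq ?_
        rw [pl, hτ]; ring
    rw [lin] at this
    rw [hZ, hK]
    rw [hτ] at this
    linear_combination this - h4
  have f2 : a * (a + p) * Z ≤ τ * K := by
    have := h.nn (a0 := τ ^ 2 - a * (a + p) * τ) (a1 := a * (a + p) - τ) (a2 := 0) (a3 := 0)
      (b0 := a * (a + p) * p * τ) (b1 := -(a * (a + p) * p)) (b2 := 0) fun s hs => by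
        have s0 := hp.trans hs
        have : 0 ≤ (a - s) ^ 2 * ((a + s) * s * p * (a + p)) := by positivity
        refine this.trans_eq ?_
        rw [pl, hτ]; ring
    rw [lin] at this
    rw [hZ, hK]
    rw [hτ] at this ⊢
    linear_combination this
  have f3 : (a + p) ^ 2 * D ≤ (2 * a + p) * O := by
    have := h.nn (a0 := (a + p) ^ 2 * (3 * a ^ 2 - p ^ 2)) (a1 := -(a + p) ^ 2) (a2 := 0) (a3 := 0)
      (b0 := (2 * a + p) * τ ^ 2 - (a + p) ^ 2 * (2 * a ^ 3)) (b1 := -(2 * τ * (2 * a + p)))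
      (b2 := 2 * a + p) fun s hs => by
        have s0 := hp.trans hs
        have := sub_pos.2 hs
        have : 0 ≤ (a - s) ^ 2 * (s * (s - p) * (3 * a ^ 2 + 2 * a * (s + p) + p * s)) := by
          positivity
        refine this.trans_eq ?_
        rw [pl, hτ]; ring
    rw [hD, hO]
    rw [lin] at this ⊢
    linear_combination this
  have D0 : 0 ≤ D := by
    have := h.nn (a0 := p ^ 2 - 3 * a ^ 2) (a1 := 1) (a2 := 0) (a3 := 0)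
      (b0 := 2 * a ^ 3) (b1 := 0) (b2 := 0) fun s hs => by
        have s0 := hp.trans hs
        have : 0 ≤ (a - s) ^ 2 * (s * (2 * a + s)) := by positivity
        refine this.trans_eq ?_
        rw [pl]; ring
    rw [hD]
    rw [lin] at this
    linear_combination this
  have f5 : p * O ≤ τ * K := by
    have := h.nn (a0 := τ ^ 2) (a1 := -(2 * τ)) (a2 := 1) (a3 := 0)
      (b0 := -(p * τ ^ 2)) (b1 := 2 * p * τ) (b2 := -p) fun s hs => by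
        have s0 := hp.trans hs
        have := sub_pos.2 hs
        have : 0 ≤ (a ^ 2 - s ^ 2) ^ 2 * (s * (s - p)) := by positivity
        refine this.trans_eq ?_
        rw [pl, hτ]; ring
    rw [hO, hK]
    rw [lin] at this ⊢
    rw [hτ] at this ⊢
    linear_combination this - h4
  have f4 : τ ^ 2 * K / 60 + τ * p * O / 3 ≤ W := by
    have := h.tr (c := -(2 * p ^ 3 * τ ^ 3)) (by
      have e := h.two
      rw [h2, ← hτ] at e
      filter_upwards [h.ge, h.sg, eventually_or_distrib_left.2 e] with r e1 e2 e3 using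
        F4 hp ha (abs_le_of_sq_le_sq' (h2 ▸ e2) (hp.le.trans e1)).2 hb.le hτ h5 e3)
    rw [hO, hW, hκ, hK]
    rw [lin] at this ⊢
    have e : a ^ 2 = τ + p ^ 2 := by linarith
    rw [e] at h4 ⊢
    linear_combination this - (59 / 60 * τ - p ^ 2 * (8 + 2 * b * τ) + 4 * p ^ 2
      - b * p ^ 2 * (τ + 2 * p ^ 2)) * h4
  have W0 : 0 ≤ W := le_trans (by positivity) f4
  have Z0 : 0 ≤ Z := nonneg_of_mul_nonneg_right f1 (by positivity)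
  have ec : c = b * Z / p := by rw [hc, hZ]; field_simp
  have ed : dm = D / (2 * a ^ 3) := by rw [hd, hD]; field_simp; ring
  rw [← hW] at hξ
  refine ⟨by rw [ec]; positivity, by rw [hξ]; positivity, by rw [ed]; positivity, ?_⟩
  have s1 : b * D ≤ (2 * a + p) * (a - p) ^ 2 := by
    refine le_of_mul_le_mul_left ?_ (show 0 < p * (a + p) ^ 2 by positivity)
    have e1 := mul_le_mul_of_nonneg_left f3 (show 0 ≤ p * b by positivity)
    have e2 := mul_le_mul_of_nonneg_left f5 (show 0 ≤ (2 * a + p) * b by positivity)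
    have e3 := mul_le_mul_of_nonneg_left hf (show 0 ≤ (2 * a + p) * τ by positivity)
    rw [hτ] at e2 e3
    linear_combination e1 + e2 + e3
  have w0 : 0 < 3 * a ^ 2 - p ^ 2 := by linarith [pow_pos a0 2]
  have s2 : p ^ 2 * τ ^ 2 * (b * Z) * (2 * a ^ 3) / 200
      ≤ τ ^ 2 * K / 60 * (p * (3 * a ^ 2 - p ^ 2)) := by
    refine le_of_mul_le_mul_left ?_ (show 0 < a + p by positivity)
    have e1 := mul_le_mul_of_nonneg_left f2
      (show 0 ≤ p ^ 2 * τ ^ 2 * b * a ^ 2 / 100 by positivity)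
    have e2 := mul_le_mul_of_nonneg_left h5
      (show 0 ≤ p ^ 2 * τ ^ 2 * K * a ^ 2 / 100 by positivity)
    have e3 := mul_le_mul_of_nonneg_left (show 3 * (a ^ 2 * p) ≤ (3 * a ^ 2 - p ^ 2) * (a + p) by
      linear_combination pow_le_pow_left₀ hp.le ha.le 3 + (mul_pos a0 (hτ ▸ τ0)).le
        + (pow_pos a0 3).le)
      (show 0 ≤ τ ^ 2 * K * p / 60 by positivity)
    linear_combination e1 + e2 + e3
  have s3 : 2 * p ^ 3 * τ ^ 2 * D ≤ τ * p * O / 3 * (p * (3 * a ^ 2 - p ^ 2)) := by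
    have e1 := mul_le_mul_of_nonneg_left f3 (show 0 ≤ 2 * p ^ 3 * (a - p) ^ 2 by positivity)
    have e0 : 6 * p * (a - p) * (2 * a + p) ≤ (3 * a ^ 2 - p ^ 2) * (a + p) := by
      have : 0 ≤ 3 * a * (a - 2 * p) ^ 2 + 3 * p * (a - 7 / 6 * p) ^ 2 + 11 / 12 * p ^ 3 := by
        positivity
      linear_combination this
    have := sub_pos.2 ha
    have e2 := mul_le_mul_of_nonneg_left e0 (show 0 ≤ p ^ 2 * (a - p) * O / 3 by positivity)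
    rw [hτ]
    linear_combination e1 + e2
  have s4 := mul_le_mul_of_nonneg_right f4 (show 0 ≤ p * (3 * a ^ 2 - p ^ 2) by positivity)
  have s5 := mul_le_mul_of_nonneg_left s1 W0
  refine le_of_mul_le_mul_left ?_ (show 0 < 2 * a ^ 3 * (p ^ 3 * τ ^ 2) by positivity)
  have e1 : 2 * a ^ 3 * (p ^ 3 * τ ^ 2) * (ξ * (1 / b - dm)) = W * (2 * a ^ 3 - b * D) := by
    rw [hξ, ed]; field_simp
  have e2 : 2 * a ^ 3 * (p ^ 3 * τ ^ 2) * (c / 200 + 2 * dm)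
      = p ^ 2 * τ ^ 2 * (b * Z) * (2 * a ^ 3) / 200 + 2 * p ^ 3 * τ ^ 2 * D := by
    rw [ec, ed]; field_simp
  rw [e1, e2]
  linear_combination s2 + s3 + s4 + s5

end Lm

end Pool.Agent.Lib.LandauRad
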