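import Pool.Agent.Lib.MP_33b301_mp.AnS

/-! Static analysis on annuli: variation of the inner radius and of the exponent. -/

open Set Filter Topology MeasureTheory Function Real Asymptotics

namespace Pool.Agent.Lib.LandauRad

theorem mo_b_deriv (k : ℕ) (r b : ℝ) :
    HasDerivAt (fun b => mo k (ga b) r) (-mo (k + 2) (ga b) r / 2) b := by
  have h := hasDerivAt_param (F := fun τ s => ga τ s * s ^ k)
    (Ft := fun τ s => -(1 / 2) * (ga τ s * s ^ (k + 2))) (ga_cont2.mul (by fun_prop))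
    (continuous_const.mul (ga_cont2.mul (by fun_prop))) (a := b - 1) (b := b + 1)
    (fun t _ s => by
      have : HasDerivAt (fun t : ℝ => -t * s ^ 2 / 2) (-1 * s ^ 2 / 2) t :=
        (((hasDerivAt_id' t).fun_neg).mul_const _).div_const 2
      exact (this.exp.mul_const _).congr_deriv (by unfold ga; ring))
    (t := b) ⟨by linarith, by linarith⟩ r
  refine h.congr_deriv ?_
  rw [intervalIntegral.integral_const_mul, mo]; ring

theorem mo_scale (k : ℕ) (b r : ℝ) : mo k (ga b) r = r ^ (k + 1) * mo k (ga (b * r ^ 2)) 1 := by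
  have h := intervalIntegral.smul_integral_comp_mul_left (a := 0) (b := 1)
    (fun s => ga b s * s ^ k) r
  rw [mul_zero, mul_one] at h
  rw [mo, ← h, mo, smul_eq_mul, pow_succ', mul_assoc]
  congr 1
  rw [← intervalIntegral.integral_const_mul]
  refine intervalIntegral.integral_congr fun s _ => ?_
  simp only [ga, mul_pow]
  rw [show -b * (r ^ 2 * s ^ 2) / 2 = -(b * r ^ 2) * s ^ 2 / 2 by ring]
  ring

theorem mo_curve (k : ℕ) (p b ν h : ℝ) : HasDerivAt (fun h => mo k (ga (b + ν * h)) (p + h))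
    (ga (b + ν * h) (p + h) * (p + h) ^ k - ν * mo (k + 2) (ga (b + ν * h)) (p + h) / 2) h := by
  have d1 : HasDerivAt (fun h : ℝ => p + h) 1 h := (hasDerivAt_id' h).const_add p
  have d2 : HasDerivAt (fun h : ℝ => b + ν * h) (ν * 1) h :=
    ((hasDerivAt_id' h).const_mul ν).const_add b
  rw [funext fun h => mo_scale k (b + ν * h) (p + h)]
  refine ((d1.fun_pow (k + 1)).fun_mul ((mo_b_deriv k 1 _).comp h
    (d2.fun_mul (d1.fun_pow 2)))).congr_deriv ?_
  have e1 := ga_rec k ((b + ν * h) * (p + h) ^ 2) 1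
  have e2 : ga ((b + ν * h) * (p + h) ^ 2) 1 = ga (b + ν * h) (p + h) := by
    unfold ga; congr 1; ring
  rw [mo_scale (k + 2) (b + ν * h) (p + h), ← e2]
  simp only [comp, Nat.add_sub_cancel]
  push_cast
  linear_combination (-(p + h) ^ k) * e1

theorem Gu_curve {c : ℕ → ℝ → ℝ} {p b ν h : ℝ} (k : ℕ)
    (hc : HasDerivAt (c k) (-c (k + 2) (b + ν * h) / 2) (b + ν * h)) :
    HasDerivAt (fun h => Gu (fun k => c k (b + ν * h)) (p + h) (b + ν * h) k)
      (-(p + h) ^ k + ((b + ν * h) * (p + h) + ν * (p + h) ^ 2 / 2)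
        * Gu (fun k => c k (b + ν * h)) (p + h) (b + ν * h) k
        - ν / 2 * Gu (fun k => c k (b + ν * h)) (p + h) (b + ν * h) (k + 2)) h := by
  have d1 : HasDerivAt (fun h : ℝ => p + h) 1 h := (hasDerivAt_id' h).const_add p
  have d2 : HasDerivAt (fun h : ℝ => b + ν * h) (ν * 1) h :=
    ((hasDerivAt_id' h).const_mul ν).const_add b
  refine ((((d2.fun_mul (d1.fun_pow 2)).div_const 2).exp).fun_mul
    ((hc.comp h d2).fun_sub (mo_curve k p b ν h))).congr_deriv ?_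
  have e := ee_self (p + h) (b + ν * h)
  simp only [Gu, ee, comp] at e ⊢
  push_cast
  linear_combination (-(p + h) ^ k) * e

theorem Gu_b {c : ℕ → ℝ → ℝ} {b : ℝ} (p : ℝ) (k : ℕ)
    (hc : HasDerivAt (c k) (-c (k + 2) b / 2) b) :
    HasDerivAt (fun b => Gu (fun k => c k b) p b k)
      (p ^ 2 / 2 * Gu (fun k => c k b) p b k - Gu (fun k => c k b) p b (k + 2) / 2) b := by
  refine (((((hasDerivAt_id' b).mul_const (p ^ 2)).div_const 2).exp).fun_mul
    (hc.fun_sub (mo_b_deriv k p b))).congr_deriv ?_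
  simp only [Gu]
  ring

theorem sec_o {G G1 r : ℝ → ℝ} {c : ℝ} (h1 : ∀ᶠ x in 𝓝 (0 : ℝ), HasDerivAt G (G1 x) x)
    (h2 : HasDerivAt G1 c 0) (hr : r =o[𝓝 0] fun h : ℝ => h * h)
    (hle : ∀ᶠ h in 𝓝 (0 : ℝ), r h + G h ≤ G 0) : c ≤ 0 := by
  refine le_of_forall_pos_le_add fun η η0 => ?_
  have := (locmax (g := fun h => G h - η / 2 * (h * h)) (g1 := fun h => G1 h - η * h)
    (h1.mono fun h e => (e.fun_sub (((hasDerivAt_id' h).fun_mul (hasDerivAt_id' h)).const_mul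
      (η / 2))).congr_deriv (by ring)) (h2.fun_sub ((hasDerivAt_id' (0 : ℝ)).const_mul η)) (by
    filter_upwards [hle, hr.bound (half_pos η0)] with h e e'
    rw [norm_eq_abs, norm_eq_abs, abs_mul_self] at e'
    linarith [neg_abs_le (r h)])).2
  linarith

variable {A ε p b M E : ℝ} {g : ℝ → ℝ} {c : ℕ → ℝ → ℝ} {l : Filter ℝ}

theorem dirb (h : Lm p b l (Gu (fun k => c k b) p b))
    (hc : ∀ k, HasDerivAt (c k) (-c (k + 2) b / 2) b) : ∃ s, 0 < s ∧
    HasDerivAt (fun b => Fa A ε p g (Gu (fun k => c k b) p b) M E)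
      (-(s * (M - mo 2 g p - A * Gu (fun k => c k b) p b 2))) b := by
  have d := fun k => Gu_b p k (hc k)
  have m1 := h.m1
  refine ⟨_, div_pos h.kap (mul_pos two_pos m1), ?_⟩
  refine ((((((d 6).fun_sub ((d 4).const_mul _)).fun_div ((d 4).fun_sub ((d 2).const_mul _))
    m1.ne').fun_mul (((d 2).const_mul A).const_sub _)).fun_sub
    (((d 4).const_mul A).const_sub _)).sub_const ε).congr_deriv ?_
  simp only [sA]
  generalize Gu (fun k => c k b) p b = G at *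
  obtain ⟨m, hm⟩ : ∃ m, m = G 4 - p ^ 2 * G 2 := ⟨_, rfl⟩
  have e : G 4 = m + p ^ 2 * G 2 := by linarith
  rw [← hm] at m1 ⊢
  norm_num
  rw [e]
  field_simp
  ring

theorem dirb_ge (h : Lm p b l (Gu (fun k => c k b) p b))
    (hc : ∀ k, HasDerivAt (c k) (-c (k + 2) b / 2) b)
    (h0 : Fa A ε p g (Gu (fun k => c k b) p b) M E = 0)
    (hle : ∀ β, b < β → Fa A ε p g (Gu (fun k => c k β) p β) M E ≤ 0) :
    0 ≤ M - mo 2 g p - A * Gu (fun k => c k b) p b 2 := by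
  obtain ⟨s, s0, hd⟩ := dirb (A := A) (ε := ε) (g := g) (M := M) (E := E) h hc
  have h1 := le_of_tendsto (b := 0) ((hasDerivAt_iff_tendsto_slope.1 hd).mono_left
    (nhdsGT_le_nhdsNE b)) (eventually_mem_nhdsWithin.mono fun β hβ => by
      rw [slope_def_field, h0, sub_zero]
      exact div_nonpos_of_nonpos_of_nonneg (hle β hβ) (sub_pos.2 hβ).le)
  exact nonneg_of_mul_nonneg_right (neg_nonpos.1 h1) s0

theorem dirb_eq (h : Lm p b l (Gu (fun k => c k b) p b)) (hb : 0 < b)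
    (hc : ∀ k, HasDerivAt (c k) (-c (k + 2) b / 2) b)
    (h0 : Fa A ε p g (Gu (fun k => c k b) p b) M E = 0)
    (hle : ∀ β, 0 < β → Fa A ε p g (Gu (fun k => c k β) p β) M E ≤ 0) :
    M - mo 2 g p - A * Gu (fun k => c k b) p b 2 = 0 := by
  obtain ⟨s, s0, hd⟩ := dirb (A := A) (ε := ε) (g := g) (M := M) (E := E) h hc
  have h1 := IsLocalMax.hasDerivAt_eq_zero
    ((lt_mem_nhds hb).mono fun β hβ => (hle β hβ).trans h0.ge) hd
  exact (mul_eq_zero.1 (neg_eq_zero.1 h1)).resolve_left s0.ne'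

theorem dirp {g1 : ℝ → ℝ} (h : Lm p b l (Gu (fun k => c k b) p b))
    (hg : ∀ r, HasDerivAt g (g1 r) r)
    (hc : ∀ᶠ β in 𝓝 b, ∀ k, HasDerivAt (c k) (-c (k + 2) β / 2) β)
    (h0 : Fa A ε p g (Gu (fun k => c k b) p b) M E = 0)
    (hu : M - mo 2 g p - A * Gu (fun k => c k b) p b 2 = 0) (hp : 0 < p)
    (hle : ∀ᶠ z : ℝ × ℝ in 𝓝 (p, b), Fa A ε z.1 g (Gu (fun k => c k z.2) z.1 z.2) M E ≤ 0)
    {G : ℕ → ℝ} (hG : G = Gu (fun k => c k b) p b) {a τ K κ : ℝ} (h2 : sA p G = a ^ 2)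
    (hτ : τ = a ^ 2 - p ^ 2) (hK : K = a ^ 2 * G 2 - G 4) (hκ : κ = G 8 - a ^ 2 * G 6 + p ^ 4 * K) :
    p * τ * g p = A * (p * τ - b * K) ∧ A * (b ^ 2 * p ^ 2 * κ - 6 * b * p ^ 2 * K * τ
      + b * K * τ ^ 2 + b * τ ^ 3 * p ^ 3 - b ^ 2 * p ^ 2 * K * τ ^ 2) ≤ τ ^ 3 * p ^ 2 * g1 p := by
  have gc : Continuous g := continuous_iff_continuousAt.2 fun r => (hg r).continuousAt
  rw [← hG] at h h0 hu
  have τ0 : 0 < τ := by linarith [h.tau]
  have h4 := h2 ▸ h.con
  obtain ⟨ν, hν⟩ : ∃ ν, ν = 2 * b * p / τ := ⟨_, rfl⟩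
  have ν1 : ν * τ = 2 * b * p := by rw [hν]; field_simp
  obtain ⟨C, hC⟩ : ∃ C : ℝ → ℕ → ℝ,
    C = fun h => Gu (fun k => c k (b + ν * h)) (p + h) (b + ν * h) := ⟨_, rfl⟩
  have C0 : C 0 = G := by simp [hC, hG]
  have d1 : ∀ h : ℝ, HasDerivAt (fun h : ℝ => p + h) 1 h := fun h => (hasDerivAt_id' h).const_add p
  have d2 : ∀ h : ℝ, HasDerivAt (fun h : ℝ => b + ν * h) (ν * 1) h := fun h =>
    ((hasDerivAt_id' h).const_mul ν).const_add b
  have t : Tendsto (fun h : ℝ => (p + h, b + ν * h)) (𝓝 0) (𝓝 (p, b)) :=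
    Continuous.tendsto' (by fun_prop) _ _ (by simp)
  have dC : ∀ᶠ h in 𝓝 (0 : ℝ), ∀ k, HasDerivAt (fun h => C h k) (-(p + h) ^ k
      + ((b + ν * h) * (p + h) + ν * (p + h) ^ 2 / 2) * C h k - ν / 2 * C h (k + 2)) h := by
    rw [hC]
    exact ((continuous_snd.tendsto _).comp t).eventually hc |>.mono fun h e k => Gu_curve k (e k)
  have dm : ∀ k (h : ℝ), HasDerivAt (fun h => mo k g (p + h)) (g (p + h) * (p + h) ^ k * 1) h :=
    fun k h => (mo_deriv k gc _).comp h (d1 h)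
  have d0 := dC.self_of_nhds
  have m1 := h.m1
  have dσ := ((d0 6).fun_sub (((d1 0).fun_pow 2).fun_mul (d0 4))).fun_div
    ((d0 4).fun_sub (((d1 0).fun_pow 2).fun_mul (d0 2))) (by rw [C0, add_zero]; exact m1.ne')
  have du := ((dm 2 0).const_sub M).fun_sub ((d0 2).const_mul A)
  have dG := dC.mono fun h e => ((((((dm 2 h).const_sub M).fun_sub ((e 2).const_mul A)).const_mul
    (a ^ 2)).fun_sub (((dm 4 h).const_sub E).fun_sub ((e 4).const_mul A))).sub_const ε)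
  have hF : ∀ᶠ h in 𝓝 (0 : ℝ), (sA (p + h) (C h) - a ^ 2) * (M - mo 2 g (p + h) - A * C h 2)
      + (a ^ 2 * (M - mo 2 g (p + h) - A * C h 2) - (E - mo 4 g (p + h) - A * C h 4) - ε) ≤ 0 := by
    filter_upwards [t.eventually hle] with h e
    rw [hC]
    simp only [Fa] at e ⊢
    linarith
  have z0 : a ^ 2 * (M - mo 2 g p - A * G 2) - (E - mo 4 g p - A * G 4) - ε = 0 := by
    rw [← h2]; exact h0
  have e1 := IsLocalMax.hasDerivAt_eq_zero (hF.mono fun h e => e.trans (by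
    simp only [add_zero, C0, z0, h2, sub_self, zero_mul, le_refl]))
    (((dσ.sub_const (a ^ 2)).fun_mul du).fun_add dG.self_of_nhds)
  have e0 : (G 6 - p ^ 2 * G 4) / (G 4 - p ^ 2 * G 2) = a ^ 2 := h2
  simp only [add_zero, mul_zero, C0, hu, e0, sub_self, zero_mul, zero_add] at e1
  have f1 : p * τ * g p = A * (p * τ - b * K) := by
    refine mul_left_cancel₀ hp.ne' ?_
    rw [hK, hτ]
    linear_combination -e1 + A * ν / 2 * h4
  refine ⟨f1, ?_⟩
  have du0 : HasDerivAt (fun h => M - mo 2 g (p + h) - A * C h 2) 0 0 := by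
    refine du.congr_deriv (mul_left_cancel₀ τ0.ne' ?_)
    simp only [add_zero, mul_zero, C0]
    have e : a ^ 2 = τ + p ^ 2 := by linarith
    rw [hK, e] at f1
    linear_combination -p * f1 + A / 2 * (G 4 - p ^ 2 * G 2) * ν1
  have o1 : (fun h => sA (p + h) (C h) - a ^ 2) =O[𝓝 0] fun h : ℝ => h := by
    have := dσ.isBigO_sub
    simp only [add_zero, C0, e0, sub_zero] at this
    exact this
  have o2 : (fun h => M - mo 2 g (p + h) - A * C h 2) =o[𝓝 0] fun h : ℝ => h := by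
    simpa only [add_zero, C0, hu, sub_zero, smul_zero] using hasDerivAt_iff_isLittleO.1 du0
  have dg := (hg (p + 0)).comp 0 (d1 0)
  have dX := fun k => ((((d1 0).fun_pow k).fun_neg.fun_add (((((d2 0).fun_mul (d1 0)).fun_add
    ((((d1 0).fun_pow 2).const_mul ν).div_const 2))).fun_mul (d0 k))).fun_sub
    ((d0 (k + 2)).const_mul (ν / 2))).const_mul A
  have dY := fun k => ((dg.fun_mul ((d1 0).fun_pow k)).mul_const 1).fun_neg.fun_sub (dX k)
  have e2 := sec_o dG (((dY 2).const_mul (a ^ 2)).fun_sub (dY 4)) (o1.mul_isLittleO o2)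
    (hF.mono fun h e => by simp only [add_zero, C0, z0]; exact e)
  simp only [add_zero, mul_zero, C0, comp] at e2
  norm_num at e2
  refine sub_nonneg.1 ((mul_nonneg (sq_nonneg τ) (sub_nonneg.2 e2)).trans_eq ?_)
  have x1 : a ^ 2 = τ + p ^ 2 := by linarith
  have x2 : G 8 = κ + a ^ 2 * G 6 - p ^ 4 * K := by linarith
  have x3 : G 6 = a ^ 2 * (G 4 - p ^ 2 * G 2) + p ^ 2 * G 4 := by linarith
  have x4 : G 4 = a ^ 2 * G 2 - K := by linarith
  have x5 : g p = A * (p * τ - b * K) / (p * τ) := by rw [← f1]; field_simp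
  rw [x2, x3, x4, x1, x5, hν]
  field_simp
  ring

end Pool.Agent.Lib.LandauRad
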