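import Pool.Agent.Lib.MP_33b301_mp.AnP

/-! The sign of the time derivative at a touching point. -/

open Set Filter Topology MeasureTheory Function Real

namespace Pool.Agent.Lib.LandauRad

theorem alg0 {A ε b p z ξ c dm d E M : ℝ} (hA : 0 < A) (hε : 0 ≤ ε) (hb : 0 < b) (hp : 0 < p)
    (z0 : 0 ≤ z) (z5 : z ≤ 5) (c0 : 0 ≤ c) (ξ0 : 0 ≤ ξ) (d0 : 0 ≤ dm)
    (hk : c / 200 + 2 * dm ≤ ξ * (1 / b - dm)) (d1 : -d ≤ ε / (2 * p ^ 3)) (d2 : d ≤ A * dm)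
    (E0 : 0 ≤ E) (M0 : 0 ≤ M) (M1 : M ≤ 201 / 200 * A * p ^ 3 / 3) :
    -(A * (ξ + b * c) * (E / 3 + A * p ^ 3 / (3 * b))) + A * (ξ + 2 - z) * p ^ 3 * d / 3
      + M * (A * c - 2 * d) ≤ A * ε := by
  have e1 : 0 ≤ A * (ξ + b * c) * (E / 3) := by positivity
  have e2 : A * (ξ + b * c) * (A * p ^ 3 / (3 * b)) = A ^ 2 * p ^ 3 / 3 * (ξ * (1 / b) + c) := by
    field_simp
  have e3 := mul_le_mul_of_nonneg_right M1 (mul_nonneg hA.le c0)
  have e4 := mul_le_mul_of_nonneg_left hk (show 0 ≤ A ^ 2 * p ^ 3 / 3 by positivity)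
  have e0 := mul_nonneg hA.le hε
  rcases le_total 0 d with h | h
  · have e5 := mul_le_mul_of_nonneg_left d2 (show 0 ≤ A * (ξ + 2) * p ^ 3 / 3 by positivity)
    have e6 : 0 ≤ A * z * p ^ 3 * d / 3 := by positivity
    have e7 := mul_nonneg M0 h
    linear_combination e1 - e2 + e3 + e4 + e5 + e6 + 2 * e7 + e0
  · have h' := neg_nonneg.2 h
    have e5 : 0 ≤ A * ξ * p ^ 3 * -d / 3 := by positivity
    have e6 := mul_le_mul_of_nonneg_left z5 (show 0 ≤ A * p ^ 3 * -d / 3 by positivity)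
    have e7 := mul_le_mul_of_nonneg_right M1 h'
    have e8 := mul_le_mul_of_nonneg_left ((le_div_iff₀ (by positivity)).1 d1) hA.le
    have e9 : 0 ≤ A ^ 2 * p ^ 3 / 3 * ((ξ + 2) * dm) := by positivity
    linear_combination e1 - e2 + e3 + e4 + e5 + e6 + 2 * e7 + 501 / 600 * e8 + 99 / 600 * e0 + e9

variable {A ε ε' p b B : ℝ} {g g1 g2 w : ℝ → ℝ}

theorem core {c : ℕ → ℝ → ℝ} {l : Filter ℝ} {G : ℕ → ℝ} {m1 m2 m4 j R : ℝ}
    (hG : G = Gu (fun k => c k b) p b) (h : Lm p b l G) (hp : 0 < p) (hb : 0 < b) (hA : 0 < A)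
    (hε : 0 ≤ ε) (hε' : 0 ≤ ε') (hg : Prof B g) (d1 : ∀ r, HasDerivAt g (g1 r) r)
    (d2 : ∀ r, HasDerivAt g1 (g2 r) r) (hw : Continuous w)
    (heq : ∀ r, 0 < r → w r = co g r * g2 r + (tr g r - co g r) * g1 r / r + g r ^ 2)
    (t1 : Tendsto (mo 1 g) l (𝓝 m1)) (t2 : Tendsto (mo 2 g) l (𝓝 m2))
    (t4 : Tendsto (mo 4 g) l (𝓝 m4))
    (hc : ∀ᶠ β in 𝓝 b, ∀ k, HasDerivAt (c k) (-c (k + 2) β / 2) β)
    (h0 : Fa A ε' p g G m2 m4 = 0) (hu : m2 - mo 2 g p - A * G 2 = 0)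
    (hle : ∀ᶠ z : ℝ × ℝ in 𝓝 (p, b), Fa A ε' z.1 g (Gu (fun k => c k z.2) z.1 z.2) m2 m4 ≤ 0)
    (hup : m1 - mo 1 g p - A * G 1 ≤ ε / (2 * p ^ 3)) (hM : mo 2 g p ≤ 201 / 200 * A * p ^ 3 / 3)
    (hj : 0 ≤ j) (hJ : tl g p = m1 - mo 1 g p + A * (1 / b - G 1) + j)
    (hR : R ≤ A * (2 - b * (sA p G - p ^ 2) + b ^ 2 * (sA p G * G 1 - G 3))
      * (mo 4 g p / 3 + A * p ^ 3 / (3 * b) - mo 2 g p / b) + j * (A * (2 - b * (sA p G - p ^ 2)
      + b ^ 2 * (sA p G * G 2 - G 4) / p) * p ^ 3 / 3 - 2 * mo 2 g p)) :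
    R - (sA p G * mo 2 w p - mo 4 w p) ≤ A * ε := by
  obtain ⟨a, ha, h2, -⟩ := h.sq
  have a0 := hp.trans ha
  obtain ⟨τ, hτ⟩ : ∃ τ, τ = a ^ 2 - p ^ 2 := ⟨_, rfl⟩
  obtain ⟨K, hK⟩ : ∃ K, K = a ^ 2 * G 2 - G 4 := ⟨_, rfl⟩
  obtain ⟨κ, hκ⟩ : ∃ κ, κ = G 8 - a ^ 2 * G 6 + p ^ 4 * K := ⟨_, rfl⟩
  have τ0 : 0 < τ := by linarith [h.tau]
  obtain ⟨f1, f2⟩ := dirp (hG ▸ h) d1 hc (hG ▸ h0) (hG ▸ hu) hp hle hG h2 hτ hK hκ
  have hf : b * K ≤ p * τ := sub_nonneg.1 (nonneg_of_mul_nonneg_right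
    (f1 ▸ mul_nonneg (mul_pos hp τ0).le (hg.nonneg p)) hA)
  obtain ⟨ξ, hξ⟩ : ∃ ξ, ξ = b * (p ^ 2 * (2 * p * τ ^ 3 + b * κ - 8 * τ * K - 2 * b * τ ^ 2 * K)
    + τ ^ 2 * K) / (p ^ 3 * τ ^ 2) := ⟨_, rfl⟩
  obtain ⟨k1, k2, k3, k4⟩ := h.key hp hb ha h2 hτ hK hκ rfl hξ rfl hf
  have K0 : 0 ≤ K := by rw [hK, ← h2]; exact h.K_nn
  have h5 : b * τ ≤ 5 := by rw [hτ, ← h2]; exact h.bt
  have z1 : 0 ≤ b ^ 2 * K / p := by positivity
  have z0 : 0 ≤ b * τ - b ^ 2 * K / p := by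
    rw [sub_nonneg, div_le_iff₀ hp]
    linear_combination b * hf
  have lo := h.jin_lo hg a0 t1 t2 t4
  rw [Fa, hu] at h0
  have E0 := mo_nonneg 4 hg.nonneg hp.le
  have a1 := alg0 (d := A * G 1 - (m1 - mo 1 g p)) hA hε hb hp z0 (by linarith) k1 k2 k3 k4
    (by linarith) (by
      refine le_of_mul_le_mul_left ?_ (show 0 < 2 * a ^ 3 by positivity)
      have : 2 * a ^ 3 * (A * (G 1 - (3 * a ^ 2 * G 2 - G 4) / (2 * a ^ 3)))
        = A * (2 * a ^ 3 * G 1 - 3 * a ^ 2 * G 2 + G 4) := by field_simp; ring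
      rw [this]
      linear_combination lo - 3 * a ^ 2 * hu - h0 + hε') E0 (mo_nonneg 2 hg.nonneg hp.le) hM
  have x2 := flux2 hg d1 d2 hw heq hp
  have x4 := flux4 hg d1 d2 hw heq hp
  have J0 := hg.tl_nonneg hp.le
  have x5 : g p = A * (1 - b * K / (p * τ)) := by
    field_simp
    linear_combination f1
  have x6 : A * (ξ + 2 - (b * τ - b ^ 2 * K / p)) - 2 * g p ≤ τ * g1 p / p := by
    refine le_of_mul_le_mul_left (le_of_eq_of_le ?_ (f2.trans_eq ?_))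
      (show 0 < p ^ 3 * τ ^ 2 by positivity)
    · rw [x5, hξ]; field_simp; ring
    · field_simp
  have x7 := mul_le_mul_of_nonneg_left x6
    (show 0 ≤ (mo 4 g p + p ^ 3 * tl g p) / 3 by positivity)
  have x8 : τ * mo 2 w p = (mo 4 g p + p ^ 3 * tl g p) / 3 * (τ * g1 p / p)
      + A * (τ - b * K / p) * mo 2 g p := by
    rw [x2, x5]; field_simp
  have x9 : 0 ≤ A * ξ * p ^ 3 * j / 3 := by positivity
  rw [h2, ← hτ, ← hK] at hR
  rw [h2, show a ^ 2 * mo 2 w p - mo 4 w p = τ * mo 2 w p + (p ^ 2 * mo 2 w p - mo 4 w p) by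
    rw [hτ]; ring, x8, x4]
  rw [hJ] at x7 ⊢
  refine le_trans (sub_nonneg.1 ((add_nonneg (add_nonneg (sub_nonneg.2 hR) (sub_nonneg.2 x7))
    x9).trans_eq ?_)) a1
  field_simp
  ring

theorem near (hp : 0 < p) (hb : 0 < b) {q : ℝ} (hq : p < q) :
    ∀ᶠ z : ℝ × ℝ in 𝓝 (p, b), (0 < z.1 ∧ z.1 < q) ∧ 0 < z.2 :=
  (((lt_mem_nhds hp).and (gt_mem_nhds hq)).prod_nhds (lt_mem_nhds hb))

theorem stepF (hp : 0 < p) (hb : 0 ≤ b) (hA : 0 < A) (hε : 0 ≤ ε) (hg : Prof B g)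
    (d1 : ∀ r, HasDerivAt g (g1 r) r) (d2 : ∀ r, HasDerivAt g1 (g2 r) r) (hw : Continuous w)
    (heq : ∀ r, 0 < r → w r = co g r * g2 r + (tr g r - co g r) * g1 r / r + g r ^ 2)
    {q : ℝ} (hq : p < q) (h0 : F1 A ε p b g q = 0)
    (hle : ∀ p b q, 0 ≤ p → 0 ≤ b → p < q → F1 A ε p b g q ≤ 0)
    (hM : mo 2 g p ≤ 201 / 200 * A * p ^ 3 / 3) :
    sA p (GF p b q) * mo 2 w q - mo 4 w q - (sA p (GF p b q) * mo 2 w p - mo 4 w p) ≤ A * ε := by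
  have h := Lm_fin hp.le hb hq
  have gc := hg.cont
  have q0 := hp.trans hq
  have hH := fun r => hle p b r hp.le hb
  have hc := fun β k => mo_b_deriv k q β
  have s1 := sub_pos.2 (Lf_pos b hp.le hq).2
  have u0 : 0 ≤ ua A p b g q := dirb_ge (c := fun k β => mo k (ga β) q) h (hc b) h0
    fun β hβ => hle p β q hp.le (hb.trans hβ.le) hq
  have h0' := h0
  rw [F1_eq] at h0'
  have by1 := beyond' gc hp.le hH hq (by linarith [mul_nonneg s1.le u0])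
  rcases hb.eq_or_lt with rfl | hb
  · exact (no_b0 hg hp.le hA by1).elim
  have hu : ua A p b g q = 0 := dirb_eq (c := fun k β => mo k (ga β) q) h hb (hc b) h0
    fun β hβ => hle p β q hp.le hβ.le hq
  have hD : Da A ε p b g q = 0 := by rw [hu] at h0'; linarith
  have hv := val' gc hp.le hH hq hD hu
  have hd := der' gc (d1 q) q0 hu hv by1
  have ht := tl' hg hb q0 hu by1
  have hj := jin_up gc hp hq.le (before' gc hp.le hH hD.le)
  simp only [hu, hD, zero_div, sub_zero] at hj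
  have r1 := GF_rec1 p b q
  have r3 := GF_rec p b q 1
  have r4 := GF_rec p b q 2
  have r6 := GF_rec p b q 4
  norm_num at r3 r4 r6
  have γ0 := ee_pos p b q
  obtain ⟨j, hj'⟩ : ∃ j, j = tl g q - A * ee p b q / b := ⟨_, rfl⟩
  have j0 : 0 ≤ j := by rw [hj', sub_nonneg, div_le_iff₀ hb]; linarith
  refine core (c := fun k β => mo k (ga β) q) rfl h hp hb hA hε hε hg d1 d2 hw heq
    (tendsto_pure_nhds _ q) (tendsto_pure_nhds _ q) (tendsto_pure_nhds _ q) (.of_forall hc) h0 hu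
    ((near hp hb hq).mono fun z hz => hle z.1 z.2 q hz.1.1.le hz.2.le hz.1.2) hj hM j0 ?_ ?_
  · rw [hj', hg.tl_eq hp.le, hg.tl_eq q0.le]
    field_simp
    linear_combination A * r1
  have x2 := flux2 hg d1 d2 hw heq q0
  have x4 := flux4 hg d1 d2 hw heq q0
  have J0 := hg.tl_nonneg q0.le
  have E0 := mo_nonneg 4 hg.nonneg q0.le
  have x5 := mul_le_mul_of_nonneg_left hd (mul_nonneg s1.le
    (show 0 ≤ mo 4 g q / (3 * q) + q ^ 2 * tl g q / 3 by positivity))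
  have con := h.con
  have K0 := h.K_nn
  simp only [Da, va, hu] at hD
  simp only [ua] at hu
  generalize sA p (GF p b q) = σ at *
  generalize GF p b q = G at *
  generalize ee p b q = γ at *
  have y0 : 0 ≤ A * ε * ((b * (q ^ 2 - σ) + 2) * γ) / 3 + A * b * (σ * G 2 - G 4) * j := by
    positivity
  have y1 : G 1 = (1 - γ) / b := by field_simp; linarith
  have y3 : G 3 = (2 * G 1 + p ^ 2 - q ^ 2 * γ) / b := by field_simp; linarith
  have y2 : mo 2 g q = mo 2 g p + A * G 2 := by linarith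
  have y4 : mo 4 g q = mo 4 g p + A * G 4 - ε := by linarith
  have y5 : tl g q = j + A * γ / b := by linarith
  have y6 : q ^ 3 * γ = 3 * G 2 + p ^ 3 - b * G 4 := by linarith
  have y7 : q ^ 5 * γ = 5 * G 4 + p ^ 5 - b * (σ * (G 4 - p ^ 2 * G 2) + p ^ 2 * G 4) := by
    linear_combination r6 + b * con
  rw [show σ * mo 2 w q - mo 4 w q = q ^ 2 * mo 2 w q - mo 4 w q - (q ^ 2 - σ) * mo 2 w q by ring,
    x4, x2, hv]
  refine sub_nonneg.1 ((add_nonneg (sub_nonneg.2 x5) y0).trans_eq ?_)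
  rw [y3, y1, y2, y4, y5]
  linear_combination (norm := (field_simp; ring)) (A ^ 2 * ((b * (q ^ 2 - σ) + 2) * γ) / (3 * b)
    + A * j * (2 - b * σ) / 3) * y6 + A * j * b / 3 * y7

theorem stepI (hp : 0 < p) (hb : 0 < b) (hA : 0 < A) (hε : 0 < ε) (hg : Prof B g)
    (d1 : ∀ r, HasDerivAt g (g1 r) r) (d2 : ∀ r, HasDerivAt g1 (g2 r) r) (hw : Continuous w)
    (heq : ∀ r, 0 < r → w r = co g r * g2 r + (tr g r - co g r) * g1 r / r + g r ^ 2)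
    (h0 : F2 A (ε / 2) p b g = 0) (hH : ∀ q, p < q → F1 A ε p b g q ≤ 0)
    (hle : ∀ p b, 0 ≤ p → 0 < b → F2 A (ε / 2) p b g ≤ 0)
    (hM : mo 2 g p ≤ 201 / 200 * A * p ^ 3 / 3) :
    -(sA p (GI p b) * mo 2 w p - mo 4 w p) ≤ A * ε := by
  have h := Lm_inf hp.le hb
  have gc := hg.cont
  have hu := dirb_eq (c := cc) h hb (cc_deriv hb) h0 fun β hβ => hle p β hp.le hβ
  have h0' := h0
  rw [F2, Fa] at h0'
  have hu' : tot 2 g - mo 2 g p - A * GI p b 2 = 0 := hu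
  have hD := inf_D hg hp.le hb hA.le hε hH hu' (by rw [hu'] at h0'; linarith)
  have t1 := hg.mo_tendsto (k := 1) (by norm_num)
  have t2 := hg.mo_tendsto (k := 2) (by norm_num)
  have hj : tot 1 g - mo 1 g p - A * GI p b 1 - 0 ≤ ε / (2 * p ^ 3) := by
    refine le_of_tendsto (((t1.sub_const _).sub ((GI_lim p hb 1).const_mul A)).sub
      (((t2.sub_const (mo 2 g p)).sub ((GI_lim p hb 2).const_mul A)).div_atTop tendsto_id)) ?_
    filter_upwards [eventually_gt_atTop p] with r hr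
    have e1 := jin_up gc hp hr.le fun x hx => hD x hx.1
    have e2 := div_nonpos_of_nonpos_of_nonneg (hD r hr) (pow_pos (hp.trans hr) 3).le
    simp only [ua] at e1
    simp only [id]
    linarith
  have r1 := GI_one p hb
  have r3 := GI_rec p hb 1
  norm_num at r3
  rw [← zero_sub]
  refine core (c := cc) (j := 0) rfl h hp hb hA hε.le (half_pos hε).le hg d1 d2 hw heq t1 t2
    (hg.mo_tendsto le_rfl) ((lt_mem_nhds hb).mono fun β => cc_deriv) h0 hu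
    ((near hp hb (lt_add_one p)).mono fun z hz => hle z.1 z.2 hz.1.1.le hz.2) (by linarith) hM
    le_rfl ?_ (le_of_eq ?_)
  · rw [hg.tl_eq hp.le]
    field_simp
    linear_combination A * r1
  · have : 2 - b * (sA p (GI p b) - p ^ 2) + b ^ 2 * (sA p (GI p b) * GI p b 1 - GI p b 3) = 0 := by
      linear_combination (b * sA p (GI p b) - 2) * r1 - b * r3
    rw [this]; ring

end Pool.Agent.Lib.LandauRad
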