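import Pool.Agent.Lib.MP_33b301_mp.AnB

/-! Static analysis on annuli: variation of the outer radius. -/

open Set Filter Topology MeasureTheory Function Real

namespace Pool.Agent.Lib.LandauRad

noncomputable def Fa (A ε p : ℝ) (g : ℝ → ℝ) (G : ℕ → ℝ) (M E : ℝ) : ℝ :=
  sA p G * (M - mo 2 g p - A * G 2) - (E - mo 4 g p - A * G 4) - ε

noncomputable def ua (A p b : ℝ) (g : ℝ → ℝ) (r : ℝ) : ℝ := mo 2 g r - mo 2 g p - A * GF p b r 2

noncomputable def va (A p b : ℝ) (g : ℝ → ℝ) (r : ℝ) : ℝ := mo 4 g r - mo 4 g p - A * GF p b r 4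

noncomputable def Da (A ε p b : ℝ) (g : ℝ → ℝ) (r : ℝ) : ℝ :=
  (r ^ 2 * ua A p b g r - va A p b g r) / 2 - ε / 2

noncomputable def La (p b r : ℝ) : ℝ :=
  r ^ 2 * (GF p b r 4 - p ^ 2 * GF p b r 2) - (GF p b r 6 - p ^ 2 * GF p b r 4)

noncomputable def F1 (A ε p b : ℝ) (g : ℝ → ℝ) (q : ℝ) : ℝ :=
  Fa A ε p g (GF p b q) (mo 2 g q) (mo 4 g q)

noncomputable def F2 (A ε p b : ℝ) (g : ℝ → ℝ) : ℝ := Fa A ε p g (GI p b) (tot 2 g) (tot 4 g)

variable {A ε p b B : ℝ} {g : ℝ → ℝ}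

theorem F1_eq (r : ℝ) : F1 A ε p b g r
    = 2 * Da A ε p b g r - (r ^ 2 - sA p (GF p b r)) * ua A p b g r := by
  unfold F1 Fa Da ua va; ring

theorem ua_deriv (hg : Continuous g) (r : ℝ) :
    HasDerivAt (ua A p b g) ((g r - A * ee p b r) * r ^ 2) r :=
  (((mo_deriv 2 hg r).sub_const _).sub ((GF_deriv p b r 2).const_mul A)).congr_deriv (by ring)

theorem va_deriv (hg : Continuous g) (r : ℝ) :
    HasDerivAt (va A p b g) ((g r - A * ee p b r) * r ^ 4) r :=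
  (((mo_deriv 4 hg r).sub_const _).sub ((GF_deriv p b r 4).const_mul A)).congr_deriv (by ring)

theorem Da_deriv (hg : Continuous g) (r : ℝ) :
    HasDerivAt (Da A ε p b g) (r * ua A p b g r) r :=
  (((((hasDerivAt_pow 2 r).mul (ua_deriv hg r)).sub (va_deriv hg r)).div_const 2).sub_const
    (ε / 2)).congr_deriv (by simp; ring)

theorem m1_deriv (p b r : ℝ) : HasDerivAt (fun r => GF p b r 4 - p ^ 2 * GF p b r 2)
    (ee p b r * r ^ 4 - p ^ 2 * (ee p b r * r ^ 2)) r :=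
  (GF_deriv p b r 4).sub ((GF_deriv p b r 2).const_mul _)

theorem La_deriv (p b r : ℝ) :
    HasDerivAt (La p b) (2 * r * (GF p b r 4 - p ^ 2 * GF p b r 2)) r :=
  (((hasDerivAt_pow 2 r).mul (m1_deriv p b r)).sub ((GF_deriv p b r 6).sub
    ((GF_deriv p b r 4).const_mul _))).congr_deriv (by simp; ring)

theorem La_eq (hp : 0 ≤ p) {r : ℝ} (hr : p < r) :
    La p b r = (r ^ 2 - sA p (GF p b r)) * (GF p b r 4 - p ^ 2 * GF p b r 2) := by
  rw [sub_mul, sA, div_mul_cancel₀ _ (Lf_pos b hp hr).1.ne', La]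

theorem La_pos (hp : 0 ≤ p) {r : ℝ} (hr : p < r) : 0 < La p b r := by
  rw [La_eq hp hr]; exact mul_pos (sub_pos.2 (Lf_pos b hp hr).2) (Lf_pos b hp hr).1

theorem dl_mono (hg : Continuous g) (hp : 0 ≤ p) (hH : ∀ r, p < r → F1 A ε p b g r ≤ 0)
    {r1 r2 : ℝ} (h1 : p < r1) (h2 : r1 ≤ r2) :
    Da A ε p b g r1 / La p b r1 ≤ Da A ε p b g r2 / La p b r2 := by
  refine mono_of (f := fun r => Da A ε p b g r / La p b r) h2 (fun x hx => (Da_deriv hg x).div
    (La_deriv p b x) (La_pos hp (h1.trans_le hx.1)).ne') fun x hx => div_nonneg ?_ (sq_nonneg _)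
  have hx' := h1.trans hx.1
  have h3 := hH x hx'
  rw [F1_eq] at h3
  rw [La_eq hp hx']
  have := mul_nonneg (mul_pos (hp.trans_lt hx') (Lf_pos b hp hx').1).le (neg_nonneg.2 h3)
  linarith

theorem beyond' (hg : Continuous g) (hp : 0 ≤ p) (hH : ∀ r, p < r → F1 A ε p b g r ≤ 0)
    {r0 : ℝ} (h0 : p < r0) (hD : 0 ≤ Da A ε p b g r0) : ∀ r, r0 ≤ r → 0 ≤ ua A p b g r := by
  intro r hr
  have hr' := h0.trans_le hr
  have h2 := (div_nonneg hD (La_pos (b := b) hp h0).le).trans (dl_mono hg hp hH h0 hr)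
  have h3 : 0 ≤ Da A ε p b g r := by
    by_contra h
    exact absurd (div_neg_of_neg_of_pos (not_le.1 h) (La_pos hp hr')) (not_lt.2 h2)
  have h4 := hH r hr'
  rw [F1_eq] at h4
  exact nonneg_of_mul_nonneg_right
    (show 0 ≤ (r ^ 2 - sA p (GF p b r)) * ua A p b g r by linarith) (sub_pos.2 (Lf_pos b hp hr').2)

theorem before' (hg : Continuous g) (hp : 0 ≤ p) (hH : ∀ r, p < r → F1 A ε p b g r ≤ 0)
    {r0 : ℝ} (hD : Da A ε p b g r0 ≤ 0) : ∀ r ∈ Ioo p r0, Da A ε p b g r ≤ 0 := by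
  intro r hr
  have h2 := (dl_mono hg hp hH hr.1 hr.2.le).trans
    (div_nonpos_of_nonpos_of_nonneg hD (La_pos (b := b) hp (hr.1.trans hr.2)).le)
  by_contra h
  exact absurd (div_pos (not_le.1 h) (La_pos hp hr.1)) (not_lt.2 h2)

theorem GF_b0 (p r : ℝ) : GF p 0 r 2 = r ^ 3 / 3 - p ^ 3 / 3 := by
  simp only [GF, Gu, mo_ga0]; norm_num

theorem no_b0 (h : Prof B g) (hp : 0 ≤ p) (hA : 0 < A) {r0 : ℝ}
    (hu : ∀ r, r0 ≤ r → 0 ≤ ua A p 0 g r) : False := by
  have h1 : Tendsto (fun r : ℝ => A / 3 * r ^ 3) atTop atTop :=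
    (tendsto_pow_atTop three_ne_zero).const_mul_atTop (by positivity)
  obtain ⟨r, h2, h3, h4⟩ := ((h1.eventually_gt_atTop (tot 2 g + A / 3 * p ^ 3)).and
    ((eventually_ge_atTop r0).and (eventually_ge_atTop 0))).exists
  have h5 := hu r h3
  have h6 := h.mo_le_tot (k := 2) (by norm_num) h4
  have h7 := mo_nonneg 2 h.nonneg hp
  rw [ua, GF_b0] at h5
  linarith

theorem val' (hg : Continuous g) (hp : 0 ≤ p) (hH : ∀ r, p < r → F1 A ε p b g r ≤ 0) {r0 : ℝ}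
    (h0 : p < r0) (hD : Da A ε p b g r0 = 0) (hu : ua A p b g r0 = 0) :
    g r0 = A * ee p b r0 := by
  have hd : HasDerivAt (fun r => 2 * Da A ε p b g r * (GF p b r 4 - p ^ 2 * GF p b r 2)
      - La p b r * ua A p b g r) _ r0 :=
    (((Da_deriv hg r0).const_mul 2).mul (m1_deriv p b r0)).sub
      ((La_deriv p b r0).mul (ua_deriv hg r0))
  have hmax : IsLocalMax (fun r => 2 * Da A ε p b g r * (GF p b r 4 - p ^ 2 * GF p b r 2)
      - La p b r * ua A p b g r) r0 := by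
    filter_upwards [Ioi_mem_nhds h0] with r hr
    have h1 := hH r hr
    rw [F1_eq] at h1
    rw [hD, hu, La_eq hp hr]
    have := mul_nonneg (Lf_pos b hp hr).1.le (neg_nonneg.2 h1)
    linarith
  have h2 := hmax.hasDerivAt_eq_zero hd
  rw [hD, hu] at h2
  have h3 : La p b r0 * ((g r0 - A * ee p b r0) * r0 ^ 2) = 0 := by linarith
  have := hp.trans_lt h0
  exact sub_eq_zero.1 (((mul_eq_zero.1 ((mul_eq_zero.1 h3).resolve_left
    (La_pos hp h0).ne')).resolve_right (by positivity)))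

theorem der' (hg : Continuous g) {r0 c : ℝ} (hd : HasDerivAt g c r0) (h0 : 0 < r0)
    (hu : ua A p b g r0 = 0) (hv : g r0 = A * ee p b r0)
    (hb : ∀ r, r0 ≤ r → 0 ≤ ua A p b g r) : -b * r0 * (A * ee p b r0) ≤ c := by
  have h1 := second_deriv_right (g := ua A p b g) (g1 := fun r => (g r - A * ee p b r) * r ^ 2)
    (x0 := r0) one_pos (fun x _ => ua_deriv hg x) (by simp [hv])
    ((hd.sub ((ee_deriv p b r0).const_mul A)).mul (hasDerivAt_pow 2 r0))
    (fun x hx => by rw [hu]; exact hb x hx.1)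
  simp only [Pi.sub_apply, hv, sub_self, zero_mul, add_zero] at h1
  have := nonneg_of_mul_nonneg_left h1 (pow_pos h0 2)
  linarith

theorem tl' (h : Prof B g) {r0 : ℝ} (hb0 : 0 < b) (h0 : 0 < r0) (hu : ua A p b g r0 = 0)
    (hb : ∀ r, r0 ≤ r → 0 ≤ ua A p b g r) : A * ee p b r0 ≤ b * tl g r0 := by
  have hg := h.cont
  have h1 : mo 1 g r0 - A * GF p b r0 1 ≤ tot 1 g - A * GI p b 1 := by
    refine ge_of_tendsto ((h.mo_tendsto (k := 1) (by norm_num)).sub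
      ((GI_lim p hb0 1).const_mul A)) ?_
    filter_upwards [eventually_ge_atTop r0] with R hR
    have h2 := mono_of (f := fun R => mo 1 g R - A * GF p b R 1 - ua A p b g R / R)
      (f' := fun x => ua A p b g x / x ^ 2) hR (fun x hx =>
        (((mo_deriv 1 hg x).sub ((GF_deriv p b x 1).const_mul A)).sub ((ua_deriv hg x).div
        (hasDerivAt_id x) (h0.trans_le hx.1).ne')).congr_deriv (by
          have := (h0.trans_le hx.1).ne'
          simp only [id]; field_simp; ring))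
      fun x hx => div_nonneg (hb x hx.1.le) (sq_nonneg x)
    have h3 := div_nonneg (hb R hR) (h0.le.trans hR)
    simp only [hu, zero_div, sub_zero] at h2
    linarith
  rw [h.tl_eq h0.le]
  linear_combination b * h1 - A * GI_one p hb0 + A * GF_rec1 p b r0

theorem jin_up (hg : Continuous g) (hp : 0 < p) {r : ℝ} (hr : p ≤ r)
    (hD : ∀ x ∈ Ioo p r, Da A ε p b g x ≤ 0) :
    mo 1 g r - mo 1 g p - A * GF p b r 1 - ua A p b g r / r - Da A ε p b g r / r ^ 3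
      ≤ ε / (2 * p ^ 3) := by
  have h2 := mono_of (f := fun R => -(mo 1 g R - A * GF p b R 1 - ua A p b g R / R
      - Da A ε p b g R / R ^ 3)) (f' := fun x => 3 * -Da A ε p b g x / x ^ 4) hr (fun x hx =>
      ((((mo_deriv 1 hg x).sub ((GF_deriv p b x 1).const_mul A)).sub ((ua_deriv hg x).div
        (hasDerivAt_id x) (hp.trans_le hx.1).ne')).sub ((Da_deriv hg x).div (hasDerivAt_pow 3 x)
        (pow_pos (hp.trans_le hx.1) 3).ne')).neg.congr_deriv (by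
          have := (hp.trans_le hx.1).ne'
          simp only [id]; field_simp; ring))
    fun x hx => div_nonneg (mul_nonneg (by norm_num) (neg_nonneg.2 (hD x hx))) (by positivity)
  have e1 : ua A p b g p = 0 := by simp [ua, GF_self]
  have e2 : Da A ε p b g p / p ^ 3 = -(ε / (2 * p ^ 3)) := by
    simp only [Da, e1, va, GF_self]; field_simp; ring
  simp only [e1, e2, GF_self] at h2
  simp only [zero_div] at h2
  linarith

theorem inf_D (h : Prof B g) (hp : 0 ≤ p) (hb : 0 < b) (hA : 0 ≤ A) (hε : 0 < ε)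
    (hH : ∀ r, p < r → F1 A ε p b g r ≤ 0) (hu : tot 2 g - mo 2 g p - A * GI p b 2 = 0)
    (hv : tot 4 g - mo 4 g p - A * GI p b 4 = -(ε / 2)) : ∀ r, p < r → Da A ε p b g r ≤ 0 := by
  intro r0 h0
  by_contra hc
  have hD := (not_le.1 hc).le
  have hg := h.cont
  have hb' := beyond' hg hp hH h0 hD
  have l4 := GI_lim p hb 4
  have lim := (((l4.const_sub (GI p b 4)).const_mul A).sub ((((h.mo_tendsto le_rfl).sub_const
    (mo 4 g p)).sub (l4.const_mul A)))).sub_const ε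
  rw [hv] at lim
  have : 0 ≤ A * (GI p b 4 - GI p b 4) - -(ε / 2) - ε := by
    refine ge_of_tendsto lim ?_
    filter_upwards [eventually_ge_atTop r0] with r hr
    have r0' := hp.trans (h0.le.trans hr)
    have h1 := mono_of hr (fun x _ => Da_deriv (A := A) (ε := ε) (p := p) (b := b) hg x)
      fun x hx => mul_nonneg (hp.trans (h0.le.trans hx.1.le)) (hb' x hx.1.le)
    have h2 := (Lm_inf hp hb).tr (c := lin p (GF p b r) (p ^ 2 - r ^ 2) 1 0 0 0 0 0)
      ((eventually_ge_atTop r).mono fun R hR => cert0 hR fun s hs => by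
        refine (mul_nonneg (sq_nonneg s) (show 0 ≤ s ^ 2 - r ^ 2 by nlinarith [hs.1])).trans_eq ?_
        rw [pl]; ring)
    have h3 := mul_le_mul_of_nonneg_left (h.mo_le_tot (k := 2) (by norm_num) r0') (sq_nonneg r)
    have h4 := mul_le_mul_of_nonneg_left h2 hA
    simp only [lin] at h4
    have h5 := hD.trans h1
    simp only [Da, ua, va] at h5
    linear_combination 2 * h5 + h3 + h4 + r ^ 2 * hu
  linarith

section
variable {l : Filter ℝ} {G : ℕ → ℝ} {m1 m2 m4 a S : ℝ}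

theorem Lm.jin_lo (h : Lm p b l G) (hg : Prof B g) (ha : 0 < a) (t1 : Tendsto (mo 1 g) l (𝓝 m1))
    (t2 : Tendsto (mo 2 g) l (𝓝 m2)) (t4 : Tendsto (mo 4 g) l (𝓝 m4)) :
    3 * a ^ 2 * (m2 - mo 2 g p) - (m4 - mo 4 g p) ≤ 2 * a ^ 3 * (m1 - mo 1 g p) := by
  have := h.ne
  have c := hg.cont
  have : 2 * a ^ 3 * mo 1 g p - 3 * a ^ 2 * mo 2 g p + mo 4 g p
      ≤ 2 * a ^ 3 * m1 - 3 * a ^ 2 * m2 + m4 :=
    ge_of_tendsto (((t1.const_mul _).sub (t2.const_mul _)).add t4) (h.ge.mono fun r hr =>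
      mono_of (f := fun r => 2 * a ^ 3 * mo 1 g r - 3 * a ^ 2 * mo 2 g r + mo 4 g r) hr
      (fun x _ => (((mo_deriv 1 c x).const_mul _).sub ((mo_deriv 2 c x).const_mul _)).add
        (mo_deriv 4 c x)) fun x hx => by
      have := (h.y0 hx.1).1
      have := hg.nonneg x
      have : 0 ≤ g x * ((a - x) ^ 2 * (x * (2 * a + x))) := by positivity
      exact this.trans_eq (by ring))
  linarith

theorem Lm.B1 (h : Lm p b l G) (hg : Prof B g) (t2 : Tendsto (mo 2 g) l (𝓝 m2))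
    (t4 : Tendsto (mo 4 g) l (𝓝 m4)) : p ^ 2 * (m2 - mo 2 g p) ≤ m4 - mo 4 g p := by
  have := h.ne
  have c := hg.cont
  have : mo 4 g p - p ^ 2 * mo 2 g p ≤ m4 - p ^ 2 * m2 :=
    ge_of_tendsto (t4.sub (t2.const_mul _)) (h.ge.mono fun r hr =>
      mono_of (f := fun r => mo 4 g r - p ^ 2 * mo 2 g r) hr
      (fun x _ => (mo_deriv 4 c x).sub ((mo_deriv 2 c x).const_mul _)) fun x hx =>
      (mul_nonneg (mul_nonneg (hg.nonneg x) (sq_nonneg x)) (h.y0 hx.1).2.le).trans_eq (by ring))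
  linarith

theorem Lm.tub (h : Lm p b l G) (hg : Prof B g) (hS : ∀ s, g s ≤ S) (ha : p < a)
    (hl : ∀ᶠ r in l, a ≤ r) (t2 : Tendsto (mo 2 g) l (𝓝 m2)) (t4 : Tendsto (mo 4 g) l (𝓝 m4)) :
    a ^ 2 * (m2 - mo 2 g p) - (m4 - mo 4 g p) ≤ S * bath p a := by
  have := h.ne
  have c := hg.cont
  have h1 : mo 4 g a - a ^ 2 * mo 2 g a ≤ m4 - a ^ 2 * m2 :=
    ge_of_tendsto (t4.sub (t2.const_mul _)) (hl.mono fun r hr =>
      mono_of (f := fun r => mo 4 g r - a ^ 2 * mo 2 g r) hr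
      (fun x _ => (mo_deriv 4 c x).sub ((mo_deriv 2 c x).const_mul _)) fun x hx =>
      (mul_nonneg (mul_nonneg (hg.nonneg x) (sq_nonneg x))
        (show 0 ≤ x ^ 2 - a ^ 2 by nlinarith [hx.1, h.p0])).trans_eq (by ring))
  have h2 := mono_of (f := fun R => S * (a ^ 2 * R ^ 3 / 3 - R ^ 5 / 5)
      - (a ^ 2 * mo 2 g R - mo 4 g R)) ha.le (fun x _ => (((((hasDerivAt_pow 3 x).const_mul
      _).div_const 3).sub ((hasDerivAt_pow 5 x).div_const 5)).const_mul S).sub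
      (((mo_deriv 2 c x).const_mul _).sub (mo_deriv 4 c x))) fun x hx =>
    (mul_nonneg (sub_nonneg.2 (hS x)) (mul_nonneg (sq_nonneg x)
      (show 0 ≤ a ^ 2 - x ^ 2 by nlinarith [hx.1, hx.2, h.p0]))).trans_eq (by simp; ring)
  unfold bath
  linarith

/-- the initial inequality -/
theorem Lm.init (h : Lm p b l G) (hg : Prof B g) (hS : ∀ s, g s ≤ S)
    (t2 : Tendsto (mo 2 g) l (𝓝 m2)) (t4 : Tendsto (mo 4 g) l (𝓝 m4)) :
    Fa (√(250 / (9 * π)) * S) ε p g G m2 m4 ≤ -ε := by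
  obtain ⟨a, h1, h2, h3⟩ := h.sq
  have e1 := h.tub hg hS h1 h3 t2 t4
  have e2 := mul_le_mul_of_nonneg_left (h.K_ge h1 h2) ((hg.nonneg 0).trans (hS 0))
  rw [Fa, h2]
  linarith

/-- the cheap exclusions -/
theorem Lm.far (h : Lm p b l G) (hg : Prof B g) (hS : 0 < S) (hε : 0 < ε) {m : ℝ}
    (t2 : Tendsto (mo 2 g) l (𝓝 m2)) (t4 : Tendsto (mo 4 g) l (𝓝 m4)) (hm : m2 ≤ m)
    (hc : (sA p G - p ^ 2) * m < ε ∨ (2 * m ^ 2 / (S * ε)) ^ 2 < sA p G) :
    Fa (√(250 / (9 * π)) * S) ε p g G m2 m4 < 0 := by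
  obtain ⟨a, h1, h2, h3⟩ := h.sq
  have e1 := h.B1 hg t2 t4
  have e2 := mul_le_mul_of_nonneg_left ((Lm.bath_ge h.p0 h1).trans (h.K_ge h1 h2)) hS.le
  have τ0 := sub_pos.2 h.tau
  have e3 := mul_le_mul_of_nonneg_left
    (show m2 - mo 2 g p ≤ m by linarith [mo_nonneg 2 hg.nonneg h.p0]) τ0.le
  have a0 := h.p0.trans_lt h1
  rw [Fa]
  rw [h2] at hc τ0 e3 ⊢
  suffices (a ^ 2 - p ^ 2) * m < ε + S * (2 / 15 * a * (a ^ 2 - p ^ 2) ^ 2) by linarith
  rcases hc with hc | hc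
  · exact hc.trans_le (le_add_of_nonneg_right (by positivity))
  · have e4 := (div_lt_iff₀ (by positivity)).1 (lt_of_pow_lt_pow_left₀ 2 a0.le hc)
    refine lt_of_mul_lt_mul_left ?_ (mul_pos hS a0).le
    nlinarith [sq_nonneg (S * a * (a ^ 2 - p ^ 2) - 15 / 4 * m), sq_nonneg m]

end

end Pool.Agent.Lib.LandauRad
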