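import Pool.Agent.Lib.MP_33b301_mp.AnQ

/-! The invariant family of inequalities on annuli and the sharp bound for radial solutions. -/

open Set Filter Topology MeasureTheory Function Real

namespace Pool.Agent.Lib.LandauRad

theorem touch2 {X Y : Type} [TopologicalSpace X] [TopologicalSpace Y] {K : Set X} {L : Set Y}
    (hK : IsCompact K) (hL : IsCompact L) (nK : K.Nonempty) (nL : L.Nonempty) {F : ℝ → X → ℝ}
    {G : ℝ → Y → ℝ} {T : ℝ} (hF : ContinuousOn (uncurry F) (Icc 0 T ×ˢ K))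
    (hG : ContinuousOn (uncurry G) (Icc 0 T ×ˢ L)) (F0 : ∀ x ∈ K, F 0 x < 0)
    (G0 : ∀ y ∈ L, G 0 y < 0)
    (sF : ∀ t ∈ Ioc 0 T, (∀ x ∈ K, F t x ≤ 0) → (∀ y ∈ L, G t y ≤ 0) → ∀ x ∈ K, F t x = 0 →
      (∀ s ∈ Ico 0 t, F s x < 0) → False)
    (sG : ∀ t ∈ Ioc 0 T, (∀ x ∈ K, F t x ≤ 0) → (∀ y ∈ L, G t y ≤ 0) → ∀ y ∈ L, G t y = 0 →
      (∀ s ∈ Ico 0 t, G s y < 0) → False) :
    ∀ t ∈ Icc 0 T, (∀ x ∈ K, F t x ≤ 0) ∧ ∀ y ∈ L, G t y ≤ 0 := by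
  have := touch (S := K ×ˢ L) (hK.prod hL) subset_rfl (F := fun t z => max (F t z.1) (G t z.2))
    (T := T) ((hF.comp (f := fun z : ℝ × X × Y => (z.1, z.2.1)) (by fun_prop)
      fun z hz => ⟨hz.1, hz.2.1⟩).sup (hG.comp (f := fun z : ℝ × X × Y => (z.1, z.2.2))
      (by fun_prop) fun z hz => ⟨hz.1, hz.2.2⟩))
    (fun z hz => max_lt (F0 _ hz.1) (G0 _ hz.2)) (fun _ _ _ h h' => (h' h).elim)
    fun t ht z hz h0 hle hlt => by
      have a1 : ∀ x ∈ K, F t x ≤ 0 := fun x hx => (le_max_left _ _).trans (hle (x, z.2) ⟨hx, hz.2⟩)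
      have a2 : ∀ y ∈ L, G t y ≤ 0 := fun y hy => (le_max_right _ _).trans (hle (z.1, y) ⟨hz.1, hy⟩)
      rcases max_choice (F t z.1) (G t z.2) with h | h
      · exact sF t ht a1 a2 _ hz.1 (h ▸ h0) fun s hs => (le_max_left _ _).trans_lt (hlt s hs)
      · exact sG t ht a1 a2 _ hz.2 (h ▸ h0) fun s hs => (le_max_right _ _).trans_lt (hlt s hs)
  obtain ⟨x0, hx0⟩ := nK
  obtain ⟨y0, hy0⟩ := nL
  exact fun t ht => ⟨fun x hx => (le_max_left _ _).trans (this t ht (x, y0) ⟨hx, hy0⟩).le,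
    fun y hy => (le_max_right _ _).trans (this t ht (x0, y) ⟨hx0, hy⟩).le⟩

theorem GF_cont (k : ℕ) : Continuous fun z : ℝ × ℝ × ℝ => GF z.1 z.2.1 z.2.2 k := by
  have a1 := (mo_cont2 k ga_cont2).comp (f := fun z : ℝ × ℝ × ℝ => (z.2.1, z.2.2)) (by fun_prop)
  have a2 := (mo_cont2 k ga_cont2).comp (f := fun z : ℝ × ℝ × ℝ => (z.2.1, z.1)) (by fun_prop)
  exact Continuous.mul (by fun_prop) (a1.sub a2)

theorem GI_cont (k : ℕ) : ContinuousOn (fun z : ℝ × ℝ => GI z.1 z.2 k) {z | 0 < z.2} := by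
  have a1 : ContinuousOn (fun z : ℝ × ℝ => cc k z.2) {z | 0 < z.2} := fun z hz =>
    ((cc_deriv hz k).continuousAt.comp continuousAt_snd).continuousWithinAt
  have a2 := (mo_cont2 k ga_cont2).comp (f := fun z : ℝ × ℝ => (z.2, z.1)) (by fun_prop)
  exact ContinuousOn.mul (by fun_prop) (a1.sub a2.continuousOn)

theorem sA_cont {X : Type} [TopologicalSpace X] {s : Set X} {p : X → ℝ} {G : X → ℕ → ℝ}
    (hp : ContinuousOn p s) (hG : ∀ k, ContinuousOn (fun x => G x k) s)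
    (h : ∀ x ∈ s, 0 < G x 4 - p x ^ 2 * G x 2) : ContinuousOn (fun x => sA (p x) (G x)) s :=
  ((hG 6).sub ((hp.pow 2).mul (hG 4))).div ((hG 4).sub ((hp.pow 2).mul (hG 2)))
    fun x hx => (h x hx).ne'

theorem two_inf {p b : ℝ} (hp : 0 ≤ p) (hb : 0 < b) : 2 ≤ b * (sA p (GI p b) - p ^ 2) :=
  (Lm_inf hp hb).two.resolve_right fun h => by
    obtain ⟨r, h1, h2⟩ := (h.and ((tendsto_pow_atTop two_ne_zero).eventually_gt_atTop _)).exists
    exact absurd h1 (not_le.2 h2)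

theorem surj {p τ : ℝ} (hp : 0 ≤ p) (hτ : 0 < τ) : ∃ b, 0 < b ∧ sA p (GI p b) = τ + p ^ 2 := by
  have h2 : 0 < 2 / τ := by positivity
  have h5 : 0 < 5 / τ := by positivity
  obtain ⟨b, hb, e⟩ := intermediate_value_Icc' (f := fun b => sA p (GI p b))
    (show 2 / τ ≤ 5 / τ by gcongr; norm_num) (sA_cont continuousOn_const (fun k =>
      (GI_cont k).comp (f := fun b : ℝ => (p, b)) (by fun_prop) fun b hb => h2.trans_le hb.1)
      fun b hb => (Lm_inf hp (h2.trans_le hb.1)).m1) (show τ + p ^ 2 ∈ _ from ⟨by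
      have := (Lm_inf hp h5).bt
      rw [div_mul_eq_mul_div, div_le_iff₀ hτ] at this
      linarith, by
      have := two_inf hp h2
      rw [div_mul_eq_mul_div, le_div_iff₀ hτ] at this
      linarith⟩)
  exact ⟨b, h2.trans_le hb.1, e⟩

/-- extension from the compact parameter sets -/
theorem ext {B S ε0 ε R1 R2 b1 δ : ℝ} {g : ℝ → ℝ} (hg : Prof B g) (hS : 0 < S) (h0 : 0 < ε0)
    (hε : ε0 ≤ ε) (hR1 : R1 = 4 * tot 2 g ^ 2 / (S * ε0) + 1) (hb1 : b1 = 10 * tot 2 g / ε0 + 2)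
    (δ1 : δ ≤ 1) (hδ : δ * ((2 * R1 + 1) * (tot 2 g + 1)) ≤ ε0) (R0 : 0 < R2)
    (hR : ∀ r, R2 ≤ r → tot 4 g - mo 4 g r < ε0 / 2)
    (k1 : ∀ x ∈ Icc 0 R1 ×ˢ Icc δ R2 ×ˢ Icc 0 b1,
      F1 (√(250 / (9 * π)) * S) ε x.1 x.2.2 g (x.1 + x.2.1) ≤ 0)
    (k2 : ∀ x ∈ Icc 0 R1 ×ˢ Icc (2 / R1 ^ 2) b1, F2 (√(250 / (9 * π)) * S) (ε / 2) x.1 x.2 g ≤ 0) :
    (∀ p b q, 0 ≤ p → 0 ≤ b → p < q → F1 (√(250 / (9 * π)) * S) ε p b g q ≤ 0) ∧
      ∀ p b, 0 ≤ p → 0 < b → F2 (√(250 / (9 * π)) * S) (ε / 2) p b g ≤ 0 := by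
  have m0 : 0 ≤ tot 2 g := (mo_nonneg 2 hg.nonneg le_rfl).trans (hg.mo_le_tot (by norm_num) le_rfl)
  have R1p : 1 ≤ R1 := by rw [hR1]; exact le_add_of_nonneg_left (by positivity)
  have c1 : ∀ ε' σ, ε0 / 2 ≤ ε' → R1 ^ 2 < σ → (2 * tot 2 g ^ 2 / (S * ε')) ^ 2 < σ := by
    intro ε' σ h1 h2
    have : 0 < ε' := by linarith
    refine lt_of_le_of_lt (pow_le_pow_left₀ (by positivity) ?_ 2) h2
    have : 2 * tot 2 g ^ 2 / (S * ε') ≤ 2 * tot 2 g ^ 2 / (S * (ε0 / 2)) := by gcongr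
    have e : 2 * tot 2 g ^ 2 / (S * (ε0 / 2)) = 4 * tot 2 g ^ 2 / (S * ε0) := by field_simp; ring
    linarith
  have c2 : ∀ b τ, b1 < b → b * τ ≤ 5 → τ * tot 2 g < ε0 / 2 := by
    intro b τ h1 h2
    have h3 : 10 * tot 2 g < b * ε0 := (div_lt_iff₀ h0).1 (by linarith)
    have h4 : 0 < b := lt_of_lt_of_le (by rw [hb1]; positivity) h1.le
    refine lt_of_mul_lt_mul_left ?_ h4.le
    linarith [mul_le_mul_of_nonneg_right h2 m0]
  have t2 := hg.mo_tendsto (k := 2) (by norm_num)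
  have e2 : ∀ p b, 0 ≤ p → 0 < b → F2 (√(250 / (9 * π)) * S) (ε / 2) p b g ≤ 0 := by
    intro p b hp hb
    have h := Lm_inf hp hb
    have far := fun c => (h.far hg hS (show 0 < ε / 2 by linarith) t2 (hg.mo_tendsto le_rfl)
      le_rfl c).le
    by_cases a1 : R1 < p
    · exact far (.inr (c1 _ _ (by linarith) ((pow_lt_pow_left₀ a1 (by linarith) two_ne_zero).trans
        h.tau)))
    by_cases a2 : b1 < b
    · exact far (.inl ((c2 b _ a2 h.bt).trans_le (by linarith)))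
    by_cases a3 : b < 2 / R1 ^ 2
    · refine far (.inr (c1 _ _ (by linarith) (lt_of_mul_lt_mul_left ?_ hb.le)))
      rw [lt_div_iff₀ (by positivity)] at a3
      linarith [two_inf hp hb, mul_nonneg hb.le (sq_nonneg p)]
    exact k2 (p, b) ⟨⟨hp, not_lt.1 a1⟩, not_lt.1 a3, not_lt.1 a2⟩
  refine ⟨fun p b q hp hb hq => ?_, e2⟩
  have h := Lm_fin hp hb hq
  have q0 := hp.trans hq.le
  have m1 := hg.mo_le_tot (k := 2) (by norm_num) q0
  have far := fun c => (h.far hg hS (h0.trans_le hε) (tendsto_pure_nhds _ q)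
    (tendsto_pure_nhds _ q) m1 c).le
  by_cases a1 : R1 < p
  · exact far (.inr (c1 _ _ (by linarith) ((pow_lt_pow_left₀ a1 (by linarith) two_ne_zero).trans
      h.tau)))
  by_cases a2 : b1 < b
  · exact far (.inl ((c2 b _ a2 h.bt).trans_le (by linarith)))
  have s1 := (Lf_pos b hp hq).2
  by_cases a3 : q - p < δ
  · refine far (.inl ?_)
    have e1 : sA p (GF p b q) - p ^ 2 ≤ (q - p) * (2 * R1 + 1) := by
      nlinarith [mul_le_mul_of_nonneg_left (show q + p ≤ 2 * R1 + 1 by linarith) (sub_pos.2 hq).le]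
    have e3 := mul_lt_mul_of_pos_right a3 (show 0 < (2 * R1 + 1) * (tot 2 g + 1) by positivity)
    have e4 : 0 ≤ (q - p) * (2 * R1 + 1) := mul_nonneg (sub_pos.2 hq).le (by positivity)
    linarith [mul_le_mul_of_nonneg_right e1 m0]
  by_cases a4 : R2 < q - p
  · obtain ⟨β, β0, e⟩ := surj hp (sub_pos.2 h.tau)
    rw [sub_add_cancel] at e
    have e1 := e2 p β hp β0
    have e3 := smax0 b β hp h.tau hq.le
    have e4 : lin p (GF p b q) 0 (sA p (GF p b q) - p ^ 2) (-1) 0 0 0 0 = 0 := by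
      rw [lin]; linear_combination h.con
    rw [e4, mul_zero] at e3
    have e5 := nonneg_of_mul_nonneg_right e3 (sub_pos.2 h.tau)
    have e6 := (Lm_inf hp β0).tr (c := lin p (GF p β q) (p ^ 2 - sA p (GF p b q)) 1 0 0 0 0 0)
      ((eventually_ge_atTop q).mono fun R hR => cert0 hR fun s hs => by
        refine (mul_nonneg (sq_nonneg s) (show 0 ≤ s ^ 2 - sA p (GF p b q) by
          nlinarith [hs.1])).trans_eq ?_
        rw [pl]; ring)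
    have A0 : 0 ≤ √(250 / (9 * π)) * S := by positivity
    have e7 := mul_le_mul_of_nonneg_left m1 ((sq_nonneg p).trans h.tau.le)
    have e8 := hR q (by linarith)
    simp only [lin] at e6
    simp only [F1, F2, Fa, e] at e1 ⊢
    linear_combination e1 + √(250 / (9 * π)) * S * (e5 + e6) + e7 + e8.le + 1 / 2 * hε
  have := k1 (p, q - p, b) ⟨⟨hp, not_lt.1 a1⟩, ⟨not_lt.1 a3, not_lt.1 a4⟩, hb, not_lt.1 a2⟩
  rwa [add_sub_cancel] at this

theorem pt_le {A B p : ℝ} {g : ℝ → ℝ} (h : Prof B g) (hA : 0 < A) (hp : 0 ≤ p)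
    (hH : ∀ r, p < r → F1 A 0 p 0 g r ≤ 0) : g p ≤ A := by
  by_contra hc
  have hg := h.cont
  obtain ⟨δ, hδ, hδ'⟩ := Metric.eventually_nhds_iff.1
    (hg.continuousAt.eventually (lt_mem_nhds (not_le.1 hc)))
  have hu : ∀ r ∈ Ioo p (p + δ / 2), 0 ≤ ua A p 0 g r := fun r hr => by
    refine le_trans (by simp [ua, GF_self]) (mono_of hr.1.le (fun x _ => ua_deriv hg x)
      fun x hx => mul_nonneg (sub_nonneg.2 ?_) (sq_nonneg x))
    rw [ee_eq]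
    simpa using (hδ' (by
      rw [Real.dist_eq, abs_of_pos (sub_pos.2 hx.1)]; linarith [hx.2, hr.2])).le
  refine no_b0 h hp hA (beyond' hg hp hH (show p < p + δ / 2 by linarith) ?_)
  exact le_trans (by simp [Da, ua, va, GF_self]) (mono_of (by linarith)
    (fun x _ => Da_deriv hg x) fun x hx => mul_nonneg (hp.trans hx.1.le) (hu x hx))

namespace Rad

variable {T B : ℝ} {φ φt φ1 φ2 : ℝ → ℝ → ℝ}

theorem ann (h : Rad T B φ φt φ1 φ2) {S ε T' : ℝ} (hS : 0 < S) (hε : 0 < ε) (hT : T' < T)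
    (hS0 : ∀ r, φ 0 r ≤ S) (hM : ∀ t ∈ Icc 0 T', ∀ p, 0 < p →
      mo 2 (φ t) p ≤ 201 / 200 * (√(250 / (9 * π)) * S) * p ^ 3 / 3) :
    ∀ t ∈ Icc 0 T', ∀ p q, 0 ≤ p → p < q → F1 (√(250 / (9 * π)) * S)
      (ε * exp (3 * (√(250 / (9 * π)) * S) * t)) p 0 (φ t) q ≤ 0 := by
  obtain ⟨A, hA⟩ : ∃ A, A = √(250 / (9 * π)) * S := ⟨_, rfl⟩
  have A0 : 0 < A := by rw [hA]; positivity
  have hp0 := h.prof 0
  obtain ⟨m, hm⟩ : ∃ m, m = tot 2 (φ 0) := ⟨_, rfl⟩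
  have m0 : 0 ≤ m :=
    hm ▸ (mo_nonneg 2 hp0.nonneg le_rfl).trans (hp0.mo_le_tot (by norm_num) le_rfl)
  obtain ⟨R, hR, hR'⟩ := h.tail_unif (half_pos hε)
  obtain ⟨R1, hR1⟩ : ∃ R1, R1 = 4 * m ^ 2 / (S * ε) + 1 := ⟨_, rfl⟩
  obtain ⟨b1, hb1⟩ : ∃ b1, b1 = 10 * m / ε + 2 := ⟨_, rfl⟩
  have R1p : 1 ≤ R1 := by rw [hR1]; exact le_add_of_nonneg_left (by positivity)
  have b1p : 2 ≤ b1 := by rw [hb1]; exact le_add_of_nonneg_left (by positivity)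
  have b0p : 0 < 2 / R1 ^ 2 := by positivity
  obtain ⟨δ, δ0, δ1, δ2⟩ : ∃ δ, 0 < δ ∧ δ ≤ 1 ∧ δ * ((2 * R1 + 1) * (m + 1)) ≤ ε :=
    ⟨min 1 (ε / ((2 * R1 + 1) * (m + 1))), lt_min one_pos (by positivity), min_le_left _ _,
      (le_div_iff₀ (by positivity)).1 (min_le_right _ _)⟩
  have sub : ∀ t ∈ Icc 0 T', t ∈ Icc 0 T := fun t ht => ⟨ht.1, ht.2.trans hT.le⟩
  have ε1 : ∀ t, 0 ≤ t → ε ≤ ε * exp (3 * A * t) := fun t ht =>
    le_mul_of_one_le_right hε.le (one_le_exp (by positivity))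
  have eq2 : ∀ t ∈ Icc 0 T', ∀ e p b, Fa A e p (φ t) (GI p b) m (tot 4 (φ 0)) = F2 A e p b (φ t) :=
    fun t ht e p b => by rw [F2, h.cons2 t (sub t ht), h.cons4 t (sub t ht), hm]
  have EXT := fun t (ht : t ∈ Icc 0 T') k1 k2 => ext (ε := ε * exp (3 * A * t)) (R1 := R1)
    (R2 := max R δ) (b1 := b1) (δ := δ) (h.prof t) hS hε (ε1 t ht.1)
    (by rw [h.cons2 t (sub t ht), ← hm, hR1]) (by rw [h.cons2 t (sub t ht), ← hm, hb1]) δ1
    (by rw [h.cons2 t (sub t ht), ← hm]; exact δ2) (lt_max_of_lt_left hR)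
    (fun r hr => by
      rw [h.cons4 t (sub t ht)]; exact hR' t (sub t ht) r ((le_max_left _ _).trans hr)) k1 k2
  rw [← hA] at EXT hM ⊢
  have cm : ∀ k, Continuous fun z : ℝ × ℝ => mo k (φ z.1) z.2 := fun k => mo_cont2 k h.cont
  have de : ∀ t, HasDerivAt (fun t => ε * exp (3 * A * t)) (ε * (exp (3 * A * t) * (3 * A * 1))) t :=
    fun t => (((hasDerivAt_id' t).const_mul (3 * A)).exp).const_mul ε
  have main := touch2 (K := Icc 0 R1 ×ˢ Icc δ (max R δ) ×ˢ Icc 0 b1)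
    (L := Icc 0 R1 ×ˢ Icc (2 / R1 ^ 2) b1) (T := T')
    (F := fun t x => F1 A (ε * exp (3 * A * t)) x.1 x.2.2 (φ t) (x.1 + x.2.1))
    (G := fun t x => Fa A (ε * exp (3 * A * t) / 2) x.1 (φ t) (GI x.1 x.2) m (tot 4 (φ 0)))
    (isCompact_Icc.prod (isCompact_Icc.prod isCompact_Icc)) (isCompact_Icc.prod isCompact_Icc)
    ⟨(0, δ, 0), ⟨le_rfl, by linarith⟩, ⟨le_rfl, le_max_right _ _⟩, le_rfl, by linarith⟩
    ⟨(0, b1), ⟨le_rfl, by linarith⟩, ((div_le_self zero_le_two (one_le_pow₀ R1p)).trans b1p),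
      le_rfl⟩ ?_ ?_ ?_ ?_ ?_ ?_
  · intro t ht p q hp hq
    exact (EXT t ht (main t ht).1 fun x hx => eq2 t ht _ _ _ ▸ (main t ht).2 x hx).1 p 0 q hp
      le_rfl hq
  · have c1 := fun k => ((GF_cont k).comp (f := fun z : ℝ × ℝ × ℝ × ℝ =>
      (z.2.1, z.2.2.2, z.2.1 + z.2.2.1)) (by fun_prop)).continuousOn
      (s := Icc 0 T' ×ˢ Icc 0 R1 ×ˢ Icc δ (max R δ) ×ˢ Icc 0 b1)
    have c2 := fun k => ((cm k).comp (f := fun z : ℝ × ℝ × ℝ × ℝ => (z.1, z.2.1 + z.2.2.1))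
      (by fun_prop)).continuousOn (s := Icc 0 T' ×ˢ Icc 0 R1 ×ˢ Icc δ (max R δ) ×ˢ Icc 0 b1)
    have c3 := fun k => ((cm k).comp (f := fun z : ℝ × ℝ × ℝ × ℝ => (z.1, z.2.1))
      (by fun_prop)).continuousOn (s := Icc 0 T' ×ˢ Icc 0 R1 ×ˢ Icc δ (max R δ) ×ˢ Icc 0 b1)
    exact (((sA_cont (by fun_prop) c1 fun z hz => (Lf_pos _ hz.2.1.1 (lt_add_of_pos_right _
      (δ0.trans_le hz.2.2.1.1))).1).mul (((c2 2).sub (c3 2)).sub (continuousOn_const.mul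
      (c1 2)))).sub (((c2 4).sub (c3 4)).sub (continuousOn_const.mul (c1 4)))).sub (by fun_prop)
  · have c1 := fun k => (GI_cont k).comp (f := fun z : ℝ × ℝ × ℝ => z.2)
      (s := Icc 0 T' ×ˢ Icc 0 R1 ×ˢ Icc (2 / R1 ^ 2) b1) (by fun_prop)
      fun z hz => b0p.trans_le hz.2.2.1
    have c3 := fun k => ((cm k).comp (f := fun z : ℝ × ℝ × ℝ => (z.1, z.2.1))
      (by fun_prop)).continuousOn (s := Icc 0 T' ×ˢ Icc 0 R1 ×ˢ Icc (2 / R1 ^ 2) b1)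
    exact (((sA_cont (by fun_prop) c1 fun z hz => (Lm_inf hz.2.1.1
      (b0p.trans_le hz.2.2.1)).m1).mul ((continuousOn_const.sub (c3 2)).sub (continuousOn_const.mul
      (c1 2)))).sub ((continuousOn_const.sub (c3 4)).sub (continuousOn_const.mul (c1 4)))).sub
      (by fun_prop)
  · rintro ⟨p, x, b⟩ ⟨h1, h2, h3⟩
    refine (hA ▸ (Lm_fin h1.1 h3.1 (lt_add_of_pos_right _ (δ0.trans_le h2.1))).init hp0 hS0
      (tendsto_pure_nhds _ _) (tendsto_pure_nhds _ _)).trans_lt (neg_lt_zero.2 (by positivity))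
  · rintro ⟨p, b⟩ ⟨h1, h2⟩
    refine (hA ▸ hm ▸ (Lm_inf h1.1 (b0p.trans_le h2.1)).init hp0 hS0
      (hp0.mo_tendsto (by norm_num)) (hp0.mo_tendsto le_rfl)).trans_lt
      (neg_lt_zero.2 (by positivity))
  · rintro t ht k1 k2 ⟨p, x, b⟩ ⟨h1, h2, h3⟩ h0 hlt
    have tI : t ∈ Icc 0 T' := ⟨ht.1.le, ht.2⟩
    have tO : t ∈ Ioo 0 T := ⟨ht.1, ht.2.trans_lt hT⟩
    have e0 := hε.trans_le (ε1 t tI.1)
    have hq : p < p + x := lt_add_of_pos_right _ (δ0.trans_le h2.1)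
    rcases h1.1.eq_or_lt with hp | hp
    · have hp' : p = 0 := hp.symm
      subst hp'
      have := h.inv_lt hS e0 hT hS0 t tI (b, 0 + x) ⟨h3.1, hq⟩
      simp only [F1, Fa, sA, GF_zero, mo_zero, Hf, sg, ← hA] at h0 this
      norm_num at h0 this
      linarith
    have e1 := stepF hp h3.1 A0 e0.le (h.prof t) (h.d1 t) (h.d2 t) (h.ct t) (h.eqn t tO) hq h0
      (EXT t tI k1 fun x hx => eq2 t tI _ _ _ ▸ k2 x hx).1 (hM t tI p hp)
    have e2 := deriv_nonneg_of_left ((((((h.mo_dt 2 tO (p + x)).fun_sub (h.mo_dt 2 tO p)).sub_const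
      _).const_mul _).fun_sub (((h.mo_dt 4 tO (p + x)).fun_sub (h.mo_dt 4 tO p)).sub_const
      _)).fun_sub (de t)) ht.1 h0 hlt
    linarith [mul_pos A0 e0]
  · rintro t ht k1 k2 ⟨p, b⟩ ⟨h1, h2⟩ h0 hlt
    have tI : t ∈ Icc 0 T' := ⟨ht.1.le, ht.2⟩
    have tO : t ∈ Ioo 0 T := ⟨ht.1, ht.2.trans_lt hT⟩
    have e0 := hε.trans_le (ε1 t tI.1)
    have hb : 0 < b := b0p.trans_le h2.1
    rcases h1.1.eq_or_lt with hp | hp
    · have hp' : p = 0 := hp.symm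
      subst hp'
      have := (Lm_inf le_rfl hb).init (ε := 0) hp0 hS0 (hp0.mo_tendsto (by norm_num))
        (hp0.mo_tendsto le_rfl)
      simp only [Fa, mo_zero, ← hA, ← hm] at h0 this
      linarith
    obtain ⟨x1, x2⟩ := EXT t tI k1 fun x hx => eq2 t tI _ _ _ ▸ k2 x hx
    have e1 := stepI hp hb A0 e0 (h.prof t) (h.d1 t) (h.d2 t) (h.ct t) (h.eqn t tO)
      (eq2 t tI _ _ _ ▸ h0) (fun q => x1 p b q hp.le hb.le) x2 (hM t tI p hp)
    have e2 := deriv_nonneg_of_left ((((((h.mo_dt 2 tO p).const_sub m).sub_const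
      _).const_mul _).fun_sub (((h.mo_dt 4 tO p).const_sub _).sub_const
      _)).fun_sub ((de t).div_const 2)) ht.1 h0 hlt
    linarith [mul_pos A0 e0]

theorem ann_pt (h : Rad T B φ φt φ1 φ2) {S T' : ℝ} (hS : 0 < S) (hT : T' < T)
    (hS0 : ∀ r, φ 0 r ≤ S) (hM : ∀ t ∈ Icc 0 T', ∀ p, 0 < p →
      mo 2 (φ t) p ≤ 201 / 200 * (√(250 / (9 * π)) * S) * p ^ 3 / 3) :
    ∀ t ∈ Icc 0 T', ∀ p, 0 ≤ p → φ t p ≤ √(250 / (9 * π)) * S := fun t ht p hp =>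
  pt_le (h.prof t) (by positivity) hp fun q hq => le_of_forall_pos_le_add fun ε hε => by
    have := h.ann hS (div_pos hε (exp_pos (3 * (√(250 / (9 * π)) * S) * t))) hT hS0 hM t ht p q hp hq
    rw [div_mul_cancel₀ _ (exp_pos _).ne'] at this
    simp only [F1, Fa] at this ⊢
    linarith

theorem sharp0 (h : Rad T B φ φt φ1 φ2) {S T' : ℝ} (hS : 0 < S) (hT : T' < T)
    (hS0 : ∀ r, φ 0 r ≤ S) : ∀ t ∈ Icc 0 T', ∀ p, 0 ≤ p → φ t p ≤ √(250 / (9 * π)) * S := by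
  obtain ⟨A, hA⟩ : ∃ A, A = √(250 / (9 * π)) * S := ⟨_, rfl⟩
  have A1 : S < A := by rw [hA]; exact lt_mul_of_one_lt_left hS C3_bd.1
  have A0 := hS.trans A1
  obtain ⟨R, R1, R2⟩ : ∃ R, 1 ≤ R ∧ tot 2 (φ 0) ≤ A / 3 * R :=
    ⟨max 1 (tot 2 (φ 0) / (A / 3)), le_max_left _ _,
      (div_le_iff₀' (by positivity)).1 (le_max_right _ _)⟩
  have red : ∀ t0, t0 < T → (∀ t ∈ Icc 0 t0, ∀ x ∈ Icc 0 R, φ t x ≤ 201 / 200 * A) →
      ∀ t ∈ Icc 0 t0, ∀ p, 0 ≤ p → φ t p ≤ A := fun t0 h0 e => by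
    rw [hA]
    refine h.ann_pt hS h0 hS0 fun t ht p hp => ?_
    rw [← hA]
    rcases le_total p R with c | c
    · have := mo_mono 2 (h.prof t).cont continuous_const hp.le
        fun s hs => e t ht s ⟨hs.1, hs.2.trans c⟩
      rw [mo_const] at this
      norm_num at this ⊢
      exact this
    · have e1 := ((h.prof t).mo_le_tot (k := 2) (by norm_num) hp.le).trans
        (h.cons2 t ⟨ht.1, ht.2.trans h0.le⟩).le
      have e2 : R ≤ p ^ 3 := c.trans (le_self_pow₀ (R1.trans c) three_ne_zero)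
      have e3 := mul_le_mul_of_nonneg_left e2 A0.le
      have e4 : 0 ≤ A * p ^ 3 := by positivity
      linarith
  rw [← hA]
  refine red T' hT fun t ht x hx => ?_
  by_contra hc
  have hC : IsCompact ((Icc 0 T' ×ˢ Icc 0 R) ∩ uncurry φ ⁻¹' Ici (201 / 200 * A)) :=
    (isCompact_Icc.prod isCompact_Icc).inter_right (isClosed_Ici.preimage h.cont)
  obtain ⟨⟨s, y⟩, ⟨⟨hs, hy⟩, hz⟩, hm⟩ := hC.exists_isMinOn
    ⟨(t, x), ⟨ht, hx⟩, (not_le.1 hc).le⟩ continuous_fst.continuousOn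
  have hz' : 201 / 200 * A ≤ φ s y := hz
  have lt : ∀ u ∈ Ico 0 s, ∀ x ∈ Icc 0 R, φ u x ≤ 201 / 200 * A := fun u hu x hx => by
    by_contra hn
    exact absurd (hm (a := (u, x)) ⟨⟨⟨hu.1, hu.2.le.trans hs.2⟩, hx⟩, (not_le.1 hn).le⟩)
      (not_le.2 hu.2)
  rcases hs.1.eq_or_lt with e | e
  · have e' : s = 0 := e.symm
    subst e'
    linarith [hS0 y]
  have : φ s y ≤ A := by
    have hs' : s ∈ closure (Ico 0 s) := by rw [closure_Ico e.ne]; exact ⟨e.le, le_rfl⟩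
    exact closure_minimal (fun u hu => red u (hu.2.trans (hs.2.trans_lt hT))
      (fun v hv => lt v ⟨hv.1, hv.2.trans_lt hu.2⟩) u ⟨hu.1, le_rfl⟩ y hy.1) (isClosed_le
      (h.cont.comp (f := fun t : ℝ => (t, y)) (by fun_prop)) continuous_const) hs'
  linarith

theorem sharp (h : Rad T B φ φt φ1 φ2) (hT : 0 < T) {S : ℝ} (hS0 : ∀ r, φ 0 r ≤ S) {p : ℝ}
    (hp : 0 ≤ p) : ∀ t ∈ Icc 0 T, φ t p ≤ √(250 / (9 * π)) * S := by
  refine h.of_lt hT fun t ht => ?_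
  have hC : 0 < √(250 / (9 * π)) := by positivity
  have hS : 0 ≤ S := ((h.prof 0).nonneg 0).trans (hS0 0)
  refine le_of_forall_pos_le_add fun η hη => ?_
  have h1 := h.sharp0 (S := S + η / √(250 / (9 * π))) (by positivity) ht.2
    (fun r => (hS0 r).trans (le_add_of_nonneg_right (by positivity))) t ⟨ht.1, le_rfl⟩ p hp
  rwa [mul_add, mul_div_cancel₀ _ hC.ne'] at h1

end Rad

end Pool.Agent.Lib.LandauRad
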