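import Mathlib

/-! General real-analysis lemmas for the radial Landau-Coulomb maximum bound. -/

open Set Filter Topology MeasureTheory Function

namespace Pool.Agent.Lib.LandauRad

/-- First touching time on a compact parameter set. -/
theorem touch {X : Type} [TopologicalSpace X] {S K : Set X} (hK : IsCompact K) (hKS : K ⊆ S)
    {F : ℝ → X → ℝ} {T : ℝ} (hc : ContinuousOn (uncurry F) (Icc 0 T ×ˢ K))
    (h0 : ∀ x ∈ S, F 0 x < 0) (hout : ∀ t ∈ Icc 0 T, ∀ x ∈ S, x ∉ K → F t x < 0)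
    (hstep : ∀ t0 ∈ Ioc 0 T, ∀ x0 ∈ S, F t0 x0 = 0 → (∀ x ∈ S, F t0 x ≤ 0) →
      (∀ t ∈ Ico 0 t0, F t x0 < 0) → False) :
    ∀ t ∈ Icc 0 T, ∀ x ∈ S, F t x < 0 := by
  by_contra hcon
  push Not at hcon
  obtain ⟨t1, ht1, x1, hx1, hF1⟩ := hcon
  have hx1K : x1 ∈ K := by
    by_contra h
    exact absurd (hout t1 ht1 x1 hx1 h) (not_lt.2 hF1)
  have hcomp : IsCompact (Icc (0:ℝ) T ×ˢ K) := isCompact_Icc.prod hK
  have hZ : IsCompact ((Icc (0:ℝ) T ×ˢ K) ∩ (uncurry F) ⁻¹' (Ici 0)) := by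
    obtain ⟨u, hu, hu'⟩ := (continuousOn_iff_isClosed.1 hc) (Ici 0) isClosed_Ici
    rw [inter_comm, hu', inter_comm]
    exact hcomp.inter_right hu
  obtain ⟨⟨t0, x0⟩, ⟨⟨ht0, hx0⟩, hF0⟩, hmin⟩ := hZ.exists_isMinOn
    ⟨(t1, x1), ⟨ht1, hx1K⟩, hF1⟩ continuous_fst.continuousOn
  have hF0' : 0 ≤ F t0 x0 := hF0
  have ht0' : t0 ∈ Icc (0:ℝ) T := ht0
  have hx0' : x0 ∈ K := hx0
  have hbefore : ∀ t ∈ Ico 0 t0, ∀ x ∈ K, F t x < 0 := by
    intro t ht x hx
    by_contra h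
    have := hmin (a := (t, x)) ⟨⟨⟨ht.1, ht.2.le.trans ht0'.2⟩, hx⟩, not_lt.1 h⟩
    exact absurd ht.2 (not_lt.2 this)
  have hpos : 0 < t0 := by
    rcases ht0'.1.eq_or_lt with h | h
    · rw [← h] at hF0'
      exact absurd (h0 x0 (hKS hx0')) (not_lt.2 hF0')
    · exact h
  have hle : ∀ x ∈ K, F t0 x ≤ 0 := by
    intro x hx
    have h1 : ContinuousOn (fun t => F t x) (Icc 0 T) :=
      hc.comp (f := fun t : ℝ => (t, x)) (by fun_prop) (fun t ht => ⟨ht, hx⟩)
    have h2 : ContinuousWithinAt (fun t => F t x) (Ico 0 t0) t0 :=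
      (h1 t0 ht0').mono (fun t ht => ⟨ht.1, ht.2.le.trans ht0'.2⟩)
    have h3 : t0 ∈ closure (Ico 0 t0) := by
      rw [closure_Ico hpos.ne]; exact ⟨hpos.le, le_rfl⟩
    exact ContinuousWithinAt.closure_le h3 h2 continuousWithinAt_const
      (fun t ht => (hbefore t ht x hx).le)
  refine hstep t0 ⟨hpos, ht0'.2⟩ x0 (hKS hx0') (le_antisymm (hle x0 hx0') hF0') ?_
    (fun t ht => hbefore t ht x0 hx0')
  intro x hx
  by_cases hxK : x ∈ K
  · exact hle x hxK
  · exact (hout t0 ht0' x hx hxK).le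

theorem deriv_nonneg_of_left {g : ℝ → ℝ} {g' t0 : ℝ} (hd : HasDerivAt g g' t0) (ht : 0 < t0)
    (h0 : g t0 = 0) (hl : ∀ t ∈ Ico 0 t0, g t < 0) : 0 ≤ g' := by
  have h1 : Tendsto (slope g t0) (𝓝[<] t0) (𝓝 g') :=
    (hasDerivAt_iff_tendsto_slope.1 hd).mono_left (nhdsLT_le_nhdsNE t0)
  refine ge_of_tendsto h1 ?_
  filter_upwards [Ioo_mem_nhdsLT ht] with t h
  rw [slope_def_field, h0, sub_zero]
  exact div_nonneg_of_nonpos (hl t ⟨h.1.le, h.2⟩).le (by linarith [h.2])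

/-- One-sided second derivative test. -/
theorem second_deriv_right {g g1 : ℝ → ℝ} {x0 c δ : ℝ} (hδ : 0 < δ)
    (h1 : ∀ x ∈ Ico x0 (x0 + δ), HasDerivAt g (g1 x) x) (h0 : g1 x0 = 0)
    (h2 : HasDerivAt g1 c x0) (hge : ∀ x ∈ Ico x0 (x0 + δ), g x0 ≤ g x) : 0 ≤ c := by
  by_contra hc
  push Not at hc
  have h3 : Tendsto (slope g1 x0) (𝓝[>] x0) (𝓝 c) :=
    (hasDerivAt_iff_tendsto_slope.1 h2).mono_left (nhdsGT_le_nhdsNE x0)
  have h4 : ∀ᶠ x in 𝓝[>] x0, slope g1 x0 x < 0 := h3.eventually (gt_mem_nhds hc)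
  obtain ⟨u, hu, hsub⟩ := mem_nhdsGT_iff_exists_Ioo_subset.1 h4
  have hu' : x0 < u := hu
  set b := min (x0 + δ / 2) ((x0 + u) / 2) with hb
  have hb1 : x0 < b := lt_min (by linarith) (by linarith)
  have hb2 : b < x0 + δ := (min_le_left _ _).trans_lt (by linarith)
  have hb3 : b < u := (min_le_right _ _).trans_lt (by linarith)
  obtain ⟨ξ, hξ, hξ'⟩ := exists_hasDerivAt_eq_slope g g1 hb1
    (fun x hx => (h1 x ⟨hx.1, hx.2.trans_lt hb2⟩).continuousAt.continuousWithinAt)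
    (fun x hx => h1 x ⟨hx.1.le, hx.2.trans hb2⟩)
  have h5 : slope g1 x0 ξ < 0 := hsub ⟨hξ.1, hξ.2.trans hb3⟩
  rw [slope_def_field, h0, sub_zero, hξ'] at h5
  have h6 : 0 ≤ (g b - g x0) / (b - x0) / (ξ - x0) :=
    div_nonneg (div_nonneg (sub_nonneg.2 (hge b ⟨hb1.le, hb2⟩)) (by linarith)) (by linarith [hξ.1])
  linarith

/-- Differentiation under an interval integral. -/
theorem hasDerivAt_param {F Ft : ℝ → ℝ → ℝ} (hF : Continuous (uncurry F))
    (hFt : Continuous (uncurry Ft)) {a b : ℝ}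
    (hd : ∀ t ∈ Ioo a b, ∀ r, HasDerivAt (fun τ => F τ r) (Ft t r) t) {t : ℝ} (ht : t ∈ Ioo a b)
    (R : ℝ) : HasDerivAt (fun τ => ∫ r in (0:ℝ)..R, F τ r) (∫ r in (0:ℝ)..R, Ft t r) t := by
  have hK : IsCompact (Icc a b ×ˢ uIcc (0:ℝ) R) := isCompact_Icc.prod isCompact_uIcc
  obtain ⟨C, hC⟩ := hK.exists_bound_of_continuousOn hFt.continuousOn
  refine (intervalIntegral.hasDerivAt_integral_of_dominated_loc_of_deriv_le
    (s := Ioo a b) (bound := fun _ => C) (Ioo_mem_nhds ht.1 ht.2) ?_ ?_ ?_ ?_ ?_ ?_).2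
  · exact Eventually.of_forall fun x =>
      (hF.comp (f := fun r : ℝ => (x, r)) (by fun_prop)).aestronglyMeasurable
  · exact (hF.comp (f := fun r : ℝ => (t, r)) (by fun_prop)).intervalIntegrable _ _
  · exact (hFt.comp (f := fun r : ℝ => (t, r)) (by fun_prop)).aestronglyMeasurable
  · exact Eventually.of_forall fun r hr x hx =>
      hC (x, r) ⟨Ioo_subset_Icc_self hx, uIoc_subset_uIcc hr⟩
  · exact intervalIntegrable_const
  · exact Eventually.of_forall fun r _ x hx => hd x hx r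

/-- A function that is eventually above a positive constant has unbounded primitives. -/
theorem not_bdd_of_eventually {g : ℝ → ℝ} (hg : Continuous g) {c C : ℝ} (hc : 0 < c)
    (hev : ∀ᶠ r in atTop, c ≤ g r) (hb : ∀ R, 0 ≤ R → ∫ r in (0:ℝ)..R, g r ≤ C) : False := by
  obtain ⟨R0, hR0⟩ := eventually_atTop.1 hev
  set R1 := max R0 0
  set I := ∫ r in (0:ℝ)..R1, g r
  set L := (|C - I| + 1) / c
  have hL : 0 ≤ L := by positivity
  have h1 := hb (R1 + L) (by have := le_max_right R0 0; positivity)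
  rw [← intervalIntegral.integral_add_adjacent_intervals (b := R1) (hg.intervalIntegrable _ _)
    (hg.intervalIntegrable _ _)] at h1
  have h2 : ∫ r in R1..R1 + L, c ≤ ∫ r in R1..R1 + L, g r :=
    intervalIntegral.integral_mono_on (by linarith) intervalIntegrable_const
      (hg.intervalIntegrable _ _) (fun x hx => hR0 x ((le_max_left _ _).trans hx.1))
  have h3 : ∫ r in R1..R1 + L, c = |C - I| + 1 := by
    simp only [intervalIntegral.integral_const, add_sub_cancel_left, smul_eq_mul, L]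
    field_simp
  have := le_abs_self (C - I)
  linarith

theorem coeffs_zero {g ρ : ℝ → ℝ} (hg : Continuous g) {α γ C : ℝ}
    (hρ : Tendsto ρ atTop (𝓝 0)) (heq : ∀ r, 0 < r → g r = α * r ^ 2 + γ + ρ r)
    (hb : ∀ R, 0 ≤ R → |∫ r in (0:ℝ)..R, g r| ≤ C) : α = 0 ∧ γ = 0 := by
  have key : ∀ (g ρ : ℝ → ℝ) (α γ : ℝ), Continuous g → Tendsto ρ atTop (𝓝 0) →
      (∀ r, 0 < r → g r = α * r ^ 2 + γ + ρ r) → (∀ R, 0 ≤ R → ∫ r in (0:ℝ)..R, g r ≤ C) →
      α ≤ 0 ∧ (α = 0 → γ ≤ 0) := by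
    intro g ρ α γ hg hρ heq hb
    constructor
    · by_contra h
      push Not at h
      refine not_bdd_of_eventually hg one_pos ?_ hb
      have h1 : Tendsto (fun r : ℝ => α * r ^ 2 + γ + ρ r) atTop atTop :=
        Tendsto.atTop_add (tendsto_atTop_add_const_right _ _
          ((tendsto_pow_atTop two_ne_zero).const_mul_atTop h)) hρ
      filter_upwards [h1.eventually_ge_atTop 1, eventually_gt_atTop 0] with r h2 h3
      rw [heq r h3]; exact h2
    · intro h0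
      by_contra h
      push Not at h
      refine not_bdd_of_eventually hg (half_pos h) ?_ hb
      filter_upwards [hρ.eventually (lt_mem_nhds (show -(γ / 2) < 0 by linarith)),
        eventually_gt_atTop 0] with r h2 h3
      rw [heq r h3, h0]; linarith
  have h1 := key g ρ α γ hg hρ heq (fun R hR => (le_abs_self _).trans (hb R hR))
  have h2 := key (fun r => - g r) (fun r => - ρ r) (-α) (-γ) hg.neg (by simpa using hρ.neg)
    (fun r hr => by rw [heq r hr]; ring) (fun R hR => by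
      rw [intervalIntegral.integral_neg]; exact (neg_le_abs _).trans (hb R hR))
  have h3 : α = 0 := le_antisymm h1.1 (by linarith [h2.1])
  exact ⟨h3, le_antisymm (h1.2 h3) (by linarith [h2.2 (by rw [h3, neg_zero])])⟩

/-- Baire category argument: a finite lower semicontinuous function that is constant on every
interval on which it is bounded is constant. -/
theorem baire_const {e : ℝ → ℝ} {T : ℝ}
    (hcl : ∀ N : ℝ, IsClosed {t | e t ≤ N})
    (hconst : ∀ t1 t2 N, 0 ≤ t1 → t1 ≤ t2 → t2 ≤ T → (∀ t ∈ Ioo t1 t2, e t ≤ N) → e t1 = e t2) :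
    ∀ t ∈ Icc 0 T, e t = e 0 := by
  set G : Set ℝ := {t | ∃ N, ∀ᶠ s in 𝓝[Icc 0 T] t, e s ≤ N} with hG
  have hGopen : IsClosed (Icc 0 T ∩ Gᶜ) := by
    rw [← isOpen_compl_iff, isOpen_iff_mem_nhds]
    intro t ht
    by_cases htI : t ∈ Icc 0 T
    · have htG : t ∈ G := by
        by_contra h; exact ht ⟨htI, h⟩
      obtain ⟨N, hN⟩ := htG
      have h1 := eventually_nhdsWithin_iff.1 hN
      filter_upwards [h1.eventually_nhds] with s hs hs'
      exact hs'.2 ⟨N, eventually_nhdsWithin_iff.2 hs⟩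
    · filter_upwards [isClosed_Icc.isOpen_compl.mem_nhds htI] with s hs hs'
      exact hs hs'.1
  have hseg : ∀ a b, 0 ≤ a → a ≤ b → b ≤ T → Icc a b ⊆ G → e a = e b := by
    intro a b ha hab hb hsub
    have : ∃ N, ∀ t ∈ Icc a b, e t ≤ N := by
      refine (isCompact_Icc (a := a) (b := b)).induction_on
        (p := fun s => ∃ N, ∀ t ∈ s, e t ≤ N) ⟨0, by simp⟩
        (fun s t hst ⟨N, hN⟩ => ⟨N, fun x hx => hN x (hst hx)⟩)
        (fun s t ⟨N, hN⟩ ⟨N', hN'⟩ => ⟨max N N', fun x hx => hx.elim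
          (fun h => (hN x h).trans (le_max_left _ _)) (fun h => (hN' x h).trans (le_max_right _ _))⟩)
        ?_
      intro x hx
      obtain ⟨N, hN⟩ := hsub hx
      exact ⟨{s | e s ≤ N}, nhdsWithin_mono x (Icc_subset_Icc ha hb) hN, N, fun t ht => ht⟩
    obtain ⟨N, hN⟩ := this
    exact hconst a b N ha hab hb (fun t ht => hN t (Ioo_subset_Icc_self ht))
  have hall : Icc 0 T ⊆ G := by
    by_contra hcon
    set F := Icc 0 T ∩ Gᶜ with hF
    have hne : F.Nonempty := by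
      obtain ⟨x, hx, hx'⟩ := not_subset.1 hcon
      exact ⟨x, hx, hx'⟩
    have : Nonempty F := hne.to_subtype
    have : CompleteSpace F := hGopen.completeSpace_coe
    obtain ⟨n, x, hx⟩ := nonempty_interior_of_iUnion_of_closed
      (f := fun n : ℕ => {t : F | e t ≤ n})
      (fun n => (hcl n).preimage continuous_subtype_val)
      (by
        refine eq_univ_of_forall fun t => ?_
        obtain ⟨n, hn⟩ := exists_nat_ge (e t)
        exact mem_iUnion.2 ⟨n, hn⟩)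
    obtain ⟨δ, hδ, hball⟩ := Metric.mem_nhds_iff.1 (mem_interior_iff_mem_nhds.1 hx)
    have hFb : ∀ y ∈ F, |y - x| < δ → e y ≤ n := fun y hy h =>
      hball (a := ⟨y, hy⟩) (by simpa [Subtype.dist_eq, Real.dist_eq] using h)
    apply x.2.2
    refine ⟨n, ?_⟩
    have hxI : (x : ℝ) ∈ Icc 0 T := x.2.1
    filter_upwards [self_mem_nhdsWithin, nhdsWithin_le_nhds (Metric.ball_mem_nhds (x : ℝ) hδ)]
      with s hs hs'
    have hs'' : |s - x| < δ := by simpa [Real.dist_eq] using hs'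
    rcases le_total (x : ℝ) s with hxs | hxs
    · have hcpt : IsCompact (F ∩ Icc (x : ℝ) s) := isCompact_Icc.inter_left hGopen
      obtain ⟨c, ⟨hcF, hc⟩, hmax⟩ := hcpt.exists_isMaxOn ⟨x, x.2, le_rfl, hxs⟩
        continuous_id.continuousOn
      have h1 : ∀ t ∈ Ioo c s, e t ≤ e s := by
        intro t ht
        refine (hseg t s (hcF.1.1.trans ht.1.le) ht.2.le hs.2 fun y hy => ?_).le
        by_contra hyG
        have := hmax (a := y) ⟨⟨⟨(hcF.1.1.trans ht.1.le).trans hy.1, hy.2.trans hs.2⟩, hyG⟩,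
          (hc.1.trans ht.1.le).trans hy.1, hy.2⟩
        exact absurd (ht.1.trans_le hy.1) (not_lt.2 this)
      rw [← hconst c s (e s) hcF.1.1 hc.2 hs.2 h1]
      refine hFb c hcF ?_
      rw [abs_lt] at hs'' ⊢
      constructor <;> linarith [hc.1, hc.2, hs''.2]
    · have hcpt : IsCompact (F ∩ Icc s (x : ℝ)) := isCompact_Icc.inter_left hGopen
      obtain ⟨c, ⟨hcF, hc⟩, hmin⟩ := hcpt.exists_isMinOn ⟨x, x.2, hxs, le_rfl⟩
        continuous_id.continuousOn
      have h1 : ∀ t ∈ Ioo s c, e t ≤ e s := by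
        intro t ht
        refine (hseg s t hs.1 ht.1.le (ht.2.le.trans hcF.1.2) fun y hy => ?_).ge
        by_contra hyG
        have := hmin (a := y) ⟨⟨⟨hs.1.trans hy.1, hy.2.trans (ht.2.le.trans hcF.1.2)⟩, hyG⟩,
          hy.1, hy.2.trans (ht.2.le.trans hc.2)⟩
        exact absurd (hy.2.trans_lt ht.2) (not_lt.2 this)
      rw [hconst s c (e s) hs.1 hc.1 hcF.1.2 h1]
      refine hFb c hcF ?_
      rw [abs_lt] at hs'' ⊢
      constructor <;> linarith [hc.1, hc.2, hs''.1]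
  intro t ht
  exact (hseg 0 t le_rfl ht.1 ht.2 (fun y hy => hall ⟨hy.1, hy.2.trans ht.2⟩)).symm

end Pool.Agent.Lib.LandauRad
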