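import Pool.Agent.Lib.MP_33b301_mp.Core

/-! Conservation of mass and energy for radial classical solutions. -/

open Set Filter Topology MeasureTheory Function Real

namespace Pool.Agent.Lib.LandauRad

theorem Prof.flux_bd {B N : ℝ} {g : ℝ → ℝ} (h : Prof B g) (hN : tot 4 g ≤ N) {r : ℝ}
    (hr : 0 < r) :
    |(mo 4 g r + r ^ 3 * tl g r) / 3 * g r - mo 2 g r * tl g r|
      ≤ N / 3 * (g r * r ^ 4) + 2 * (N * B + (B + N) * N) * (1 + r ^ 2)⁻¹ := by
  have hB := h.B_nonneg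
  have h1 := h.tl_le4 hr.le
  have h2 := mo_nonneg 4 h.nonneg hr.le
  have h3 := h.tl_nonneg hr.le
  have h4 := mo_nonneg 2 h.nonneg hr.le
  have h5 := h.nonneg r
  have h6 := h.bdd r
  have h7 : 0 ≤ r ^ 3 * tl g r := by positivity
  have hN0 : 0 ≤ N := by linarith
  have h8 := mo_le 2 h.cont hr.le h.bdd
  have h9 := h.mo_le_tot (k := 2) (by norm_num) hr.le
  have h10 := h.tot2_le
  norm_num at h8
  set q := (1 + r ^ 2)⁻¹ with hq
  have hq0 : 0 < q := by positivity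
  have hq1 : q * (1 + r ^ 2) = 1 := inv_mul_cancel₀ (by positivity)
  have a1 : g r ≤ g r * r ^ 4 + 2 * B * q := by
    rcases le_total r 1 with hr1 | hr1
    · have : 1 ≤ 2 * q := by nlinarith [mul_le_mul_of_nonneg_left (show r ^ 2 ≤ 1 by nlinarith) hq0.le]
      nlinarith [mul_le_mul_of_nonneg_left this hB, mul_nonneg h5 (pow_nonneg hr.le 4)]
    · nlinarith [mul_le_mul_of_nonneg_left (one_le_pow₀ hr1 (n := 4)) h5, mul_nonneg hB hq0.le]
  have a2 : mo 2 g r * tl g r ≤ 2 * ((B + N) * N) * q := by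
    rcases le_total r 1 with hr1 | hr1
    · have : 1 ≤ 2 * q := by nlinarith [mul_le_mul_of_nonneg_left (show r ^ 2 ≤ 1 by nlinarith) hq0.le]
      have b1 : mo 2 g r * tl g r ≤ B * r ^ 3 / 3 * tl g r := mul_le_mul_of_nonneg_right h8 h3
      have b2 : B * (r ^ 3 * tl g r) ≤ B * N := mul_le_mul_of_nonneg_left (by linarith) hB
      have b3 : 0 ≤ (B + N) * N := by positivity
      nlinarith [mul_le_mul_of_nonneg_left this b3, mul_nonneg hN0 hN0, mul_nonneg hB hN0]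
    · have b1 : mo 2 g r ≤ B + N := by linarith
      have b2 : tl g r ≤ 2 * N * q := by
        have c1 : (1 + r ^ 2) * tl g r ≤ 2 * (r ^ 3 * tl g r) := by
          have : 1 + r ^ 2 ≤ 2 * r ^ 3 := by
            nlinarith [one_le_pow₀ hr1 (n := 2), one_le_pow₀ hr1 (n := 3),
              pow_le_pow_right₀ hr1 (show 2 ≤ 3 by norm_num)]
          nlinarith [mul_le_mul_of_nonneg_right this h3]
        have c2 : (1 + r ^ 2) * tl g r ≤ 2 * N := by linarith
        calc tl g r = q * ((1 + r ^ 2) * tl g r) := by rw [← mul_assoc, hq1, one_mul]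
          _ ≤ q * (2 * N) := mul_le_mul_of_nonneg_left c2 hq0.le
          _ = 2 * N * q := by ring
      calc mo 2 g r * tl g r ≤ (B + N) * (2 * N * q) :=
            mul_le_mul b1 b2 h3 (by positivity)
        _ = _ := by ring
  have a3 : (mo 4 g r + r ^ 3 * tl g r) / 3 * g r ≤ N / 3 * (g r * r ^ 4 + 2 * B * q) :=
    mul_le_mul (by linarith) a1 h5 (by positivity)
  have a4 : 0 ≤ (mo 4 g r + r ^ 3 * tl g r) / 3 * g r := by positivity
  have a5 : 0 ≤ mo 2 g r * tl g r := by positivity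
  have a6 : 0 ≤ N * B * q := by positivity
  have a7 : 0 ≤ N / 3 * (g r * r ^ 4) := by positivity
  have a8 : 0 ≤ (B + N) * N * q := by positivity
  rw [abs_le]
  constructor <;> nlinarith

theorem Prof.rho_tendsto {B : ℝ} {g : ℝ → ℝ} (h : Prof B g) :
    Tendsto (fun r => (tot 4 g - mo 4 g r) - r ^ 2 * (tot 2 g - mo 2 g r)) atTop (𝓝 0) := by
  have h1 : Tendsto (fun r => tot 4 g - mo 4 g r) atTop (𝓝 0) := by
    simpa using (h.mo_tendsto (k := 4) le_rfl).const_sub (tot 4 g)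
  refine squeeze_zero' ?_ ?_ h1
  · filter_upwards [eventually_ge_atTop 0] with r hr
    exact sub_nonneg.2 (h.tail_le (j := 2) (k := 2) le_rfl hr)
  · filter_upwards [eventually_ge_atTop 0] with r hr
    have := mul_nonneg (sq_nonneg r) (sub_nonneg.2 (h.mo_le_tot (k := 2) (by norm_num) hr))
    linarith

namespace Rad

variable {T B : ℝ} {φ φt φ1 φ2 : ℝ → ℝ → ℝ}

theorem cons_loc (h : Rad T B φ φt φ1 φ2) {t1 t2 N : ℝ} (h1 : 0 ≤ t1) (h12 : t1 ≤ t2)
    (h2 : t2 ≤ T) (hN : ∀ t ∈ Ioo t1 t2, tot 4 (φ t) ≤ N) :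
    tot 2 (φ t1) = tot 2 (φ t2) ∧ tot 4 (φ t1) = tot 4 (φ t2) := by
  rcases h12.eq_or_lt with h12 | h12
  · rw [h12]; exact ⟨rfl, rfl⟩
  set P : ℝ → ℝ → ℝ := fun t r => r ^ 2 * mo 2 (φ t) r - mo 4 (φ t) r with hP
  set Pt : ℝ → ℝ → ℝ := fun t r => r ^ 2 * mo 2 (φt t) r - mo 4 (φt t) r with hPt
  have hPc : Continuous (uncurry P) :=
    ((continuous_snd.pow 2).mul (mo_cont2 2 h.cont)).sub (mo_cont2 4 h.cont)
  have hPtc : Continuous (uncurry Pt) :=
    ((continuous_snd.pow 2).mul (mo_cont2 2 h.contt)).sub (mo_cont2 4 h.contt)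
  have hPd : ∀ t ∈ Ioo 0 T, ∀ r, HasDerivAt (fun τ => P τ r) (Pt t r) t := fun t ht r =>
    ((h.mo_dt 2 ht r).const_mul _).sub (h.mo_dt 4 ht r)
  set C := 2 * (N / 3 * N + 2 * (N * B + (B + N) * N) * 2) with hC
  have hbd : ∀ t ∈ Ioo t1 t2, ∀ R, 0 ≤ R → |∫ r in (0:ℝ)..R, Pt t r| ≤ C := by
    intro t ht R hR
    have ht' : t ∈ Ioo 0 T := ⟨h1.trans_lt ht.1, ht.2.trans_le h2⟩
    have hp := h.prof t
    have hc := hp.cont
    have hN0 : 0 ≤ N := ((mo_nonneg 4 hp.nonneg le_rfl).trans (hp.mo_le_tot le_rfl le_rfl)).trans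
      (hN t ht)
    have hB := hp.B_nonneg
    have hq : Continuous fun r : ℝ => (1 + r ^ 2)⁻¹ :=
      Continuous.inv₀ (by fun_prop) fun r => by positivity
    have e1 := intervalIntegral.norm_integral_le_of_norm_le (f := Pt t) (μ := volume) hR
      (g := fun r => 2 * (N / 3 * (φ t r * r ^ 4) + 2 * (N * B + (B + N) * N) * (1 + r ^ 2)⁻¹))
      (Eventually.of_forall fun r hr => by
        simp only [hPt, norm_eq_abs]
        rw [flux4 hp (h.d1 t) (h.d2 t) (h.ct t) (h.eqn t ht') hr.1, abs_mul, abs_two]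
        exact mul_le_mul_of_nonneg_left (hp.flux_bd (hN t ht) hr.1) zero_le_two)
      (Continuous.intervalIntegrable (by fun_prop) _ _)
    rw [norm_eq_abs] at e1
    refine e1.trans ?_
    rw [intervalIntegral.integral_const_mul, intervalIntegral.integral_add
      (Continuous.intervalIntegrable (by fun_prop) _ _)
      (Continuous.intervalIntegrable (by fun_prop) _ _), intervalIntegral.integral_const_mul,
      intervalIntegral.integral_const_mul, integral_inv_one_add_sq]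
    have e2 : (∫ r in (0:ℝ)..R, φ t r * r ^ 4) ≤ N := (hp.mo_le_tot le_rfl hR).trans (hN t ht)
    have e3 : arctan R - arctan 0 ≤ 2 := by
      rw [arctan_zero]; linarith [arctan_lt_pi_div_two R, pi_le_four]
    have e4 := mul_le_mul_of_nonneg_left e2 (show 0 ≤ N / 3 by positivity)
    have e5 := mul_le_mul_of_nonneg_left e3 (show 0 ≤ 2 * (N * B + (B + N) * N) by positivity)
    rw [hC]; linarith
  have hQ : ∀ R, 0 ≤ R → |∫ r in (0:ℝ)..R, (P t2 r - P t1 r)| ≤ C * (t2 - t1) := by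
    intro R hR
    have hQc : Continuous fun t => ∫ r in (0:ℝ)..R, P t r :=
      intervalIntegral.continuous_parametric_intervalIntegral_of_continuous' hPc 0 R
    obtain ⟨ξ, hξ, hξ'⟩ := exists_hasDerivAt_eq_slope _ (fun t => ∫ r in (0:ℝ)..R, Pt t r) h12
      hQc.continuousOn
      (fun t ht => hasDerivAt_param hPc hPtc hPd ⟨h1.trans_lt ht.1, ht.2.trans_le h2⟩ R)
    have hc1 : ∀ t, Continuous (P t) := fun t => hPc.comp (f := fun r : ℝ => (t, r)) (by fun_prop)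
    rw [intervalIntegral.integral_sub ((hc1 _).intervalIntegrable _ _)
      ((hc1 _).intervalIntegrable _ _)]
    have := hbd ξ hξ R hR
    rw [hξ', abs_div, abs_of_pos (sub_pos.2 h12), div_le_iff₀ (sub_pos.2 h12)] at this
    exact this
  have hz := coeffs_zero (g := fun r => P t2 r - P t1 r)
    (α := tot 2 (φ t2) - tot 2 (φ t1)) (γ := tot 4 (φ t1) - tot 4 (φ t2))
    ((hPc.comp (f := fun r : ℝ => (t2, r)) (by fun_prop)).sub
      (hPc.comp (f := fun r : ℝ => (t1, r)) (by fun_prop)))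
    (by simpa using (h.prof t2).rho_tendsto.sub (h.prof t1).rho_tendsto)
    (fun r _ => by simp only [hP]; ring) hQ
  exact ⟨by linarith [hz.1], by linarith [hz.2]⟩

theorem mo_ct (h : Rad T B φ φt φ1 φ2) (k : ℕ) (r : ℝ) : Continuous fun t => mo k (φ t) r :=
  (mo_cont2 k h.cont).comp (f := fun t : ℝ => (t, r)) (by fun_prop)

theorem cons4 (h : Rad T B φ φt φ1 φ2) : ∀ t ∈ Icc 0 T, tot 4 (φ t) = tot 4 (φ 0) := by
  refine baire_const (fun N => ?_) fun t1 t2 N h1 h12 h2 hN => (h.cons_loc h1 h12 h2 hN).2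
  have : {t | tot 4 (φ t) ≤ N} = ⋂ R ∈ Ici (0:ℝ), {t | mo 4 (φ t) R ≤ N} := by
    ext t
    simp only [mem_ofPred_eq, mem_iInter]
    refine ⟨fun ht R hR => ((h.prof t).mo_le_tot le_rfl hR).trans ht, fun ht => ?_⟩
    exact le_of_tendsto ((h.prof t).mo_tendsto le_rfl)
      (by filter_upwards [eventually_ge_atTop 0] with R hR using ht R hR)
  rw [this]
  exact isClosed_biInter fun R _ => isClosed_le (h.mo_ct 4 R) continuous_const

theorem cons2 (h : Rad T B φ φt φ1 φ2) : ∀ t ∈ Icc 0 T, tot 2 (φ t) = tot 2 (φ 0) :=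
  fun _ ht => (h.cons_loc le_rfl ht.1 ht.2 fun s hs =>
    (h.cons4 s ⟨hs.1.le, hs.2.le.trans ht.2⟩).le).1.symm

theorem tail_unif (h : Rad T B φ φt φ1 φ2) {ε : ℝ} (hε : 0 < ε) :
    ∃ R, 0 < R ∧ ∀ t ∈ Icc 0 T, ∀ r, R ≤ r → tot 4 (φ 0) - mo 4 (φ t) r < ε := by
  have hmono : ∀ t, ∀ a b, 0 ≤ a → a ≤ b → mo 4 (φ t) a ≤ mo 4 (φ t) b := by
    intro t a b ha hab
    have hp := h.prof t
    have := hp.cont
    have e1 := hp.tot_sub le_rfl ha
    have e2 := hp.tot_sub le_rfl (ha.trans hab)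
    have e3 : ∫ s in Ioi b, φ t s * s ^ 4 ≤ ∫ s in Ioi a, φ t s * s ^ 4 :=
      setIntegral_mono_set (hp.i4.mono_set (Ioi_subset_Ioi ha))
        (Eventually.of_forall fun s => mul_nonneg (hp.nonneg s) (by positivity))
        (Ioi_subset_Ioi hab).eventuallyLE
    linarith
  refine (isCompact_Icc (a := 0) (b := T)).induction_on
    (p := fun s => ∃ R, 0 < R ∧ ∀ t ∈ s, ∀ r, R ≤ r → tot 4 (φ 0) - mo 4 (φ t) r < ε)
    ⟨1, one_pos, by simp⟩ (fun s t hst ⟨R, hR, hR'⟩ => ⟨R, hR, fun x hx => hR' x (hst hx)⟩)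
    (fun s t ⟨R, hR, hR'⟩ ⟨Q, _, hQ'⟩ => ⟨max R Q, lt_max_of_lt_left hR, fun x hx r hr => hx.elim
      (fun h => hR' x h r ((le_max_left _ _).trans hr))
      (fun h => hQ' x h r ((le_max_right _ _).trans hr))⟩) ?_
  intro t ht
  have e1 := ((h.prof t).mo_tendsto le_rfl).const_sub (tot 4 (φ 0))
  rw [h.cons4 t ht, sub_self] at e1
  obtain ⟨R, hR1, hR2⟩ := ((e1.eventually (gt_mem_nhds hε)).and (eventually_gt_atTop 0)).exists
  refine ⟨{s | tot 4 (φ 0) - mo 4 (φ s) R < ε}, nhdsWithin_le_nhds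
    ((isOpen_lt (continuous_const.sub (h.mo_ct 4 R)) continuous_const).mem_nhds hR1),
    R, hR2, fun s hs r hr => ?_⟩
  have := hmono s R r hR2.le hr
  have hs' : tot 4 (φ 0) - mo 4 (φ s) R < ε := hs
  linarith

end Rad

end Pool.Agent.Lib.LandauRad
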