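import Pool.Agent.Lib.MP_33b301_mp.Gau

/-! The radial equation in one variable: moment identities. -/

open Set Filter Topology MeasureTheory Function Real

namespace Pool.Agent.Lib.LandauRad

noncomputable def tl (g : ℝ → ℝ) (r : ℝ) : ℝ := ∫ s in Ioi r, g s * s

noncomputable def co (g : ℝ → ℝ) (r : ℝ) : ℝ := mo 4 g r / (3 * r ^ 3) + tl g r / 3

noncomputable def tr (g : ℝ → ℝ) (r : ℝ) : ℝ := mo 2 g r / r + tl g r

/-- total moment -/
noncomputable def tot (k : ℕ) (g : ℝ → ℝ) : ℝ := ∫ s in Ioi (0:ℝ), g s * s ^ k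

structure Prof (B : ℝ) (g : ℝ → ℝ) : Prop where
  cont : Continuous g
  nonneg : ∀ r, 0 ≤ g r
  bdd : ∀ r, g r ≤ B
  i4 : IntegrableOn (fun s => g s * s ^ 4) (Ioi 0)

namespace Prof

variable {B : ℝ} {g : ℝ → ℝ}

theorem B_nonneg (h : Prof B g) : 0 ≤ B := (h.nonneg 0).trans (h.bdd 0)

theorem ik (h : Prof B g) {k : ℕ} (hk : k ≤ 4) : IntegrableOn (fun s => g s * s ^ k) (Ioi 0) := by
  have hc := h.cont
  rw [← Ioc_union_Ioi_eq_Ioi (zero_le_one' ℝ)]
  refine IntegrableOn.union ?_ ?_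
  · exact (Continuous.integrableOn_Icc (by fun_prop)).mono_set Ioc_subset_Icc_self
  · refine Integrable.mono' (h.i4.mono_set (Ioi_subset_Ioi zero_le_one))
      (Continuous.aestronglyMeasurable (by fun_prop)) ?_
    refine (ae_restrict_iff' measurableSet_Ioi).2 (Eventually.of_forall fun s hs => ?_)
    have hs' : (1:ℝ) < s := hs
    rw [norm_eq_abs, abs_of_nonneg (mul_nonneg (h.nonneg s) (by positivity))]
    exact mul_le_mul_of_nonneg_left (pow_le_pow_right₀ hs'.le hk) (h.nonneg s)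

theorem i1 (h : Prof B g) : IntegrableOn (fun s => g s * s) (Ioi 0) :=
  (h.ik (k := 1) (by norm_num)).congr_fun (fun s _ => by simp only [pow_one]) measurableSet_Ioi

theorem tot_sub (h : Prof B g) {k : ℕ} (hk : k ≤ 4) {r : ℝ} (hr : 0 ≤ r) :
    tot k g - mo k g r = ∫ s in Ioi r, g s * s ^ k := by
  have := intervalIntegral.integral_Ioi_sub_Ioi (h.ik hk) hr
  unfold tot mo; linarith

theorem mo_le_tot (h : Prof B g) {k : ℕ} (hk : k ≤ 4) {r : ℝ} (hr : 0 ≤ r) :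
    mo k g r ≤ tot k g := by
  rw [← sub_nonneg, h.tot_sub hk hr]
  exact setIntegral_nonneg measurableSet_Ioi fun s hs =>
    mul_nonneg (h.nonneg s) (pow_nonneg (hr.trans (le_of_lt hs)) k)

theorem mo_tendsto (h : Prof B g) {k : ℕ} (hk : k ≤ 4) :
    Tendsto (mo k g) atTop (𝓝 (tot k g)) :=
  intervalIntegral_tendsto_integral_Ioi 0 (h.ik hk) tendsto_id

theorem tail_le (h : Prof B g) {j k : ℕ} (hk : j + k ≤ 4) {r : ℝ} (hr : 0 ≤ r) :
    r ^ j * (tot k g - mo k g r) ≤ tot (j + k) g - mo (j + k) g r := by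
  rw [h.tot_sub (by omega) hr, h.tot_sub hk hr, ← integral_const_mul]
  refine setIntegral_mono_on
    (((h.ik (k := k) (by omega)).mono_set (Ioi_subset_Ioi hr)).const_mul _)
    ((h.ik hk).mono_set (Ioi_subset_Ioi hr)) measurableSet_Ioi fun s hs => ?_
  have hs' : r < s := hs
  have h1 : r ^ j ≤ s ^ j := pow_le_pow_left₀ hr hs'.le j
  have h2 : 0 ≤ g s * s ^ k := mul_nonneg (h.nonneg s) (pow_nonneg (hr.trans hs'.le) k)
  calc r ^ j * (g s * s ^ k) ≤ s ^ j * (g s * s ^ k) := mul_le_mul_of_nonneg_right h1 h2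
    _ = g s * s ^ (j + k) := by ring

theorem tl_eq (h : Prof B g) {r : ℝ} (hr : 0 ≤ r) : tl g r = tot 1 g - mo 1 g r := by
  rw [h.tot_sub (by norm_num) hr]; simp [tl]

theorem tl_nonneg (h : Prof B g) {r : ℝ} (hr : 0 ≤ r) : 0 ≤ tl g r := by
  rw [h.tl_eq hr]; exact sub_nonneg.2 (h.mo_le_tot (by norm_num) hr)

theorem tl_deriv (h : Prof B g) {r : ℝ} (hr : 0 < r) : HasDerivAt (tl g) (-(g r * r)) r := by
  have h1 := (mo_deriv 1 h.cont r).const_sub (tot 1 g)
  rw [pow_one] at h1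
  refine h1.congr_of_eventuallyEq ?_
  filter_upwards [Ioi_mem_nhds hr] with s hs using h.tl_eq (le_of_lt hs)

theorem tl_contOn (h : Prof B g) : ContinuousOn (tl g) (Ici 0) :=
  (continuous_const.sub (mo_cont 1 h.cont)).continuousOn.congr fun _ hs => h.tl_eq hs

theorem tl_le4 (h : Prof B g) {r : ℝ} (hr : 0 ≤ r) : mo 4 g r + r ^ 3 * tl g r ≤ tot 4 g := by
  have := h.tail_le (j := 3) (k := 1) le_rfl hr
  rw [h.tl_eq hr]; linarith

theorem tl_le2 (h : Prof B g) {r : ℝ} (hr : 0 ≤ r) : mo 2 g r + r * tl g r ≤ tot 2 g := by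
  have := h.tail_le (j := 1) (k := 1) (by norm_num) hr
  rw [h.tl_eq hr]; simp only [pow_one] at this; linarith

theorem tot2_le (h : Prof B g) : tot 2 g ≤ B / 3 + tot 4 g := by
  have h1 := h.tail_le (j := 2) (k := 2) le_rfl zero_le_one
  have h2 := mo_le 2 h.cont zero_le_one h.bdd
  have h3 := mo_nonneg 4 h.nonneg zero_le_one
  norm_num at h1 h2
  linarith

theorem mo4_le (h : Prof B g) {r : ℝ} (hr : 0 ≤ r) : mo 4 g r ≤ r ^ 2 * mo 2 g r := by
  have hc := h.cont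
  unfold mo
  rw [← intervalIntegral.integral_const_mul]
  refine intervalIntegral.integral_mono_on hr (Continuous.intervalIntegrable (by fun_prop) _ _)
    (Continuous.intervalIntegrable (by fun_prop) _ _) fun s hs => ?_
  have h1 : s ^ 2 ≤ r ^ 2 := pow_le_pow_left₀ hs.1 hs.2 2
  have h2 : 0 ≤ g s * s ^ 2 := mul_nonneg (h.nonneg s) (sq_nonneg s)
  nlinarith [mul_le_mul_of_nonneg_right h1 h2]

theorem tr_le (h : Prof B g) {r : ℝ} (hr : 0 < r) : tr g r ≤ B + tot 2 g := by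
  have hB := h.B_nonneg
  unfold tr
  rcases le_total r 1 with h1 | h1
  · have h2 := mo_le 2 h.cont hr.le h.bdd
    have h3 : mo 2 g r / r ≤ B / 3 := by
      rw [div_le_iff₀ hr]
      norm_num at h2
      have : r ^ 3 ≤ r := by nlinarith [pow_le_pow_of_le_one hr.le h1 (show 1 ≤ 3 by norm_num)]
      nlinarith
    have h4 := h.tl_le2 zero_le_one
    have h5 := mo_le 1 h.cont zero_le_one h.bdd
    have h6 := mo_nonneg 1 h.nonneg hr.le
    have h7 := mo_nonneg 2 h.nonneg zero_le_one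
    rw [h.tl_eq zero_le_one] at h4
    rw [h.tl_eq hr.le]
    norm_num at h5
    linarith
  · have h4 := h.tl_le2 hr.le
    have h5 : mo 2 g r / r + tl g r = (mo 2 g r + r * tl g r) / r := by field_simp
    have h6 : 0 ≤ tot 2 g := (mo_nonneg 2 h.nonneg le_rfl).trans (h.mo_le_tot (by norm_num) le_rfl)
    rw [h5, div_le_iff₀ hr]
    nlinarith

theorem co_nonneg (h : Prof B g) {r : ℝ} (hr : 0 < r) : 0 ≤ co g r := by
  have := mo_nonneg 4 h.nonneg hr.le
  have := h.tl_nonneg hr.le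
  unfold co; positivity

theorem co_le (h : Prof B g) {r : ℝ} (hr : 0 < r) : 3 * co g r ≤ tr g r := by
  have h1 := h.mo4_le hr.le
  have h2 : tr g r - 3 * co g r = (r ^ 2 * mo 2 g r - mo 4 g r) / r ^ 3 := by
    unfold tr co; field_simp; ring
  have h3 : 0 ≤ (r ^ 2 * mo 2 g r - mo 4 g r) / r ^ 3 := div_nonneg (by linarith) (by positivity)
  linarith

end Prof

/-- mass flux identity -/
theorem flux2 {B : ℝ} {g g1 g2 w : ℝ → ℝ} (h : Prof B g) (d1 : ∀ r, HasDerivAt g (g1 r) r)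
    (d2 : ∀ r, HasDerivAt g1 (g2 r) r) (hw : Continuous w)
    (heq : ∀ r, 0 < r → w r = co g r * g2 r + (tr g r - co g r) * g1 r / r + g r ^ 2)
    {r : ℝ} (hr : 0 < r) :
    mo 2 w r = (mo 4 g r / (3 * r) + r ^ 2 * tl g r / 3) * g1 r + g r * mo 2 g r := by
  have hc := h.cont
  have hc1 : Continuous g1 := continuous_iff_continuousAt.2 fun r => (d2 r).continuousAt
  have hd : ∀ x, 0 < x → HasDerivAt
      (fun r => (mo 4 g r / (3 * r) + r ^ 2 * tl g r / 3) * g1 r + g r * mo 2 g r)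
      (w x * x ^ 2) x := by
    intro x hx
    refine (((((mo_deriv 4 hc x).div ((hasDerivAt_id x).const_mul 3) (by simp; positivity)).add
      (((hasDerivAt_pow 2 x).mul (h.tl_deriv hx)).div_const 3)).mul (d2 x)).add
      ((d1 x).mul (mo_deriv 2 hc x))).congr_deriv ?_
    rw [heq x hx]
    simp only [co, tr, id, Pi.div_apply, Pi.add_apply, Pi.mul_apply, Nat.cast_ofNat]
    field_simp
    ring
  have h0 : Tendsto (fun r => mo 4 g r / (3 * r)) (𝓝[>] 0) (𝓝 0) := by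
    have h1 := (mo_deriv 4 hc 0).tendsto_slope_zero_right.div_const 3
    simp only [zero_add, mo_zero, sub_zero, smul_eq_mul] at h1
    norm_num at h1
    refine h1.congr fun x => ?_
    field_simp
  have h1 : Tendsto (fun r => r ^ 2 * tl g r / 3) (𝓝[>] 0) (𝓝 (0 ^ 2 * tl g 0 / 3)) :=
    (((continuous_pow 2).continuousWithinAt.mul
      ((h.tl_contOn 0 self_mem_Ici).mono Ioi_subset_Ici_self))).div_const 3
  have h2 := ((h0.add h1).mul (hc1.continuousWithinAt (x := 0) (s := Ioi 0))).add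
    ((hc.mul (mo_cont 2 hc)).continuousWithinAt (x := 0) (s := Ioi 0))
  have h3 := intervalIntegral.integral_eq_sub_of_hasDerivAt_of_tendsto hr
    (fun x hx => hd x hx.1) (Continuous.intervalIntegrable (by fun_prop) _ _) h2
    (hd r hr).continuousAt.continuousWithinAt
  show (∫ y in (0:ℝ)..r, w y * y ^ 2) = _
  simpa [mo_zero] using h3

/-- energy flux identity -/
theorem flux4 {B : ℝ} {g g1 g2 w : ℝ → ℝ} (h : Prof B g) (d1 : ∀ r, HasDerivAt g (g1 r) r)
    (d2 : ∀ r, HasDerivAt g1 (g2 r) r) (hw : Continuous w)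
    (heq : ∀ r, 0 < r → w r = co g r * g2 r + (tr g r - co g r) * g1 r / r + g r ^ 2)
    {r : ℝ} (hr : 0 < r) :
    r ^ 2 * mo 2 w r - mo 4 w r
      = 2 * ((mo 4 g r + r ^ 3 * tl g r) / 3 * g r - mo 2 g r * tl g r) := by
  have hc := h.cont
  have hd : ∀ x ∈ Ioo 0 r, HasDerivAt
      (fun r => r ^ 2 * mo 2 w r - mo 4 w r
        - 2 * ((mo 4 g r + r ^ 3 * tl g r) / 3 * g r - mo 2 g r * tl g r)) 0 x := by
    intro x hx
    refine ((((hasDerivAt_pow 2 x).mul (mo_deriv 2 hw x)).sub (mo_deriv 4 hw x)).sub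
      ((((((mo_deriv 4 hc x).add ((hasDerivAt_pow 3 x).mul (h.tl_deriv hx.1))).div_const 3).mul
      (d1 x)).sub ((mo_deriv 2 hc x).mul (h.tl_deriv hx.1))).const_mul 2)).congr_deriv ?_
    rw [flux2 h d1 d2 hw heq hx.1]
    have := hx.1.ne'
    simp only [Pi.add_apply, Pi.mul_apply, Nat.cast_ofNat]
    field_simp
    ring
  have hco : ContinuousOn (fun r => r ^ 2 * mo 2 w r - mo 4 w r
        - 2 * ((mo 4 g r + r ^ 3 * tl g r) / 3 * g r - mo 2 g r * tl g r)) (Icc 0 r) := by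
    have h1 := (mo_cont 2 hw).continuousOn (s := Icc 0 r)
    have h2 := (mo_cont 4 hw).continuousOn (s := Icc 0 r)
    have h3 := (mo_cont 2 hc).continuousOn (s := Icc 0 r)
    have h4 := (mo_cont 4 hc).continuousOn (s := Icc 0 r)
    have h5 : ContinuousOn (tl g) (Icc 0 r) := h.tl_contOn.mono Icc_subset_Ici_self
    have h6 := hc.continuousOn (s := Icc 0 r)
    fun_prop
  obtain ⟨ξ, _, hξ⟩ := exists_hasDerivAt_eq_slope _ (fun _ => (0:ℝ)) hr hco hd
  simp only [mo_zero, sub_zero] at hξ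
  have := (div_eq_zero_iff.1 hξ.symm).resolve_right hr.ne'
  linarith

structure Rad (T B : ℝ) (φ φt φ1 φ2 : ℝ → ℝ → ℝ) : Prop where
  prof : ∀ t, Prof B (φ t)
  cont : Continuous (uncurry φ)
  contt : Continuous (uncurry φt)
  dt : ∀ t ∈ Ioo 0 T, ∀ r, HasDerivAt (fun τ => φ τ r) (φt t r) t
  d1 : ∀ t r, HasDerivAt (φ t) (φ1 t r) r
  d2 : ∀ t r, HasDerivAt (φ1 t) (φ2 t r) r
  eqn : ∀ t ∈ Ioo 0 T, ∀ r, 0 < r →
    φt t r = co (φ t) r * φ2 t r + (tr (φ t) r - co (φ t) r) * φ1 t r / r + φ t r ^ 2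

namespace Rad

variable {T B : ℝ} {φ φt φ1 φ2 : ℝ → ℝ → ℝ}

theorem ct (h : Rad T B φ φt φ1 φ2) (t : ℝ) : Continuous (φt t) :=
  h.contt.comp (f := fun r : ℝ => (t, r)) (by fun_prop)

theorem mo_dt (h : Rad T B φ φt φ1 φ2) (k : ℕ) {t : ℝ} (ht : t ∈ Ioo 0 T) (r : ℝ) :
    HasDerivAt (fun τ => mo k (φ τ) r) (mo k (φt t) r) t :=
  hasDerivAt_param (F := fun τ s => φ τ s * s ^ k) (Ft := fun τ s => φt τ s * s ^ k)
    (h.cont.mul (by fun_prop)) (h.contt.mul (by fun_prop))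
    (fun t ht r => (h.dt t ht r).mul_const _) ht r

end Rad

end Pool.Agent.Lib.LandauRad
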