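import Mathlib

/-! Cylindrical coordinates in three dimensions. -/

open Set Filter Topology MeasureTheory Function Real

namespace Pool.Agent.Lib.LandauRad

theorem mp3 : MeasurePreserving
    (fun u : EuclideanSpace ℝ (Fin 3) => ((u 0, (u 1, u 2)) : ℝ × ℝ × ℝ)) volume volume := by
  have h1 := ((MeasurePreserving.id (volume : Measure ℝ)).prod
    (volume_preserving_finTwoArrow ℝ)).comp
    ((volume_preserving_piFinSuccAbove (fun _ : Fin 3 => ℝ) 0).comp
    (PiLp.volume_preserving_ofLp (Fin 3)))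
  exact h1

theorem radial_sub (G : ℝ → ENNReal) (z : ℝ) :
    ∫⁻ ρ in Ioi (0:ℝ), ENNReal.ofReal ρ * G √(z ^ 2 + ρ ^ 2)
      = ∫⁻ s in Ioi |z|, ENNReal.ofReal s * G s := by
  have him : (fun ρ : ℝ => √(z ^ 2 + ρ ^ 2)) '' Ioi 0 = Ioi |z| := by
    ext s
    constructor
    · rintro ⟨ρ, hρ, rfl⟩
      have hρ' : 0 < ρ := hρ
      exact lt_sqrt_of_sq_lt (by rw [sq_abs]; nlinarith)
    · intro hs
      have hs' : |z| < s := hs
      have h1 : z ^ 2 < s ^ 2 := by
        rw [← sq_abs z]; exact pow_lt_pow_left₀ hs' (abs_nonneg z) two_ne_zero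
      refine ⟨√(s ^ 2 - z ^ 2), sqrt_pos.2 (by linarith), ?_⟩
      simp only
      rw [sq_sqrt (by linarith), add_sub_cancel, sqrt_sq ((abs_nonneg z).trans hs'.le)]
  rw [← him, lintegral_image_eq_lintegral_abs_deriv_mul measurableSet_Ioi
    (f' := fun ρ => ρ / √(z ^ 2 + ρ ^ 2))]
  · refine setLIntegral_congr_fun measurableSet_Ioi fun ρ hρ => ?_
    have hρ' : 0 < ρ := hρ
    have h1 : 0 < √(z ^ 2 + ρ ^ 2) := sqrt_pos.2 (by positivity)
    rw [← mul_assoc, ← ENNReal.ofReal_mul (abs_nonneg _), abs_of_pos (div_pos hρ' h1),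
      div_mul_cancel₀ _ h1.ne']
  · intro ρ hρ
    have hρ' : 0 < ρ := hρ
    refine ((((hasDerivAt_pow 2 ρ).const_add (z ^ 2)).sqrt (by positivity)).congr_deriv
      ?_).hasDerivWithinAt
    simp; field_simp
  · intro a ha b hb hab
    have ha' : 0 < a := ha
    have hb' : 0 < b := hb
    have := (sqrt_inj (by positivity) (by positivity)).1 hab
    exact (pow_left_inj₀ ha'.le hb'.le two_ne_zero).1 (by linarith)

theorem cyl (G : ℝ → ℝ → ENNReal) (hG : Measurable (uncurry G)) :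
    ∫⁻ u : EuclideanSpace ℝ (Fin 3), G (u 0) ‖u‖
      = ∫⁻ s in Ioi (0:ℝ), ENNReal.ofReal (2 * π * s) * ∫⁻ z in Ioo (-s) s, G z s := by
  have hm : Measurable fun p : ℝ × ℝ × ℝ => G p.1 √(p.1 ^ 2 + (p.2.1 ^ 2 + p.2.2 ^ 2)) :=
    hG.comp (f := fun p : ℝ × ℝ × ℝ => (p.1, √(p.1 ^ 2 + (p.2.1 ^ 2 + p.2.2 ^ 2)))) (by fun_prop)
  have h1 : ∫⁻ u : EuclideanSpace ℝ (Fin 3), G (u 0) ‖u‖
      = ∫⁻ p : ℝ × ℝ × ℝ, G p.1 √(p.1 ^ 2 + (p.2.1 ^ 2 + p.2.2 ^ 2)) := by
    rw [← mp3.lintegral_comp hm]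
    refine lintegral_congr fun u => ?_
    rw [EuclideanSpace.norm_eq]
    simp [Fin.sum_univ_three, add_assoc]
  have h2 : ∀ z : ℝ, ∫⁻ q : ℝ × ℝ, G z √(z ^ 2 + (q.1 ^ 2 + q.2 ^ 2))
      = ∫⁻ s in Ioi |z|, ENNReal.ofReal (2 * π * s) * G z s := by
    intro z
    have hz : Measurable (G z) := hG.comp (f := fun s : ℝ => (z, s)) (by fun_prop)
    rw [← lintegral_comp_polarCoord_symm, polarCoord_target]
    have e1 : ∀ p : ℝ × ℝ, ENNReal.ofReal p.1 • G z √(z ^ 2 + ((polarCoord.symm p).1 ^ 2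
        + (polarCoord.symm p).2 ^ 2)) = ENNReal.ofReal p.1 * G z √(z ^ 2 + p.1 ^ 2) := by
      intro p
      rw [smul_eq_mul, polarCoord_symm_apply]
      congr 4
      simp only [mul_pow]
      rw [← mul_add, cos_sq_add_sin_sq, mul_one]
    simp only [e1]
    rw [Measure.volume_eq_prod, ← Measure.prod_restrict, lintegral_prod _ (by fun_prop)]
    simp only [lintegral_const, Measure.restrict_apply MeasurableSet.univ, univ_inter,
      Real.volume_Ioo]
    rw [lintegral_mul_const' _ _ ENNReal.ofReal_ne_top, radial_sub,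
      ← lintegral_mul_const' _ _ ENNReal.ofReal_ne_top]
    refine lintegral_congr fun s => ?_
    rw [show 2 * π * s = (π - -π) * s by ring, ENNReal.ofReal_mul (by linarith [pi_pos])]
    ring
  rw [h1, Measure.volume_eq_prod, lintegral_prod _ hm.aemeasurable]
  simp only [h2]
  set F : ℝ → ℝ → ENNReal := fun z s =>
    indicator {p : ℝ × ℝ | |p.1| < p.2} (fun p => ENNReal.ofReal (2 * π * p.2) * G p.1 p.2) (z, s)
    with hF
  have hFm : Measurable (uncurry F) :=
    Measurable.indicator (Measurable.mul (by fun_prop) hG)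
      (measurableSet_lt (by fun_prop) measurable_snd)
  have e2 : ∀ z : ℝ, ∫⁻ s in Ioi |z|, ENNReal.ofReal (2 * π * s) * G z s = ∫⁻ s, F z s := by
    intro z
    rw [← lintegral_indicator measurableSet_Ioi]
    rfl
  simp only [e2]
  rw [lintegral_lintegral_swap hFm.aemeasurable, ← lintegral_indicator measurableSet_Ioi]
  refine lintegral_congr fun s => ?_
  have e3 : ∫⁻ z, F z s = ENNReal.ofReal (2 * π * s) * ∫⁻ z in Ioo (-s) s, G z s := by
    rw [← lintegral_const_mul' _ _ ENNReal.ofReal_ne_top, ← lintegral_indicator measurableSet_Ioo]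
    refine lintegral_congr fun z => ?_
    simp only [hF, indicator, mem_ofPred_eq, mem_Ioo, abs_lt]
  rw [e3]
  by_cases hs : s ∈ Ioi (0:ℝ)
  · rw [indicator_of_mem hs]
  · rw [indicator_of_notMem hs, Ioo_eq_empty (by simp at hs ⊢; linarith)]
    simp

end Pool.Agent.Lib.LandauRad
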