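import Mathlib

/-! Classical solutions of the space-homogeneous Landau-Coulomb equation. -/

open Set MeasureTheory Real

namespace Pool.Agent.Lib.LandauRad

/-- The kernel `(|w|^2 δ_ij - w_i w_j) |w|^(-3)`. -/
noncomputable def kern (w : EuclideanSpace ℝ (Fin 3)) (i j : Fin 3) : ℝ :=
  (‖w‖ ^ 2 * (if i = j then 1 else 0) - w i * w j) / ‖w‖ ^ 3

/-- The coefficient `a_ij(v) = (1/8π) ∫ kern(w) g(v - w) dw`. -/
noncomputable def abar (g : EuclideanSpace ℝ (Fin 3) → ℝ) (v : EuclideanSpace ℝ (Fin 3))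
    (i j : Fin 3) : ℝ :=
  1 / (8 * π) * ∫ w, kern w i j * g (v - w)

/-- The derivative in the `i`-th coordinate direction. -/
noncomputable def pd (i : Fin 3) (g : EuclideanSpace ℝ (Fin 3) → ℝ)
    (v : EuclideanSpace ℝ (Fin 3)) : ℝ :=
  fderiv ℝ g v (EuclideanSpace.single i 1)

/-- Classical solution on `[0,T] × ℝ^3`. -/
structure IsClassical (T : ℝ) (f : ℝ → EuclideanSpace ℝ (Fin 3) → ℝ) : Prop where
  nonneg : ∀ t ∈ Icc 0 T, ∀ v, 0 ≤ f t v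
  bdd : ∃ B, ∀ t ∈ Icc 0 T, ∀ v, f t v ≤ B
  cont : ContinuousOn (fun p : ℝ × EuclideanSpace ℝ (Fin 3) => f p.1 p.2) (Icc 0 T ×ˢ univ)
  c2 : ∀ t ∈ Icc 0 T, ContDiff ℝ 2 (f t)
  l12 : ∀ t ∈ Icc 0 T, Integrable fun v => f t v * (1 + ‖v‖ ^ 2)
  coef : ∀ t ∈ Icc 0 T, ∀ v i j, Integrable fun w => kern w i j * f t (v - w)
  eqn : ∃ ft : ℝ → EuclideanSpace ℝ (Fin 3) → ℝ,
    ContinuousOn (fun p : ℝ × EuclideanSpace ℝ (Fin 3) => ft p.1 p.2) (Icc 0 T ×ˢ univ) ∧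
    ∀ t ∈ Icc 0 T, ∀ v, HasDerivWithinAt (fun s => f s v) (ft t v) (Icc 0 T) t ∧
      ft t v = ∑ i, ∑ j, abar (f t) v i j * pd i (pd j (f t)) v + f t v ^ 2

end Pool.Agent.Lib.LandauRad
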