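import Pool.Agent.Lib.MP_33b301_mp.Basic

/-! Truncated moments of Gaussians. -/

open Set Filter Topology MeasureTheory Function Real

namespace Pool.Agent.Lib.LandauRad

/-- truncated moment -/
noncomputable def mo (k : ℕ) (g : ℝ → ℝ) (r : ℝ) : ℝ := ∫ s in (0:ℝ)..r, g s * s ^ k

noncomputable def ga (β s : ℝ) : ℝ := exp (-β * s ^ 2 / 2)

noncomputable def sg (β r : ℝ) : ℝ := mo 6 (ga β) r / mo 4 (ga β) r

theorem mo_zero (k : ℕ) (g : ℝ → ℝ) : mo k g 0 = 0 := by simp [mo]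

theorem mo_deriv (k : ℕ) {g : ℝ → ℝ} (hg : Continuous g) (r : ℝ) :
    HasDerivAt (mo k g) (g r * r ^ k) r :=
  (Continuous.integral_hasStrictDerivAt (f := fun s => g s * s ^ k) (by fun_prop) 0 r).hasDerivAt

theorem mo_cont (k : ℕ) {g : ℝ → ℝ} (hg : Continuous g) : Continuous (mo k g) :=
  continuous_iff_continuousAt.2 fun r => (mo_deriv k hg r).continuousAt

theorem mo_cont2 (k : ℕ) {g : ℝ → ℝ → ℝ} (hg : Continuous (uncurry g)) :
    Continuous (fun p : ℝ × ℝ => mo k (g p.1) p.2) :=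
  intervalIntegral.continuous_parametric_primitive_of_continuous
    (f := fun a s => g a s * s ^ k) (hg.mul (by fun_prop))

theorem mo_nonneg (k : ℕ) {g : ℝ → ℝ} (hg : ∀ s, 0 ≤ g s) {r : ℝ} (hr : 0 ≤ r) : 0 ≤ mo k g r :=
  intervalIntegral.integral_nonneg hr fun s hs => mul_nonneg (hg s) (pow_nonneg hs.1 k)

theorem mo_const (k : ℕ) (B r : ℝ) : mo k (fun _ => B) r = B * r ^ (k + 1) / (k + 1) := by
  simp [mo, intervalIntegral.integral_const_mul, mul_div_assoc]

theorem mo_mono (k : ℕ) {g h : ℝ → ℝ} (hg : Continuous g) (hh : Continuous h) {r : ℝ}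
    (hr : 0 ≤ r) (hle : ∀ s ∈ Icc 0 r, g s ≤ h s) : mo k g r ≤ mo k h r :=
  intervalIntegral.integral_mono_on hr (Continuous.intervalIntegrable (by fun_prop) _ _)
    (Continuous.intervalIntegrable (by fun_prop) _ _)
    fun s hs => mul_le_mul_of_nonneg_right (hle s hs) (pow_nonneg hs.1 k)

theorem mo_le (k : ℕ) {g : ℝ → ℝ} (hg : Continuous g) {B r : ℝ}
    (hr : 0 ≤ r) (hle : ∀ s, g s ≤ B) : mo k g r ≤ B * r ^ (k + 1) / (k + 1) := by
  rw [← mo_const]; exact mo_mono k hg continuous_const hr fun s _ => hle s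

theorem ga_pos (β s : ℝ) : 0 < ga β s := exp_pos _

theorem ga_cont2 : Continuous (uncurry ga) := by
  unfold ga uncurry; fun_prop

theorem ga_cont (β : ℝ) : Continuous (ga β) := by unfold ga; fun_prop

theorem ga_deriv (β s : ℝ) : HasDerivAt (ga β) (-β * s * ga β s) s := by
  have h : HasDerivAt (fun s : ℝ => -β * s ^ 2 / 2) (-β * s) s :=
    (((hasDerivAt_pow 2 s).const_mul (-β)).div_const 2).congr_deriv (by simp; ring)
  exact h.exp.congr_deriv (by unfold ga; ring)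

theorem ga_zero (s : ℝ) : ga 0 s = 1 := by simp [ga]

theorem eq_of_deriv {f g f' : ℝ → ℝ} (hf : ∀ x, HasDerivAt f (f' x) x)
    (hg : ∀ x, HasDerivAt g (f' x) x) (h0 : f 0 = g 0) (r : ℝ) : f r = g r := by
  have h : ∀ x, HasDerivAt (fun x => f x - g x) 0 x := fun x =>
    ((hf x).sub (hg x)).congr_deriv (sub_self _)
  have := is_const_of_deriv_eq_zero (f := fun x => f x - g x)
    (fun x => (h x).differentiableAt) (fun x => (h x).deriv) r 0
  linarith

theorem ga_rec (k : ℕ) (β r : ℝ) :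
    β * mo (k + 2) (ga β) r = (k + 1) * mo k (ga β) r - r ^ (k + 1) * ga β r := by
  refine eq_of_deriv (f := fun r => β * mo (k + 2) (ga β) r)
    (g := fun r => (k + 1) * mo k (ga β) r - r ^ (k + 1) * ga β r)
    (f' := fun r => β * (ga β r * r ^ (k + 2)))
    (fun x => (mo_deriv _ (ga_cont β) x).const_mul β) (fun x => ?_) (by simp [mo_zero]) r
  refine (((mo_deriv _ (ga_cont β) x).const_mul _).sub
    ((hasDerivAt_pow (k + 1) x).mul (ga_deriv β x))).congr_deriv ?_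
  simp only [Nat.add_sub_cancel]
  push_cast
  ring

theorem ga_rec0 (β r : ℝ) : β * mo 2 (ga β) r = mo 0 (ga β) r - r * ga β r := by
  simpa using ga_rec 0 β r

theorem ga_rec2 (β r : ℝ) : β * mo 4 (ga β) r = 3 * mo 2 (ga β) r - r ^ 3 * ga β r := by
  have := ga_rec 2 β r; norm_num at this; exact this

theorem ga_rec4 (β r : ℝ) : β * mo 6 (ga β) r = 5 * mo 4 (ga β) r - r ^ 5 * ga β r := by
  have := ga_rec 4 β r; norm_num at this; exact this

theorem mo_ga_pos (k : ℕ) (β : ℝ) {r : ℝ} (hr : 0 < r) : 0 < mo k (ga β) r :=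
  intervalIntegral.intervalIntegral_pos_of_pos_on
    (Continuous.intervalIntegrable (by have := ga_cont β; fun_prop) _ _)
    (fun s hs => mul_pos (ga_pos β s) (pow_pos hs.1 k)) hr

theorem lam_pos (β : ℝ) {r : ℝ} (hr : 0 < r) : 0 < r ^ 2 * mo 4 (ga β) r - mo 6 (ga β) r := by
  have hc := ga_cont β
  have : r ^ 2 * mo 4 (ga β) r - mo 6 (ga β) r
      = ∫ s in (0:ℝ)..r, ga β s * s ^ 4 * (r ^ 2 - s ^ 2) := by
    unfold mo
    rw [← intervalIntegral.integral_const_mul, ← intervalIntegral.integral_sub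
      (Continuous.intervalIntegrable (by fun_prop) _ _)
      (Continuous.intervalIntegrable (by fun_prop) _ _)]
    exact intervalIntegral.integral_congr fun s _ => by ring
  rw [this]
  exact intervalIntegral.intervalIntegral_pos_of_pos_on
    (Continuous.intervalIntegrable (by fun_prop) _ _)
    (fun s hs => mul_pos (mul_pos (ga_pos β s) (pow_pos hs.1 4)) (by nlinarith [hs.1, hs.2])) hr

theorem sg_pos (β : ℝ) {r : ℝ} (hr : 0 < r) : 0 < sg β r :=
  div_pos (mo_ga_pos 6 β hr) (mo_ga_pos 4 β hr)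

theorem sg_mul (β : ℝ) {r : ℝ} (hr : 0 < r) : sg β r * mo 4 (ga β) r = mo 6 (ga β) r :=
  div_mul_cancel₀ _ (mo_ga_pos 4 β hr).ne'

theorem sg_lt (β : ℝ) {r : ℝ} (hr : 0 < r) : sg β r < r ^ 2 := by
  rw [sg, div_lt_iff₀ (mo_ga_pos 4 β hr)]
  linarith [lam_pos β hr]

theorem sg_le (β : ℝ) {r : ℝ} (hr : 0 < r) : β * sg β r ≤ 5 := by
  have h1 := ga_rec4 β r
  have h2 := sg_mul β hr
  have h3 := mo_ga_pos 4 β hr
  have h4 : 0 < r ^ 5 * ga β r := mul_pos (pow_pos hr 5) (ga_pos β r)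
  have h5 : β * sg β r * mo 4 (ga β) r ≤ 5 * mo 4 (ga β) r := by
    rw [mul_assoc, h2]; linarith
  exact le_of_mul_le_mul_right h5 h3

theorem sg_cont : ContinuousOn (fun p : ℝ × ℝ => sg p.1 p.2) {p | 0 < p.2} :=
  (mo_cont2 6 ga_cont2).continuousOn.div (mo_cont2 4 ga_cont2).continuousOn
    fun p hp => (mo_ga_pos 4 p.1 hp).ne'

theorem exp_conc {a b c : ℝ} (ha : 0 ≤ a) (hab : a ≤ b) (hb : 0 < b) :
    a * (1 - exp (c * b)) ≤ b * (1 - exp (c * a)) := by
  have h := convexOn_exp.2 (mem_univ (0:ℝ)) (mem_univ (c * b))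
    (show 0 ≤ 1 - a / b by rw [sub_nonneg, div_le_one hb]; exact hab)
    (show 0 ≤ a / b by positivity) (by ring)
  simp only [smul_eq_mul, mul_zero, zero_add, exp_zero, mul_one] at h
  have h1 : a / b * (c * b) = c * a := by field_simp
  rw [h1] at h
  have h2 := mul_le_mul_of_nonneg_left h hb.le
  have h3 : b * (1 - a / b + a / b * exp (c * b)) = b - a + a * exp (c * b) := by field_simp
  rw [h3] at h2
  linarith

theorem ga_shift (β β' s : ℝ) : ga β' s = ga β s * exp (-(β' - β) / 2 * s ^ 2) := by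
  unfold ga; rw [← exp_add]; congr 1; ring

/-- the maximum property in the exponent -/
theorem sg_max (β β' : ℝ) {r : ℝ} (hr : 0 < r) :
    sg β r * mo 2 (ga β') r - mo 4 (ga β') r ≤ sg β r * mo 2 (ga β) r - mo 4 (ga β) r := by
  set σ := sg β r with hσ
  have hσp : 0 < σ := sg_pos β hr
  set c := -(β' - β) / 2
  have hc := ga_cont β
  have hc' := ga_cont β'
  have h1 : 0 ≤ ∫ s in (0:ℝ)..r, ga β s * s ^ 2 * ((σ - s ^ 2) *
      (σ * (1 - exp (c * s ^ 2)) - s ^ 2 * (1 - exp (c * σ)))) := by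
    refine intervalIntegral.integral_nonneg hr.le fun s hs => ?_
    refine mul_nonneg (mul_nonneg (ga_pos β s).le (sq_nonneg s)) ?_
    rcases le_total (s ^ 2) σ with h | h
    · exact mul_nonneg (sub_nonneg.2 h) (sub_nonneg.2 (exp_conc (sq_nonneg s) h hσp))
    · exact mul_nonneg_of_nonpos_of_nonpos (sub_nonpos.2 h)
        (sub_nonpos.2 (exp_conc hσp.le h (hσp.trans_le h)))
  have h2 : ∫ s in (0:ℝ)..r, ga β s * s ^ 2 * ((σ - s ^ 2) *
      (σ * (1 - exp (c * s ^ 2)) - s ^ 2 * (1 - exp (c * σ)))) =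
      σ * ((σ * mo 2 (ga β) r - mo 4 (ga β) r) - (σ * mo 2 (ga β') r - mo 4 (ga β') r))
        - (1 - exp (c * σ)) * (σ * mo 4 (ga β) r - mo 6 (ga β) r) := by
    refine eq_of_deriv (f := fun r => ∫ s in (0:ℝ)..r, ga β s * s ^ 2 * ((σ - s ^ 2) *
      (σ * (1 - exp (c * s ^ 2)) - s ^ 2 * (1 - exp (c * σ)))))
      (g := fun r => σ * ((σ * mo 2 (ga β) r - mo 4 (ga β) r)
        - (σ * mo 2 (ga β') r - mo 4 (ga β') r))
        - (1 - exp (c * σ)) * (σ * mo 4 (ga β) r - mo 6 (ga β) r))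
      (fun x => (Continuous.integral_hasStrictDerivAt (by fun_prop) 0 x).hasDerivAt)
      (fun x => ?_) (by simp [mo_zero]) r
    refine ((((((mo_deriv 2 hc x).const_mul σ).sub (mo_deriv 4 hc x)).sub
      (((mo_deriv 2 hc' x).const_mul σ).sub (mo_deriv 4 hc' x))).const_mul σ).sub
      ((((mo_deriv 4 hc x).const_mul σ).sub (mo_deriv 6 hc x)).const_mul _)).congr_deriv ?_
    rw [ga_shift β β' x]; ring
  rw [h2, hσ, sg_mul β hr, sub_self, mul_zero, sub_zero] at h1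
  have := nonneg_of_mul_nonneg_right h1 hσp
  linarith

theorem sg_anti {β β' : ℝ} (h : β < β') {r : ℝ} (hr : 0 < r) : sg β' r < sg β r := by
  set σ := sg β r with hσ
  have hσp : 0 < σ := sg_pos β hr
  have hσr : σ < r ^ 2 := sg_lt β hr
  set c := -(β' - β) / 2 with hcdef
  have hc0 : c < 0 := by rw [hcdef]; linarith
  have hc := ga_cont β
  have hc' := ga_cont β'
  have h1 : 0 < ∫ s in (0:ℝ)..r, ga β s * s ^ 4 * ((σ - s ^ 2) *
      (exp (c * s ^ 2) - exp (c * σ))) := by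
    refine intervalIntegral.integral_pos hr (by fun_prop) (fun s hs => ?_)
      ⟨r, ⟨hr.le, le_rfl⟩, ?_⟩
    · refine mul_nonneg (mul_nonneg (ga_pos β s).le (by positivity)) ?_
      rcases le_total (s ^ 2) σ with h | h
      · exact mul_nonneg (sub_nonneg.2 h) (sub_nonneg.2 (exp_le_exp.2 (by nlinarith)))
      · exact mul_nonneg_of_nonpos_of_nonpos (sub_nonpos.2 h)
          (sub_nonpos.2 (exp_le_exp.2 (by nlinarith)))
    · exact mul_pos (mul_pos (ga_pos β r) (by positivity))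
        (mul_pos_of_neg_of_neg (by linarith) (sub_neg.2 (exp_lt_exp.2 (by nlinarith))))
  have h2 : ∫ s in (0:ℝ)..r, ga β s * s ^ 4 * ((σ - s ^ 2) *
      (exp (c * s ^ 2) - exp (c * σ))) =
      (σ * mo 4 (ga β') r - mo 6 (ga β') r)
        - exp (c * σ) * (σ * mo 4 (ga β) r - mo 6 (ga β) r) := by
    refine eq_of_deriv (f := fun r => ∫ s in (0:ℝ)..r, ga β s * s ^ 4 * ((σ - s ^ 2) *
      (exp (c * s ^ 2) - exp (c * σ))))
      (g := fun r => (σ * mo 4 (ga β') r - mo 6 (ga β') r)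
        - exp (c * σ) * (σ * mo 4 (ga β) r - mo 6 (ga β) r))
      (fun x => (Continuous.integral_hasStrictDerivAt (by fun_prop) 0 x).hasDerivAt)
      (fun x => ?_) (by simp [mo_zero]) r
    refine ((((mo_deriv 4 hc' x).const_mul σ).sub (mo_deriv 6 hc' x)).sub
      ((((mo_deriv 4 hc x).const_mul σ).sub (mo_deriv 6 hc x)).const_mul _)).congr_deriv ?_
    rw [ga_shift β β' x]; ring
  rw [h2, hσ, sg_mul β hr, sub_self, mul_zero, sub_zero] at h1
  rw [sg, div_lt_iff₀ (mo_ga_pos 4 β' hr)]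
  linarith

theorem ga_tendsto {β : ℝ} (hβ : 0 < β) : Tendsto (fun R => R * ga β R) atTop (𝓝 0) := by
  have h1 : Tendsto (fun R : ℝ => β / 2 * R ^ 2) atTop atTop :=
    (tendsto_pow_atTop two_ne_zero).const_mul_atTop (half_pos hβ)
  have h2 := ((tendsto_pow_mul_exp_neg_atTop_nhds_zero 1).comp h1).const_mul (2 / β)
  rw [mul_zero] at h2
  refine squeeze_zero' ?_ ?_ h2
  · filter_upwards [eventually_ge_atTop 0] with R hR using mul_nonneg hR (ga_pos β R).le
  · filter_upwards [eventually_ge_atTop 1] with R hR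
    have h3 : ga β R = exp (-(β / 2 * R ^ 2)) := by unfold ga; congr 1; ring
    have h4 : 2 / β * ((fun x => x ^ 1 * exp (-x)) ∘ fun R : ℝ => β / 2 * R ^ 2) R
        = R ^ 2 * exp (-(β / 2 * R ^ 2)) := by
      simp only [comp, pow_one]; field_simp
    rw [h4, h3]
    exact mul_le_mul_of_nonneg_right (by nlinarith) (exp_pos _).le

theorem mo0_tendsto {β : ℝ} (hβ : 0 < β) :
    Tendsto (mo 0 (ga β)) atTop (𝓝 (√(π / (β / 2)) / 2)) := by
  rw [← integral_gaussian_Ioi]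
  have h := intervalIntegral_tendsto_integral_Ioi 0
    (integrable_exp_neg_mul_sq (half_pos hβ)).integrableOn tendsto_id
  refine h.congr fun R => ?_
  unfold mo ga
  refine intervalIntegral.integral_congr fun s _ => ?_
  simp only [pow_zero, mul_one]; congr 1; ring

theorem K_ge0 {σ r : ℝ} (hσ : 0 < σ) (hr : 0 < r) (hσr : σ ≤ r ^ 2) :
    2 / 15 * σ ^ 2 * √σ ≤ √(250 / (9 * π)) * (σ * mo 2 (ga (5 / σ)) r - mo 4 (ga (5 / σ)) r) := by
  set β := 5 / σ with hβ
  have hβp : 0 < β := by positivity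
  have hc := ga_cont β
  have hanti : AntitoneOn (fun R => σ * mo 2 (ga β) R - mo 4 (ga β) R) (Ici r) := by
    have hd : ∀ x, HasDerivAt (fun R => σ * mo 2 (ga β) R - mo 4 (ga β) R)
        (σ * (ga β x * x ^ 2) - ga β x * x ^ 4) x :=
      fun x => ((mo_deriv 2 hc x).const_mul σ).sub (mo_deriv 4 hc x)
    refine antitoneOn_of_deriv_nonpos (convex_Ici r)
      (fun x _ => (hd x).continuousAt.continuousWithinAt)
      (fun x _ => (hd x).differentiableAt.differentiableWithinAt) fun x hx => ?_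
    rw [(hd x).deriv]
    rw [interior_Ici] at hx
    have hx' : r < x := hx
    have h1 : σ ≤ x ^ 2 := by nlinarith
    have h2 : 0 ≤ ga β x * x ^ 2 := mul_nonneg (ga_pos β x).le (sq_nonneg x)
    nlinarith [mul_nonneg h2 (sub_nonneg.2 h1)]
  have hlim := (((mo0_tendsto hβp).sub (ga_tendsto hβp)).const_mul (2 * σ ^ 2 / 25))
  have h1 : 2 * σ ^ 2 / 25 * (√(π / (β / 2)) / 2 - 0) ≤ σ * mo 2 (ga β) r - mo 4 (ga β) r := by
    refine le_of_tendsto hlim ?_
    filter_upwards [eventually_ge_atTop r] with R hR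
    refine le_trans ?_ (hanti (mem_Ici.2 le_rfl) hR hR)
    have e0 := ga_rec0 β R
    have e2 := ga_rec2 β R
    have hσβ : σ * β = 5 := by rw [hβ]; field_simp
    have h3 : 0 ≤ R ^ 3 * ga β R := mul_nonneg (pow_nonneg (hr.le.trans hR) 3) (ga_pos β R).le
    have f2 : mo 2 (ga β) R = σ / 5 * (mo 0 (ga β) R - R * ga β R) := by
      rw [← e0, ← mul_assoc, div_mul_eq_mul_div, hσβ]; ring
    have f4 : mo 4 (ga β) R = σ / 5 * (3 * mo 2 (ga β) R - R ^ 3 * ga β R) := by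
      rw [← e2, ← mul_assoc, div_mul_eq_mul_div, hσβ]; ring
    show 2 * σ ^ 2 / 25 * (mo 0 (ga β) R - R * ga β R) ≤ σ * mo 2 (ga β) R - mo 4 (ga β) R
    rw [f4, f2]
    nlinarith [mul_nonneg hσ.le h3]
  have h2 : √(250 / (9 * π)) * √(π / (β / 2)) = 10 / 3 * √σ := by
    rw [← sqrt_mul (by positivity)]
    have : 250 / (9 * π) * (π / (β / 2)) = (10 / 3) ^ 2 * σ := by
      rw [hβ]; field_simp; norm_num
    rw [this, sqrt_mul (by positivity), sqrt_sq (by norm_num)]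
  calc 2 / 15 * σ ^ 2 * √σ = √(250 / (9 * π)) * (2 * σ ^ 2 / 25 * (√(π / (β / 2)) / 2 - 0)) := by
        linear_combination (-(σ ^ 2) / 25) * h2
    _ ≤ _ := mul_le_mul_of_nonneg_left h1 (sqrt_nonneg _)

theorem K_ge (β : ℝ) {r : ℝ} (hr : 0 < r) :
    2 / 15 * sg β r ^ 2 * √(sg β r)
      ≤ √(250 / (9 * π)) * (sg β r * mo 2 (ga β) r - mo 4 (ga β) r) :=
  (K_ge0 (sg_pos β hr) hr (sg_lt β hr).le).trans
    (mul_le_mul_of_nonneg_left (sg_max β _ hr) (sqrt_nonneg _))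

theorem K_nonneg (β : ℝ) {r : ℝ} (hr : 0 < r) : 0 ≤ sg β r * mo 2 (ga β) r - mo 4 (ga β) r := by
  have h := K_ge β hr
  have h1 : 0 < √(250 / (9 * π)) := by positivity
  exact nonneg_of_mul_nonneg_right (le_trans (by positivity) h) h1

/-- bathtub principle -/
theorem bathtub {g : ℝ → ℝ} (hg : Continuous g) {S σ r : ℝ} (h0 : ∀ s, 0 ≤ g s)
    (hS : ∀ s, g s ≤ S) (hσ : 0 < σ) (hr : 0 < r) (hσr : σ ≤ r ^ 2) :
    σ * mo 2 g r - mo 4 g r ≤ S * (2 / 15 * σ ^ 2 * √σ) := by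
  set q := √σ with hq
  have hq0 : 0 < q := sqrt_pos.2 hσ
  have hq2 : q ^ 2 = σ := sq_sqrt hσ.le
  have hqr : q ≤ r := by rw [hq, sqrt_le_left hr.le]; exact hσr
  have hd : ∀ x, HasDerivAt (fun R => σ * mo 2 g R - mo 4 g R)
      (σ * (g x * x ^ 2) - g x * x ^ 4) x :=
    fun x => ((mo_deriv 2 hg x).const_mul σ).sub (mo_deriv 4 hg x)
  have hanti : AntitoneOn (fun R => σ * mo 2 g R - mo 4 g R) (Ici q) := by
    refine antitoneOn_of_deriv_nonpos (convex_Ici q)
      (fun x _ => (hd x).continuousAt.continuousWithinAt)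
      (fun x _ => (hd x).differentiableAt.differentiableWithinAt) fun x hx => ?_
    rw [(hd x).deriv]
    rw [interior_Ici] at hx
    have hx' : q < x := hx
    have h1 : σ ≤ x ^ 2 := by nlinarith
    have h2 : 0 ≤ g x * x ^ 2 := mul_nonneg (h0 x) (sq_nonneg x)
    nlinarith [mul_nonneg h2 (sub_nonneg.2 h1)]
  have hd2 : ∀ x, HasDerivAt (fun R => S * (σ * R ^ 3 / 3 - R ^ 5 / 5) - (σ * mo 2 g R - mo 4 g R))
      ((S - g x) * (x ^ 2 * (σ - x ^ 2))) x := fun x =>
    ((((((hasDerivAt_pow 3 x).const_mul σ).div_const 3).sub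
      ((hasDerivAt_pow 5 x).div_const 5)).const_mul S).sub (hd x)).congr_deriv (by simp; ring)
  have hmono : MonotoneOn
      (fun R => S * (σ * R ^ 3 / 3 - R ^ 5 / 5) - (σ * mo 2 g R - mo 4 g R)) (Icc 0 q) := by
    refine monotoneOn_of_deriv_nonneg (convex_Icc 0 q)
      (fun x _ => (hd2 x).continuousAt.continuousWithinAt)
      (fun x _ => (hd2 x).differentiableAt.differentiableWithinAt) fun x hx => ?_
    rw [(hd2 x).deriv]
    rw [interior_Icc] at hx
    exact mul_nonneg (sub_nonneg.2 (hS x)) (mul_nonneg (sq_nonneg x) (by nlinarith [hx.1, hx.2]))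
  have h1 := hanti (mem_Ici.2 le_rfl) hqr hqr
  have h2 := hmono ⟨le_rfl, hq0.le⟩ ⟨hq0.le, le_rfl⟩ hq0.le
  simp only [mo_zero] at h1 h2
  have h3 : S * (2 / 15 * σ ^ 2 * q) = S * (σ * q ^ 3 / 3 - q ^ 5 / 5) := by rw [← hq2]; ring
  rw [h3]
  norm_num at h2
  linarith

end Pool.Agent.Lib.LandauRad
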