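import Pool.Agent.Lib.MP_33b301_mp.Cyl
import Pool.Agent.Lib.MP_33b301_mp.Core

/-! The Landau coefficients of a radial function. -/

open Set Filter Topology MeasureTheory Function Real

namespace Pool.Agent.Lib.LandauRad

theorem cyl_real {k : ℝ → ℝ → ℝ} {κ g : ℝ → ℝ} (hk : Measurable (uncurry k)) (hκ : Measurable κ)
    (hg : Continuous g) (hg0 : ∀ s, 0 ≤ g s) (hk0 : ∀ z s, |z| ≤ s → 0 ≤ k z s)
    (hκ0 : ∀ s, 0 < s → 0 ≤ κ s) {r : ℝ}
    (hin : ∀ s, 0 < s → s ≠ r → ContinuousOn (fun z => k z s) (Icc (-s) s) ∧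
      ∫ z in (-s)..s, k z s = κ s) :
    ∫ u : EuclideanSpace ℝ (Fin 3), k (u 0) ‖u‖ * g ‖u‖
      = ∫ s in Ioi (0:ℝ), 2 * π * s * (κ s * g s) := by
  have hgm := hg.measurable
  rw [integral_eq_lintegral_of_nonneg_ae (Eventually.of_forall fun u => mul_nonneg
      (hk0 _ _ (by simpa using PiLp.norm_apply_le u 0)) (hg0 _))
    (Measurable.aestronglyMeasurable ((hk.comp
      (f := fun u : EuclideanSpace ℝ (Fin 3) => (u 0, ‖u‖)) (by fun_prop)).mul (by fun_prop))),
    integral_eq_lintegral_of_nonneg_ae ((ae_restrict_iff' measurableSet_Ioi).2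
      (Eventually.of_forall fun s hs => by
        have hs' : 0 < s := hs
        have := hκ0 s hs'
        have := hg0 s
        positivity))
    (Measurable.aestronglyMeasurable (by fun_prop)),
    cyl (fun z s => ENNReal.ofReal (k z s * g s))
      (ENNReal.measurable_ofReal.comp (hk.mul (hgm.comp measurable_snd)))]
  congr 1
  refine lintegral_congr_ae ((ae_restrict_iff' measurableSet_Ioi).2 ?_)
  filter_upwards [compl_mem_ae_iff.2 (measure_singleton r)] with s hsr hs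
  have hs' : 0 < s := hs
  obtain ⟨h1, h2⟩ := hin s hs' hsr
  rw [ENNReal.ofReal_mul (p := 2 * π * s) (by positivity), ← h2, intervalIntegral.integral_of_le (by linarith),
    integral_Ioc_eq_integral_Ioo, ← integral_mul_const, ofReal_integral_eq_lintegral_ofReal]
  · exact ((h1.integrableOn_Icc).mono_set Ioo_subset_Icc_self).mul_const _
  · exact (ae_restrict_iff' measurableSet_Ioo).2 (Eventually.of_forall fun z hz =>
      mul_nonneg (hk0 z s (abs_le.2 ⟨hz.1.le, hz.2.le⟩)) (hg0 s))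

noncomputable def dd (r s z : ℝ) : ℝ := √(r ^ 2 + s ^ 2 - 2 * r * z)

theorem dd_arg {r s z : ℝ} (hr : 0 < r) (hsr : s ≠ r) (hz : z ∈ Icc (-s) s) :
    0 < r ^ 2 + s ^ 2 - 2 * r * z := by
  have h1 : 0 < (s - r) ^ 2 := by have := sub_ne_zero.2 hsr; positivity
  nlinarith [mul_le_mul_of_nonneg_left hz.2 hr.le]

theorem dd_deriv {r s z : ℝ} (hr : 0 < r) (hsr : s ≠ r) (hz : z ∈ Icc (-s) s) :
    HasDerivAt (dd r s) (-r / dd r s z) z :=
  ((((hasDerivAt_id z).const_mul (2 * r)).const_sub (r ^ 2 + s ^ 2)).sqrt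
    (dd_arg hr hsr hz).ne').congr_deriv (by simp only [id, dd]; field_simp)

theorem dd_left {r s : ℝ} (hr : 0 < r) (hs : 0 < s) : dd r s (-s) = r + s := by
  rw [dd, show r ^ 2 + s ^ 2 - 2 * r * -s = (r + s) ^ 2 by ring, sqrt_sq (by positivity)]

theorem dd_right (r s : ℝ) : dd r s s = |r - s| := by
  rw [dd, show r ^ 2 + s ^ 2 - 2 * r * s = (r - s) ^ 2 by ring, sqrt_sq_eq_abs]

theorem inner1 {r s : ℝ} (hr : 0 < r) (hs : 0 < s) (hsr : s ≠ r) :
    ContinuousOn (fun z => 2 / dd r s z) (Icc (-s) s) ∧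
      ∫ z in (-s)..s, 2 / dd r s z = 4 * s / max r s := by
  have hp : ∀ z ∈ Icc (-s) s, 0 < dd r s z := fun z hz => sqrt_pos.2 (dd_arg hr hsr hz)
  have hc : ContinuousOn (fun z => 2 / dd r s z) (Icc (-s) s) :=
    continuousOn_const.div (by unfold dd; fun_prop) fun z hz => (hp z hz).ne'
  refine ⟨hc, ?_⟩
  have hle : -s ≤ s := by linarith
  rw [intervalIntegral.integral_eq_sub_of_hasDerivAt (f := fun z => -2 / r * dd r s z)
    (fun z hz => ((dd_deriv hr hsr (uIcc_of_le hle ▸ hz)).const_mul _).congr_deriv (by field_simp))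
    (hc.intervalIntegrable_of_Icc hle), dd_left hr hs, dd_right]
  rcases le_total r s with h | h
  · rw [max_eq_right h, abs_of_nonpos (by linarith)]; field_simp; ring
  · rw [max_eq_left h, abs_of_nonneg (by linarith)]; field_simp; ring

theorem inner2 {r s : ℝ} (hr : 0 < r) (hs : 0 < s) (hsr : s ≠ r) :
    ContinuousOn (fun z => (s ^ 2 - z ^ 2) / dd r s z ^ 3) (Icc (-s) s) ∧
      ∫ z in (-s)..s, (s ^ 2 - z ^ 2) / dd r s z ^ 3 = 4 / 3 * s ^ 3 / max r s ^ 3 := by
  have hp : ∀ z ∈ Icc (-s) s, 0 < dd r s z := fun z hz => sqrt_pos.2 (dd_arg hr hsr hz)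
  have hc : ContinuousOn (fun z => (s ^ 2 - z ^ 2) / dd r s z ^ 3) (Icc (-s) s) :=
    ContinuousOn.div (by fun_prop) (by unfold dd; fun_prop) fun z hz => (pow_pos (hp z hz) 3).ne'
  refine ⟨hc, ?_⟩
  have hle : -s ≤ s := by linarith
  have hd : ∀ z ∈ uIcc (-s) s, HasDerivAt (fun z => -1 / (4 * r ^ 3) *
      ((r ^ 2 - s ^ 2) ^ 2 * (dd r s z)⁻¹ + 2 * (r ^ 2 + s ^ 2) * dd r s z - dd r s z ^ 3 / 3))
      ((s ^ 2 - z ^ 2) / dd r s z ^ 3) z := by
    intro z hz
    rw [uIcc_of_le hle] at hz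
    have h1 := dd_deriv hr hsr hz
    have h2 := hp z hz
    have h3 : dd r s z ^ 2 = r ^ 2 + s ^ 2 - 2 * r * z := sq_sqrt (dd_arg hr hsr hz).le
    refine (((((h1.inv h2.ne').const_mul _).add (h1.const_mul _)).sub
      ((h1.pow 3).div_const 3)).const_mul _).congr_deriv ?_
    simp only [Nat.cast_ofNat]
    set d := dd r s z
    field_simp
    have h4 : d ^ 4 = (r ^ 2 + s ^ 2 - 2 * r * z) ^ 2 := by rw [← h3]; ring
    norm_num
    linear_combination 2 * (r ^ 2 + s ^ 2) * h3 - h4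
  rw [intervalIntegral.integral_eq_sub_of_hasDerivAt hd
    (hc.intervalIntegrable_of_Icc hle), dd_left hr hs, dd_right]
  rcases lt_or_gt_of_ne hsr with h | h
  · have := sub_pos.2 h
    rw [max_eq_left h.le, abs_of_nonneg (by linarith)]; field_simp; ring
  · have : -(r - s) ≠ 0 := by intro h1; linarith
    have : r - s ≠ 0 := by intro h1; linarith
    rw [max_eq_right h.le, abs_of_nonpos (by linarith)]; field_simp; ring

theorem Prof.split {B : ℝ} {g ψ : ℝ → ℝ} (h : Prof B g) {r a b : ℝ} (hr : 0 < r) {k : ℕ}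
    (hk : k ≤ 4) (h1 : ∀ s ∈ Ioc 0 r, ψ s = a * (g s * s ^ k))
    (h2 : ∀ s ∈ Ioi r, ψ s = b * (g s * s)) :
    ∫ s in Ioi (0:ℝ), ψ s = a * mo k g r + b * tl g r := by
  rw [← Ioc_union_Ioi_eq_Ioi hr.le, setIntegral_union Ioc_disjoint_Ioi_same measurableSet_Ioi
    (IntegrableOn.congr_fun (((h.ik hk).mono_set Ioc_subset_Ioi_self).const_mul a)
      (fun s hs => (h1 s hs).symm) measurableSet_Ioc)
    (IntegrableOn.congr_fun ((h.i1.mono_set (Ioi_subset_Ioi hr.le)).const_mul b)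
      (fun s hs => (h2 s hs).symm) measurableSet_Ioi),
    setIntegral_congr_fun measurableSet_Ioc h1, setIntegral_congr_fun measurableSet_Ioi h2,
    integral_const_mul, integral_const_mul, mo, intervalIntegral.integral_of_le hr.le, tl]

theorem norm_sub_single (r : ℝ) (u : EuclideanSpace ℝ (Fin 3)) :
    ‖EuclideanSpace.single 0 r - u‖ ^ 2 = r ^ 2 + ‖u‖ ^ 2 - 2 * r * u 0 := by
  simp [EuclideanSpace.real_norm_sq_eq, Fin.sum_univ_three]
  ring

theorem norm_sub_single' (r : ℝ) (u : EuclideanSpace ℝ (Fin 3)) :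
    ‖EuclideanSpace.single 0 r - u‖ = dd r ‖u‖ (u 0) := by
  rw [dd, ← norm_sub_single, sqrt_sq (norm_nonneg _)]

theorem dd_meas (r : ℝ) : Measurable fun p : ℝ × ℝ => dd r p.2 p.1 := by
  unfold dd; fun_prop

theorem Prof.ker_tr {B : ℝ} {g : ℝ → ℝ} (h : Prof B g) {r : ℝ} (hr : 0 < r) :
    ∫ w : EuclideanSpace ℝ (Fin 3), 2 / ‖w‖ * g ‖EuclideanSpace.single 0 r - w‖
      = 8 * π * tr g r := by
  rw [← integral_sub_left_eq_self _ volume (EuclideanSpace.single 0 r)]
  simp only [sub_sub_cancel, norm_sub_single']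
  rw [cyl_real (k := fun z s => 2 / dd r s z) (κ := fun s => 4 * s / max r s) (r := r)
    (measurable_const.div (dd_meas r)) (by fun_prop) h.cont h.nonneg
    (fun z s _ => div_nonneg zero_le_two (sqrt_nonneg _))
    (fun s hs => by positivity) (fun s hs hsr => inner1 hr hs hsr),
    h.split (a := 8 * π / r) (b := 8 * π) hr (k := 2) (by norm_num)
      (fun s hs => by rw [max_eq_left hs.2]; ring)
      (fun s hs => by
        have hs' : r < s := hs
        have := (hr.trans hs').ne'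
        rw [max_eq_right hs'.le]; field_simp; ring), tr]
  ring

theorem Prof.ker_co {B : ℝ} {g : ℝ → ℝ} (h : Prof B g) {r : ℝ} (hr : 0 < r) :
    ∫ w : EuclideanSpace ℝ (Fin 3), (‖w‖ ^ 2 - w 0 * w 0) / ‖w‖ ^ 3
      * g ‖EuclideanSpace.single 0 r - w‖ = 8 * π * co g r := by
  rw [← integral_sub_left_eq_self _ volume (EuclideanSpace.single 0 r)]
  have e : ∀ u : EuclideanSpace ℝ (Fin 3), ‖EuclideanSpace.single 0 r - u‖ ^ 2
      - (EuclideanSpace.single 0 r - u : EuclideanSpace ℝ (Fin 3)) 0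
        * (EuclideanSpace.single 0 r - u : EuclideanSpace ℝ (Fin 3)) 0 = ‖u‖ ^ 2 - u 0 ^ 2 := by
    intro u
    rw [norm_sub_single]; simp; ring
  simp only [sub_sub_cancel, e]
  simp only [norm_sub_single']
  rw [cyl_real (k := fun z s => (s ^ 2 - z ^ 2) / dd r s z ^ 3)
    (κ := fun s => 4 / 3 * s ^ 3 / max r s ^ 3) (r := r)
    (Measurable.div (by fun_prop) ((dd_meas r).pow_const 3)) (by fun_prop) h.cont h.nonneg
    (fun z s hz => div_nonneg (by
      rw [← sq_abs z]; exact sub_nonneg.2 (pow_le_pow_left₀ (abs_nonneg z) hz 2))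
      (pow_nonneg (sqrt_nonneg _) 3))
    (fun s hs => by positivity) (fun s hs hsr => inner2 hr hs hsr),
    h.split (a := 8 * π / (3 * r ^ 3)) (b := 8 * π / 3) hr (k := 4) le_rfl
      (fun s hs => by rw [max_eq_left hs.2]; ring)
      (fun s hs => by
        have hs' : r < s := hs
        have := (hr.trans hs').ne'
        rw [max_eq_right hs'.le]; field_simp; ring), co]
  ring

end Pool.Agent.Lib.LandauRad
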