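import Pool.Agent.Lib.MP_33b301_mp.Origin

/-! Radial monotonicity is preserved. -/

open Set Filter Topology MeasureTheory Function Real

namespace Pool.Agent.Lib.LandauRad

theorem locmax {g g1 : ℝ → ℝ} {x0 c : ℝ} (h1 : ∀ᶠ x in 𝓝 x0, HasDerivAt g (g1 x) x)
    (h2 : HasDerivAt g1 c x0) (hm : IsLocalMax g x0) : g1 x0 = 0 ∧ c ≤ 0 := by
  have h0 := hm.hasDerivAt_eq_zero h1.self_of_nhds
  refine ⟨h0, ?_⟩
  obtain ⟨δ, hδ, hδ'⟩ := Metric.eventually_nhds_iff.1 (h1.and hm)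
  have hd : ∀ x ∈ Ico x0 (x0 + δ), dist x x0 < δ := fun x hx => by
    rw [Real.dist_eq, abs_of_nonneg (sub_nonneg.2 hx.1)]; linarith [hx.2]
  have := second_deriv_right (g := fun x => - g x) (g1 := fun x => - g1 x) hδ
    (fun x hx => (hδ' (hd x hx)).1.neg) (by simp [h0]) h2.neg
    (fun x hx => neg_le_neg (hδ' (hd x hx)).2)
  linarith

namespace Rad

variable {T B : ℝ} {φ φt φ1 φ2 : ℝ → ℝ → ℝ}

theorem mono_lt (h : Rad T B φ φt φ1 φ2) {η T' : ℝ} (hη : 0 < η) (hT : T' < T)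
    (h0 : ∀ a b, 0 < a → a ≤ b → φ 0 b ≤ φ 0 a) :
    ∀ t ∈ Icc 0 T', ∀ x ∈ {p : ℝ × ℝ | 0 < p.1 ∧ p.1 ≤ p.2}, φ t x.2 - φ t x.1
      - η * exp ((2 * (B + tot 2 (φ 0)) + 2 * B + 1) * t) * (x.1⁻¹ + x.2 ^ 2 + 1) < 0 := by
  have hp0 := h.prof 0
  have hB := hp0.B_nonneg
  have hm0 : 0 ≤ tot 2 (φ 0) :=
    (mo_nonneg 2 hp0.nonneg le_rfl).trans (hp0.mo_le_tot (by norm_num) le_rfl)
  set C := B + tot 2 (φ 0) with hC
  have hC0 : 0 ≤ C := by positivity
  set L := 2 * C + 2 * B + 1 with hL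
  have hL0 : 0 < L := by positivity
  have hδ : 0 < η / (B + 1) := by positivity
  refine touch (K := (Icc (η / (B + 1)) ((B + 1) / η + 1) ×ˢ Icc (η / (B + 1)) ((B + 1) / η + 1))
      ∩ {p : ℝ × ℝ | p.1 ≤ p.2})
    (F := fun t (x : ℝ × ℝ) => φ t x.2 - φ t x.1 - η * exp (L * t) * (x.1⁻¹ + x.2 ^ 2 + 1))
    ((isCompact_Icc.prod isCompact_Icc).inter_right (isClosed_le continuous_fst continuous_snd))
    (fun x hx => And.intro (hδ.trans_le hx.1.1.1) hx.2) ?_ ?_ ?_ ?_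
  · have a1 : Continuous fun q : ℝ × ℝ × ℝ => φ q.1 q.2.2 :=
      h.cont.comp (f := fun q : ℝ × ℝ × ℝ => (q.1, q.2.2)) (by fun_prop)
    have a2 : Continuous fun q : ℝ × ℝ × ℝ => φ q.1 q.2.1 :=
      h.cont.comp (f := fun q : ℝ × ℝ × ℝ => (q.1, q.2.1)) (by fun_prop)
    refine (a1.sub a2).continuousOn.sub (ContinuousOn.mul (by fun_prop)
      ((ContinuousOn.add (ContinuousOn.inv₀ (by fun_prop) ?_) (by fun_prop)).add (by fun_prop)))
    exact fun q hq => (hδ.trans_le hq.2.1.1.1).ne'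
  · rintro ⟨a, b⟩ ⟨ha, hab⟩
    have h1 := h0 a b ha hab
    have ha' : 0 < a := ha
    have : 0 < η * exp (L * 0) * (a⁻¹ + b ^ 2 + 1) := by positivity
    simp only at this ⊢
    linarith
  · rintro t ht ⟨a, b⟩ ⟨ha, hab⟩ hx
    have ha' : 0 < a := ha
    have hab' : a ≤ b := hab
    have h1 := (h.prof t).bdd b
    have h2 := (h.prof t).nonneg a
    have h3 : 1 ≤ exp (L * t) := one_le_exp (mul_nonneg hL0.le ht.1)
    have h4 : B < η * (a⁻¹ + b ^ 2 + 1) := by
      have e1 : 0 < η * a⁻¹ := by positivity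
      have e2 : 0 ≤ η * b ^ 2 := by positivity
      by_cases c1 : a < η / (B + 1)
      · have : B + 1 < η * a⁻¹ := by
          rw [lt_div_iff₀ (by positivity)] at c1
          rw [← div_eq_mul_inv, lt_div_iff₀ ha']; linarith
        linarith
      · have c2 : (B + 1) / η + 1 < b := by
          by_contra c2
          exact hx ⟨⟨⟨not_lt.1 c1, hab'.trans (not_lt.1 c2)⟩, (not_lt.1 c1).trans hab', not_lt.1 c2⟩,
            hab'⟩
        have e3 : 0 < (B + 1) / η := by positivity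
        have e4 : B + 1 < b * η := (div_lt_iff₀ hη).1 (by linarith)
        have e5 : b ≤ b ^ 2 := by nlinarith
        nlinarith [mul_le_mul_of_nonneg_left e5 hη.le]
    have h5 : η * 1 * (a⁻¹ + b ^ 2 + 1) ≤ η * exp (L * t) * (a⁻¹ + b ^ 2 + 1) := by gcongr
    simp only
    linarith
  · rintro t0 ht0 ⟨a, b⟩ ⟨ha, hab⟩ hz hle hbefore
    have ha' : 0 < a := ha
    have hab' : a ≤ b := hab
    have ht0' : t0 ∈ Ioo 0 T := ⟨ht0.1, ht0.2.trans_lt hT⟩
    simp only at hz hle hbefore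
    have hdt : HasDerivAt (fun t => φ t b - φ t a - η * exp (L * t) * (a⁻¹ + b ^ 2 + 1))
        (φt t0 b - φt t0 a - η * (exp (L * t0) * (L * 1)) * (a⁻¹ + b ^ 2 + 1)) t0 :=
      ((h.dt t0 ht0' b).sub (h.dt t0 ht0' a)).sub
        ((((hasDerivAt_id t0).const_mul L).exp.const_mul η).mul_const _)
    have hpos := deriv_nonneg_of_left hdt ht0.1 hz hbefore
    set e := η * exp (L * t0) with he
    have he0 : 0 < e := by positivity
    set w := a⁻¹ + b ^ 2 + 1 with hw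
    have hw1 : 1 ≤ w := by
      have : 0 ≤ a⁻¹ + b ^ 2 := by positivity
      linarith
    have hlt : a < b := by
      refine hab'.lt_of_ne fun hab => ?_
      rw [← hab] at hz
      nlinarith
    have hb' : 0 < b := ha'.trans hlt
    obtain ⟨b1, b2⟩ := locmax (g := fun r => φ t0 r - φ t0 a - e * (a⁻¹ + r ^ 2 + 1))
      (g1 := fun r => φ1 t0 r - e * (2 * r)) (x0 := b) (c := φ2 t0 b - e * 2)
      (Eventually.of_forall fun x => (((h.d1 t0 x).sub_const _).sub
        ((((hasDerivAt_pow 2 x).const_add _).add_const 1).const_mul e)).congr_deriv (by simp))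
      (((h.d2 t0 b).sub (((hasDerivAt_id b).const_mul 2).const_mul e)).congr_deriv (by simp))
      (by
        filter_upwards [Ioi_mem_nhds hlt] with r hr
        have := hle (a, r) (And.intro ha' (le_of_lt (show a < r from hr)))
        simp only at this
        linarith)
    obtain ⟨a1, a2⟩ := locmax (g := fun r => φ t0 b - φ t0 r - e * (r⁻¹ + b ^ 2 + 1))
      (g1 := fun r => - φ1 t0 r + e * (r ^ 2)⁻¹) (x0 := a) (c := - φ2 t0 a - e * (2 / a ^ 3))
      (by
        filter_upwards [Ioi_mem_nhds ha'] with x hx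
        exact (((h.d1 t0 x).const_sub _).sub ((((hasDerivAt_inv (ne_of_gt hx)).add_const _).add_const
          1).const_mul e)).congr_deriv (by ring))
      (((h.d2 t0 a).neg.add (((hasDerivAt_pow 2 a).inv (by positivity)).const_mul e)).congr_deriv
        (by simp; field_simp; ring))
      (by
        filter_upwards [Ioo_mem_nhds ha' hlt] with r hr
        have := hle (r, b) ⟨hr.1, hr.2.le⟩
        simp only at this
        linarith)
    have hp := h.prof t0
    have e1 := h.eqn t0 ht0' a ha'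
    have e2 := h.eqn t0 ht0' b hb'
    have c1 := hp.co_nonneg ha'
    have c2 := hp.co_nonneg hb'
    have c3 := hp.co_le ha'
    have c4 := hp.tr_le hb'
    rw [h.cons2 t0 ⟨ht0.1.le, ht0'.2.le⟩, ← hC] at c4
    have f1 : φ t0 a ^ 2 ≤ φt t0 a := by
      have g1 : φ1 t0 a = e * (a ^ 2)⁻¹ := by linarith
      have g2 := mul_le_mul_of_nonneg_left (show -(e * (2 / a ^ 3)) ≤ φ2 t0 a by linarith) c1
      have g3 : (tr (φ t0) a - co (φ t0) a) * (e * (a ^ 2)⁻¹) / a - co (φ t0) a * (e * (2 / a ^ 3))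
          = (tr (φ t0) a - 3 * co (φ t0) a) * (e / a ^ 3) := by field_simp; ring
      have g4 : 0 ≤ (tr (φ t0) a - 3 * co (φ t0) a) * (e / a ^ 3) :=
        mul_nonneg (by linarith) (by positivity)
      rw [e1, g1]; linarith
    have f2 : φt t0 b ≤ 2 * C * e + φ t0 b ^ 2 := by
      have g1 : φ1 t0 b = e * (2 * b) := by linarith
      have g2 := mul_le_mul_of_nonneg_left (show φ2 t0 b ≤ e * 2 by linarith) c2
      have g3 : (tr (φ t0) b - co (φ t0) b) * (e * (2 * b)) / b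
          = (tr (φ t0) b - co (φ t0) b) * (e * 2) := by field_simp
      have g4 := mul_le_mul_of_nonneg_right c4 (show 0 ≤ e * 2 by positivity)
      rw [e2, g1, g3]; linarith
    have f3 : φ t0 b ^ 2 - φ t0 a ^ 2 ≤ e * w * (2 * B) := by
      have g1 : φ t0 b - φ t0 a = e * w := by linarith
      have g2 : φ t0 b ^ 2 - φ t0 a ^ 2 = e * w * (φ t0 b + φ t0 a) := by rw [← g1]; ring
      rw [g2]
      exact mul_le_mul_of_nonneg_left (by linarith [hp.bdd a, hp.bdd b]) (by positivity)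
    have f4 : η * (exp (L * t0) * (L * 1)) * w = e * w * (2 * C + 2 * B + 1) := by
      rw [he, hL]; ring
    have f5 : 2 * C * e * 1 ≤ 2 * C * e * w := by gcongr
    have f6 : 0 < e * w := by positivity
    rw [f4] at hpos
    linarith

theorem le_origin (h : Rad T B φ φt φ1 φ2)
    (h0 : ∀ a b, 0 < a → a ≤ b → φ 0 b ≤ φ 0 a) {t : ℝ} (ht : t ∈ Ico 0 T) {r : ℝ} (hr : 0 ≤ r) :
    φ t r ≤ φ t 0 := by
  rcases hr.eq_or_lt with hr | hr
  · rw [← hr]
  have h1 : ∀ a ∈ Ioo 0 r, φ t r ≤ φ t a := by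
    intro a ha
    set W := exp ((2 * (B + tot 2 (φ 0)) + 2 * B + 1) * t) * (a⁻¹ + r ^ 2 + 1) with hW
    have ha' := ha.1
    have hW0 : 0 < W := by positivity
    refine le_of_forall_pos_le_add fun ε hε => ?_
    have := h.mono_lt (η := ε / W) (by positivity) ht.2 h0 t ⟨ht.1, le_rfl⟩ (a, r) ⟨ha.1, ha.2.le⟩
    simp only at this
    rw [mul_assoc, ← hW, div_mul_cancel₀ _ hW0.ne'] at this
    linarith
  refine ge_of_tendsto ((h.prof t).cont.continuousWithinAt (x := 0) (s := Ioi 0)).tendsto ?_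
  filter_upwards [Ioo_mem_nhdsGT hr] with a ha using h1 a ha

theorem everywhere (h : Rad T B φ φt φ1 φ2) (hT : 0 < T) {S : ℝ} (hS0 : ∀ r, φ 0 r ≤ S)
    (h0 : ∀ a b, 0 < a → a ≤ b → φ 0 b ≤ φ 0 a) {r : ℝ} (hr : 0 ≤ r) :
    ∀ t ∈ Icc 0 T, φ t r ≤ √(250 / (9 * π)) * S :=
  h.of_lt hT fun t ht =>
    (h.le_origin h0 ht hr).trans (h.origin hT hS0 t (Ico_subset_Icc_self ht))

end Rad

end Pool.Agent.Lib.LandauRad
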