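import Pool.Agent.Lib.MP_33b301_mp.Stat

/-! The invariant family of inequalities and the bound at the origin. -/

open Set Filter Topology MeasureTheory Function Real

namespace Pool.Agent.Lib.LandauRad

namespace Rad

variable {T B : ℝ} {φ φt φ1 φ2 : ℝ → ℝ → ℝ}

theorem step (h : Rad T B φ φt φ1 φ2) {A ε : ℝ} (hA : 0 < A) (hε : 0 < ε) {t0 β1 r0 : ℝ}
    (ht0 : t0 ∈ Ioo 0 T) (hβ1 : 0 ≤ β1) (hr0 : 0 < r0) (h0 : Hf A ε β1 (φ t0) r0 = 0)
    (hle : ∀ β r, 0 ≤ β → 0 < r → Hf A ε β (φ t0) r ≤ 0)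
    (hbefore : ∀ t ∈ Ico 0 t0, Hf A ε β1 (φ t) r0 < 0) : False := by
  have hp := h.prof t0
  have hg := hp.cont
  have hu0 : 0 ≤ uf A β1 (φ t0) r0 := uf_ge hr0 hA.le fun β hβ => by
    rw [h0]; exact hle β r0 (hβ1.trans hβ.le) hr0
  have h0' := h0
  rw [Hf_eq] at h0'
  have hD0 : 0 ≤ Df A ε β1 (φ t0) r0 := by
    nlinarith [mul_nonneg (sub_pos.2 (sg_lt β1 hr0)).le hu0]
  have hb := beyond hg (fun r hr => hle β1 r hβ1 hr) hr0 hD0
  rcases hβ1.eq_or_lt with hβ | hβ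
  · rw [← hβ] at hb
    exact no_beta0 hp hA hb
  have hu : uf A β1 (φ t0) r0 = 0 := le_antisymm (uf_le hr0 hA.le hβ fun β hβ' => by
    rw [h0]; exact hle β r0 hβ' hr0) hu0
  have hD : Df A ε β1 (φ t0) r0 = 0 := by rw [hu] at h0'; linarith
  have hv := touch_val hg (fun r hr => hle β1 r hβ1 hr) hr0 hD hu
  have hder := touch_der hg (h.d1 t0 r0) hr0 hu hv hb
  have htl := touch_tl hp hβ hr0 hu hb
  have hM : mo 2 (φ t0) r0 = A * mo 2 (ga β1) r0 := sub_eq_zero.1 hu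
  have hE : mo 4 (φ t0) r0 = A * mo 4 (ga β1) r0 - ε := by
    unfold Hf at h0; rw [hM] at h0; linarith
  have f2 := flux2 hp (h.d1 t0) (h.d2 t0) (h.ct t0) (h.eqn t0 ht0) hr0
  have f4 := flux4 hp (h.d1 t0) (h.d2 t0) (h.ct t0) (h.eqn t0 ht0) hr0
  rw [hM, hv] at f2 f4
  have hneg := touch_alg hA hε hβ hr0 (sg_lt β1 hr0) (ga_pos β1 r0) (ga_rec2 β1 r0)
    (by rw [sg_mul β1 hr0]; exact ga_rec4 β1 r0) (K_nonneg β1 hr0) hE
    (mo_nonneg 4 hp.nonneg hr0.le) htl hder f2 f4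
  have hdt : HasDerivAt (fun t => Hf A ε β1 (φ t) r0)
      (sg β1 r0 * mo 2 (φt t0) r0 - mo 4 (φt t0) r0) t0 :=
    ((((h.mo_dt 2 ht0 r0).const_mul _).sub (h.mo_dt 4 ht0 r0)).sub_const _).sub_const _
  exact absurd (deriv_nonneg_of_left hdt ht0.1 h0 hbefore) (not_le.2 hneg)

theorem Hf_cont (h : Rad T B φ φt φ1 φ2) (A ε : ℝ) :
    ContinuousOn (fun q : ℝ × ℝ × ℝ => Hf A ε q.2.1 (φ q.1) q.2.2) {q | 0 < q.2.2} := by
  have a1 : ContinuousOn (fun q : ℝ × ℝ × ℝ => sg q.2.1 q.2.2) {q | 0 < q.2.2} :=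
    sg_cont.comp continuous_snd.continuousOn fun q hq => hq
  have a2 : ∀ k, Continuous (fun q : ℝ × ℝ × ℝ => mo k (φ q.1) q.2.2) := fun k =>
    (mo_cont2 k h.cont).comp (f := fun q : ℝ × ℝ × ℝ => (q.1, q.2.2)) (by fun_prop)
  have a3 : ∀ k, Continuous (fun q : ℝ × ℝ × ℝ => mo k (ga q.2.1) q.2.2) := fun k =>
    (mo_cont2 k ga_cont2).comp continuous_snd
  exact (((a1.mul (a2 2).continuousOn).sub (a2 4).continuousOn).sub
    (continuousOn_const.mul ((a1.mul (a3 2).continuousOn).sub (a3 4).continuousOn))).sub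
    continuousOn_const

theorem inv_lt (h : Rad T B φ φt φ1 φ2) {S ε T' : ℝ} (hS : 0 < S) (hε : 0 < ε) (hT : T' < T)
    (hS0 : ∀ r, φ 0 r ≤ S) : ∀ t ∈ Icc 0 T', ∀ x ∈ Ici (0:ℝ) ×ˢ Ioi (0:ℝ),
      Hf (√(250 / (9 * π)) * S) ε x.1 (φ t) x.2 < 0 := by
  set A := √(250 / (9 * π)) * S with hAdef
  have hA : 0 < A := by positivity
  have hK : ∀ β r, 0 < r → S * (2 / 15 * sg β r ^ 2 * √(sg β r))
      ≤ A * (sg β r * mo 2 (ga β) r - mo 4 (ga β) r) := fun β r hr => by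
    have := mul_le_mul_of_nonneg_left (K_ge β hr) hS.le
    rw [hAdef]; linarith
  have hp0 := h.prof 0
  have hB := hp0.B_nonneg
  set m := tot 2 (φ 0) with hm
  have hm0 : 0 ≤ m := (mo_nonneg 2 hp0.nonneg le_rfl).trans (hp0.mo_le_tot (by norm_num) le_rfl)
  obtain ⟨R, hR, hR'⟩ := h.tail_unif hε
  set r1 := min 1 (ε / (B + 1)) with hr1
  have hr1p : 0 < r1 := lt_min one_pos (by positivity)
  have hbath : ∀ σ, 0 < σ → σ * m - tot 4 (φ 0) ≤ S * (2 / 15 * σ ^ 2 * √σ) := by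
    intro σ hσ
    refine le_of_tendsto (((hp0.mo_tendsto (k := 2) (by norm_num)).const_mul σ).sub
      (hp0.mo_tendsto le_rfl)) ?_
    filter_upwards [eventually_gt_atTop 0,
      (tendsto_pow_atTop (α := ℝ) two_ne_zero).eventually_ge_atTop σ] with r h1 h2
    exact bathtub hp0.cont hp0.nonneg hS0 hσ h1 h2
  refine touch (K := Icc 0 (5 * m / ε + 1) ×ˢ Icc r1 R) (F := fun t x => Hf A ε x.1 (φ t) x.2)
    (isCompact_Icc.prod isCompact_Icc) (fun x hx => mk_mem_prod hx.1.1 (hr1p.trans_le hx.2.1))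
    ((h.Hf_cont A ε).mono fun q hq => hr1p.trans_le hq.2.2.1) ?_ ?_ ?_
  · rintro ⟨β, r⟩ ⟨_, hr⟩
    have h1 := bathtub hp0.cont hp0.nonneg hS0 (sg_pos β hr) hr (sg_lt β hr).le
    have h2 := hK β r hr
    simp only [Hf]
    linarith
  · rintro t ht ⟨β, r⟩ ⟨hβ, hr⟩ hx
    have hβ' : 0 ≤ β := hβ
    have hr' : 0 < r := hr
    have ht' : t ∈ Icc 0 T := ⟨ht.1, ht.2.trans hT.le⟩
    have hp := h.prof t
    have hσ := sg_pos β hr'
    have h1 : mo 2 (φ t) r ≤ m := (hp.mo_le_tot (by norm_num) hr'.le).trans (h.cons2 t ht').le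
    have h2 := mo_nonneg 4 hp.nonneg hr'.le
    have h3 := mul_nonneg hA.le (K_nonneg β hr')
    have h4 := mul_le_mul_of_nonneg_left h1 hσ.le
    simp only [Hf]
    by_cases c1 : R ≤ r
    · have := hR' t ht' r c1
      have := hbath _ hσ
      have := hK β r hr'
      linarith
    by_cases c2 : r < r1
    · have a1 := mo_le 2 hp.cont hr'.le hp.bdd
      have a2 : r ≤ 1 := c2.le.trans (min_le_left _ _)
      have a3 : r * (B + 1) < ε := (lt_div_iff₀ (by positivity)).1 (c2.trans_le (min_le_right _ _))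
      have a4 : sg β r * mo 2 (φ t) r ≤ 1 * (B * r ^ 3 / 3) := by
        refine mul_le_mul ((sg_lt β hr').le.trans (by nlinarith)) (by norm_num at a1; linarith)
          (mo_nonneg 2 hp.nonneg hr'.le) zero_le_one
      have a5 : r ^ 3 ≤ r := by
        simpa using pow_le_pow_of_le_one hr'.le a2 (show 1 ≤ 3 by norm_num)
      nlinarith [mul_le_mul_of_nonneg_left a5 hB]
    have c3 : 5 * m / ε + 1 < β := by
      by_contra c3
      exact hx ⟨⟨hβ', not_lt.1 c3⟩, not_lt.1 c2, (not_le.1 c1).le⟩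
    have a1 := sg_le β hr'
    have a2 : 5 * m < β * ε := (div_lt_iff₀ hε).1 (by linarith)
    have hβp : 0 < β := lt_of_lt_of_le (by positivity) c3.le
    have a3 : β * (sg β r * m) < β * ε := by nlinarith [mul_le_mul_of_nonneg_right a1 hm0]
    have a4 := lt_of_mul_lt_mul_left a3 hβp.le
    linarith
  · rintro t0 ht0 ⟨β1, r0⟩ ⟨hβ1, hr0⟩ h0 hle hbefore
    exact h.step hA hε ⟨ht0.1, ht0.2.trans_lt hT⟩ hβ1 hr0 h0
      (fun β r hβ hr => hle (β, r) ⟨hβ, hr⟩) hbefore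

theorem of_lt (h : Rad T B φ φt φ1 φ2) (hT : 0 < T) {A r : ℝ} (hA : ∀ t ∈ Ico 0 T, φ t r ≤ A) :
    ∀ t ∈ Icc 0 T, φ t r ≤ A := by
  intro t ht
  rw [← closure_Ico hT.ne] at ht
  exact closure_minimal hA (isClosed_le
    (h.cont.comp (f := fun t : ℝ => (t, r)) (by fun_prop)) continuous_const) ht

end Rad

theorem origin_le {A B : ℝ} {g : ℝ → ℝ} (h : Prof B g) (hA : 0 < A)
    (hH : ∀ r, 0 < r → Hf A 0 0 g r ≤ 0) : g 0 ≤ A := by
  by_contra hc
  push Not at hc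
  have hg := h.cont
  obtain ⟨δ, hδ, hδ'⟩ := Metric.eventually_nhds_iff.1 (hg.continuousAt.eventually (lt_mem_nhds hc))
  have hu : ∀ r ∈ Icc 0 (δ / 2), 0 ≤ uf A 0 g r := by
    intro r hr
    have h1 := mo_mono 2 (continuous_const (y := A)) hg hr.1 fun s hs => (hδ' (by
      rw [Real.dist_eq, sub_zero, abs_of_nonneg hs.1]; linarith [hs.2, hr.2])).le
    rw [mo_const] at h1
    rw [uf, mo_ga0, ← mul_div_assoc]; linarith
  have hmono : MonotoneOn (Df A 0 0 g) (Icc 0 (δ / 2)) := by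
    refine monotoneOn_of_deriv_nonneg (convex_Icc _ _)
      (fun x _ => (Df_deriv hg x).continuousAt.continuousWithinAt)
      (fun x _ => (Df_deriv hg x).differentiableAt.differentiableWithinAt) fun x hx => ?_
    have hx' := interior_subset hx
    rw [(Df_deriv hg x).deriv]
    exact mul_nonneg hx'.1 (hu x hx')
  have h2 := hmono ⟨le_rfl, by linarith⟩ ⟨by linarith, le_rfl⟩ (by linarith : 0 ≤ δ / 2)
  have h3 : Df A 0 0 g 0 = 0 := by simp [Df, mo_zero]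
  exact no_beta0 h hA (beyond hg hH (half_pos hδ) (h3.ge.trans h2))

theorem Rad.origin {T B : ℝ} {φ φt φ1 φ2 : ℝ → ℝ → ℝ} (h : Rad T B φ φt φ1 φ2) (hT : 0 < T)
    {S : ℝ} (hS0 : ∀ r, φ 0 r ≤ S) : ∀ t ∈ Icc 0 T, φ t 0 ≤ √(250 / (9 * π)) * S := by
  refine h.of_lt hT fun t ht => ?_
  have hC : 0 < √(250 / (9 * π)) := by positivity
  have hS : 0 ≤ S := ((h.prof 0).nonneg 0).trans (hS0 0)
  refine le_of_forall_pos_le_add fun η hη => ?_
  have h1 := origin_le (A := √(250 / (9 * π)) * (S + η / √(250 / (9 * π)))) (h.prof t)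
    (by positivity) fun r hr => le_of_forall_pos_le_add fun ε hε => by
      have := h.inv_lt (S := S + η / √(250 / (9 * π))) (by positivity) hε ht.2
        (fun r => (hS0 r).trans (le_add_of_nonneg_right (by positivity))) t ⟨ht.1, le_rfl⟩ (0, r)
        ⟨self_mem_Ici, hr⟩
      simp only [Hf] at this ⊢
      linarith
  rwa [mul_add, mul_div_cancel₀ _ hC.ne'] at h1

end Pool.Agent.Lib.LandauRad
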