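import Pool.Agent.Lib.MP_33b301_mp.Defs
import Pool.Agent.Lib.MP_33b301_mp.Ker
import Pool.Agent.Lib.MP_33b301_mp.Mono

/-! Reduction of radial classical solutions to the one-dimensional equation. -/

open Set Filter Topology MeasureTheory Function Real

namespace Pool.Agent.Lib.LandauRad

theorem norm_fderiv' {x : EuclideanSpace ℝ (Fin 3)} (hx : x ≠ 0) :
    HasFDerivAt (fun x : EuclideanSpace ℝ (Fin 3) => ‖x‖) (‖x‖⁻¹ • innerSL ℝ x) x := by
  have h0 : ‖x‖ ≠ 0 := norm_ne_zero_iff.2 hx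
  have h := (hasStrictFDerivAt_norm_sq x).hasFDerivAt.sqrt (by positivity)
  simp only [sqrt_sq (norm_nonneg _)] at h
  refine h.congr_fderiv ?_
  ext y
  simp
  field_simp

theorem pd_pd {g g1 g2 : ℝ → ℝ} (d1 : ∀ r, HasDerivAt g (g1 r) r) (d2 : ∀ r, HasDerivAt g1 (g2 r) r)
    {v : EuclideanSpace ℝ (Fin 3)} (hv : v ≠ 0) (i j : Fin 3) :
    pd i (pd j fun x => g ‖x‖) v = g2 ‖v‖ * (v i * v j / ‖v‖ ^ 2)
      + g1 ‖v‖ * ((if i = j then 1 else 0) / ‖v‖ - v i * v j / ‖v‖ ^ 3) := by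
  have h0 : ‖v‖ ≠ 0 := norm_ne_zero_iff.2 hv
  have e1 : (pd j fun x => g ‖x‖) =ᶠ[𝓝 v] fun x => g1 ‖x‖ * (‖x‖⁻¹ * x j) := by
    filter_upwards [isOpen_ne.mem_nhds hv] with x hx
    have : HasFDerivAt (fun x : EuclideanSpace ℝ (Fin 3) => g ‖x‖) _ x :=
      (d1 ‖x‖).comp_hasFDerivAt x (norm_fderiv' hx)
    rw [pd, this.fderiv]
    simp [EuclideanSpace.inner_single_right]
  have a1 : HasFDerivAt (fun x : EuclideanSpace ℝ (Fin 3) => g1 ‖x‖) _ v :=
    (d2 ‖v‖).comp_hasFDerivAt v (norm_fderiv' hv)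
  have a2 : HasFDerivAt (fun x : EuclideanSpace ℝ (Fin 3) => ‖x‖⁻¹) _ v :=
    (hasDerivAt_inv h0).comp_hasFDerivAt v (norm_fderiv' hv)
  have a3 : HasFDerivAt (fun x : EuclideanSpace ℝ (Fin 3) => g1 ‖x‖ * (‖x‖⁻¹ * x j)) _ v :=
    a1.mul (a2.mul (PiLp.hasFDerivAt_apply 2 v j))
  rw [pd, e1.fderiv_eq, a3.fderiv]
  by_cases hij : i = j
  · simp [EuclideanSpace.inner_single_right, hij]
    field_simp
    ring
  · have hji : j ≠ i := fun h => hij h.symm
    simp [EuclideanSpace.inner_single_right, hij, hji]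
    field_simp
    ring

theorem rhs_eq {B : ℝ} {g g1 g2 : ℝ → ℝ} (h : Prof B g) (d1 : ∀ r, HasDerivAt g (g1 r) r)
    (d2 : ∀ r, HasDerivAt g1 (g2 r) r) {r : ℝ} (hr : 0 < r)
    (hint : ∀ i j, Integrable fun w => kern w i j * g ‖EuclideanSpace.single 0 r - w‖) :
    ∑ i, ∑ j, abar (fun x => g ‖x‖) (EuclideanSpace.single 0 r) i j
      * pd i (pd j fun x => g ‖x‖) (EuclideanSpace.single 0 r)
      = co g r * g2 r + (tr g r - co g r) * g1 r / r := by
  have hn : ‖(EuclideanSpace.single 0 r : EuclideanSpace ℝ (Fin 3))‖ = r := by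
    simp [abs_of_pos hr]
  have hv : (EuclideanSpace.single 0 r : EuclideanSpace ℝ (Fin 3)) ≠ 0 := by
    rw [← norm_ne_zero_iff, hn]; exact hr.ne'
  have e0 : abar (fun x => g ‖x‖) (EuclideanSpace.single 0 r) 0 0 = co g r := by
    simp only [abar, kern, if_true, mul_one]
    rw [h.ker_co hr]; field_simp
  have e1 : abar (fun x => g ‖x‖) (EuclideanSpace.single 0 r) 0 0
      + abar (fun x => g ‖x‖) (EuclideanSpace.single 0 r) 1 1
      + abar (fun x => g ‖x‖) (EuclideanSpace.single 0 r) 2 2 = tr g r := by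
    simp only [abar]
    have h01 : Integrable fun w => kern w 0 0 * g ‖EuclideanSpace.single 0 r - w‖
        + kern w 1 1 * g ‖EuclideanSpace.single 0 r - w‖ := (hint 0 0).add (hint 1 1)
    rw [← mul_add, ← mul_add, ← integral_add (hint 0 0) (hint 1 1), ← integral_add h01 (hint 2 2)]
    have : ∀ w : EuclideanSpace ℝ (Fin 3), kern w 0 0 * g ‖EuclideanSpace.single 0 r - w‖
        + kern w 1 1 * g ‖EuclideanSpace.single 0 r - w‖
        + kern w 2 2 * g ‖EuclideanSpace.single 0 r - w‖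
        = 2 / ‖w‖ * g ‖EuclideanSpace.single 0 r - w‖ := by
      intro w
      have hw : ‖w‖ ^ 2 = w 0 ^ 2 + w 1 ^ 2 + w 2 ^ 2 := by
        simp [EuclideanSpace.real_norm_sq_eq, Fin.sum_univ_three]
      rw [← add_mul, ← add_mul]
      congr 1
      simp only [kern, if_true, mul_one]
      rcases eq_or_ne ‖w‖ 0 with h0 | h0
      · simp [h0]
      · field_simp
        linear_combination hw
    simp only [this]
    rw [h.ker_tr hr]; field_simp
  simp only [pd_pd d1 d2 hv, hn, Fin.sum_univ_three]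
  rw [← e1, ← e0]
  simp
  field_simp
  ring

theorem reduce {T : ℝ} {f : ℝ → EuclideanSpace ℝ (Fin 3) → ℝ} (hT : 0 < T) (h : IsClassical T f)
    (hrad : ∀ t ∈ Icc 0 T, ∀ v w, ‖v‖ = ‖w‖ → f t v = f t w) :
    ∃ B φ φt φ1 φ2, Rad T B φ φt φ1 φ2 ∧
      ∀ t ∈ Icc 0 T, ∀ r, φ t r = f t (EuclideanSpace.single 0 r) := by
  obtain ⟨B, hB⟩ := h.bdd
  obtain ⟨ft, hft, heq⟩ := h.eqn
  set c : ℝ → ℝ := fun t => max 0 (min t T) with hc
  have hcI : ∀ t, c t ∈ Icc 0 T := fun t => ⟨le_max_left _ _, max_le hT.le (min_le_right _ _)⟩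
  have hcc : Continuous c := by fun_prop
  have hce : ∀ t ∈ Icc 0 T, c t = t := fun t ht => by
    simp only [hc]; rw [min_eq_left ht.2, max_eq_right ht.1]
  set e : ℝ → EuclideanSpace ℝ (Fin 3) := fun r => EuclideanSpace.single 0 r with he
  have hes : e = fun r => r • EuclideanSpace.single 0 (1:ℝ) := by
    funext r; ext i; by_cases hi : i = 0 <;> simp [he, hi]
  have hec : ContDiff ℝ 2 e := by rw [hes]; fun_prop
  set φ : ℝ → ℝ → ℝ := fun t r => f (c t) (e r) with hφ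
  have hφ2 : ∀ t, ContDiff ℝ 2 (φ t) := fun t => (h.c2 _ (hcI t)).comp hec
  have hfφ : ∀ t, f (c t) = fun x => φ t ‖x‖ := fun t => funext fun x =>
    hrad _ (hcI t) _ _ (by simp [he])
  have hmap : Continuous fun p : ℝ × ℝ => (c p.1, e p.2) := by
    have := hec.continuous
    fun_prop
  have hd1 : ∀ t r, HasDerivAt (φ t) (deriv (φ t) r) r := fun t r =>
    ((hφ2 t).differentiable two_ne_zero r).hasDerivAt
  have hd2 : ∀ t r, HasDerivAt (deriv (φ t)) (deriv (deriv (φ t)) r) r := fun t r =>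
    ((hφ2 t).differentiable_deriv_two r).hasDerivAt
  have hprof : ∀ t, Prof B (φ t) := by
    intro t
    refine ⟨(hφ2 t).continuous, fun r => h.nonneg _ (hcI t) _, fun r => hB _ (hcI t) _, ?_⟩
    have h1 := h.l12 _ (hcI t)
    rw [hfφ t] at h1
    have h2 := (integrable_fun_norm_addHaar volume (f := fun s => φ t s * (1 + s ^ 2))).1 h1
    have hc := (hφ2 t).continuous
    refine Integrable.mono' h2 (Continuous.aestronglyMeasurable (by fun_prop))
      (Eventually.of_forall fun s => ?_)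
    have h3 : 0 ≤ φ t s := h.nonneg _ (hcI t) _
    rw [norm_eq_abs, abs_of_nonneg (by positivity)]
    simp only [finrank_euclideanSpace, Fintype.card_fin, smul_eq_mul]
    norm_num
    nlinarith [mul_nonneg h3 (sq_nonneg s)]
  refine ⟨B, φ, fun t r => ft (c t) (e r), fun t => deriv (φ t), fun t => deriv (deriv (φ t)),
    ⟨hprof, h.cont.comp_continuous hmap fun p => ⟨hcI _, trivial⟩,
      hft.comp_continuous hmap fun p => ⟨hcI _, trivial⟩, ?_, hd1, hd2, ?_⟩, ?_⟩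
  · intro t ht r
    have hI : Icc 0 T ∈ 𝓝 t := Icc_mem_nhds ht.1 ht.2
    rw [hce t (Ioo_subset_Icc_self ht)]
    refine ((heq t (Ioo_subset_Icc_self ht) (e r)).1.hasDerivAt hI).congr_of_eventuallyEq ?_
    filter_upwards [hI] with s hs
    simp only [hφ]; rw [hce s hs]
  · intro t _ r hr
    have h1 := (heq _ (hcI t) (e r)).2
    have h2 := h.coef _ (hcI t) (e r)
    rw [h1]
    congr 1
    rw [hfφ t] at h2 ⊢
    exact rhs_eq (hprof t) (hd1 t) (hd2 t) hr h2
  · intro t ht r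
    simp only [hφ]; rw [hce t ht]

end Pool.Agent.Lib.LandauRad
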