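import Pool.Agent.Lib.MP_33b301_mp.Cons

/-! Static analysis of a touching point. -/

open Set Filter Topology MeasureTheory Function Real

namespace Pool.Agent.Lib.LandauRad

noncomputable def uf (A β : ℝ) (g : ℝ → ℝ) (r : ℝ) : ℝ := mo 2 g r - A * mo 2 (ga β) r

noncomputable def Df (A ε β : ℝ) (g : ℝ → ℝ) (r : ℝ) : ℝ :=
  (r ^ 2 * uf A β g r - (mo 4 g r - A * mo 4 (ga β) r)) / 2 - ε / 2

noncomputable def Hf (A ε β : ℝ) (g : ℝ → ℝ) (r : ℝ) : ℝ :=
  sg β r * mo 2 g r - mo 4 g r - A * (sg β r * mo 2 (ga β) r - mo 4 (ga β) r) - ε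

noncomputable def Lf (β r : ℝ) : ℝ := r ^ 2 * mo 4 (ga β) r - mo 6 (ga β) r

variable {A ε β B : ℝ} {g : ℝ → ℝ}

theorem Hf_eq (r : ℝ) : Hf A ε β g r = 2 * Df A ε β g r - (r ^ 2 - sg β r) * uf A β g r := by
  unfold Hf Df uf; ring

theorem uf_deriv (hg : Continuous g) (r : ℝ) :
    HasDerivAt (uf A β g) ((g r - A * ga β r) * r ^ 2) r :=
  ((mo_deriv 2 hg r).sub ((mo_deriv 2 (ga_cont β) r).const_mul A)).congr_deriv (by ring)

theorem Df_deriv (hg : Continuous g) (r : ℝ) :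
    HasDerivAt (Df A ε β g) (r * uf A β g r) r :=
  (((((hasDerivAt_pow 2 r).mul (uf_deriv hg r)).sub ((mo_deriv 4 hg r).sub
    ((mo_deriv 4 (ga_cont β) r).const_mul A))).div_const 2).sub_const (ε / 2)).congr_deriv
    (by simp; ring)

theorem Lf_deriv (β r : ℝ) : HasDerivAt (Lf β) (2 * r * mo 4 (ga β) r) r :=
  (((hasDerivAt_pow 2 r).mul (mo_deriv 4 (ga_cont β) r)).sub
    (mo_deriv 6 (ga_cont β) r)).congr_deriv (by simp; ring)

theorem Lf_eq (β : ℝ) {r : ℝ} (hr : 0 < r) : Lf β r = (r ^ 2 - sg β r) * mo 4 (ga β) r := by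
  rw [sub_mul, sg_mul β hr, Lf]

theorem beyond (hg : Continuous g) (hH : ∀ r, 0 < r → Hf A ε β g r ≤ 0) {r0 : ℝ} (hr0 : 0 < r0)
    (hD : 0 ≤ Df A ε β g r0) : ∀ r, r0 ≤ r → 0 ≤ uf A β g r := by
  have hd : ∀ x, 0 < x → HasDerivAt (fun r => Df A ε β g r / Lf β r)
      ((x * uf A β g x * Lf β x - Df A ε β g x * (2 * x * mo 4 (ga β) x)) / Lf β x ^ 2) x :=
    fun x hx => (Df_deriv hg x).div (Lf_deriv β x) (lam_pos β hx).ne'
  have hmono : MonotoneOn (fun r => Df A ε β g r / Lf β r) (Ici r0) := by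
    refine monotoneOn_of_deriv_nonneg (convex_Ici r0)
      (fun x hx => (hd x (hr0.trans_le hx)).continuousAt.continuousWithinAt)
      (fun x hx => (hd x (hr0.trans_le (interior_subset hx))).differentiableAt.differentiableWithinAt)
      fun x hx => ?_
    have hx' : 0 < x := hr0.trans_le (interior_subset hx)
    rw [(hd x hx').deriv]
    refine div_nonneg ?_ (sq_nonneg _)
    have h1 := hH x hx'
    rw [Hf_eq] at h1
    rw [Lf_eq β hx']
    have h2 := mul_nonneg (mul_pos hx' (mo_ga_pos 4 β hx')).le (sub_nonneg.2 (sub_nonpos.1 h1))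
    linarith
  intro r hr
  have hr' := hr0.trans_le hr
  have h1 := hmono (mem_Ici.2 le_rfl) hr hr
  have h2 : 0 ≤ Df A ε β g r / Lf β r := (div_nonneg hD (lam_pos β hr0).le).trans h1
  have h3 : 0 ≤ Df A ε β g r := by
    by_contra h
    exact absurd (div_neg_of_neg_of_pos (not_le.1 h) (lam_pos β hr')) (not_lt.2 h2)
  have h4 := hH r hr'
  rw [Hf_eq] at h4
  exact nonneg_of_mul_nonneg_right (show 0 ≤ (r ^ 2 - sg β r) * uf A β g r by linarith)
    (sub_pos.2 (sg_lt β hr'))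

theorem mo_ga0 (k : ℕ) (r : ℝ) : mo k (ga 0) r = r ^ (k + 1) / (k + 1) := by
  have : ga 0 = fun _ => 1 := funext ga_zero
  rw [this, mo_const, one_mul]

theorem no_beta0 (h : Prof B g) (hA : 0 < A) {r0 : ℝ}
    (hu : ∀ r, r0 ≤ r → 0 ≤ uf A 0 g r) : False := by
  have h1 : Tendsto (fun r : ℝ => A / 3 * r ^ 3) atTop atTop :=
    (tendsto_pow_atTop three_ne_zero).const_mul_atTop (by positivity)
  obtain ⟨r, h2, h3, h4⟩ := ((h1.eventually_gt_atTop (tot 2 g)).and
    ((eventually_ge_atTop r0).and (eventually_ge_atTop 0))).exists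
  have h5 := hu r h3
  have h6 := h.mo_le_tot (k := 2) (by norm_num) h4
  rw [uf, mo_ga0] at h5
  norm_num at h5
  linarith

theorem beta_var {r : ℝ} {β β1 : ℝ} (hr : 0 < r) (h1 : Hf A ε β g r ≤ Hf A ε β1 g r)
    (hA : 0 ≤ A) : (sg β r - sg β1 r) * uf A β g r ≤ 0 := by
  have h2 := mul_le_mul_of_nonneg_left (sg_max β1 β hr) hA
  unfold Hf at h1
  unfold uf
  linarith

theorem uf_cont_beta (r : ℝ) : Continuous fun β => uf A β g r :=
  continuous_const.sub (continuous_const.mul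
    ((mo_cont2 2 ga_cont2).comp (f := fun β : ℝ => (β, r)) (by fun_prop)))

theorem uf_ge {r β1 : ℝ} (hr : 0 < r) (hA : 0 ≤ A)
    (h1 : ∀ β, β1 < β → Hf A ε β g r ≤ Hf A ε β1 g r) : 0 ≤ uf A β1 g r := by
  refine ge_of_tendsto ((uf_cont_beta (A := A) (g := g) r).continuousWithinAt (x := β1)
    (s := Ioi β1)).tendsto ?_
  filter_upwards [self_mem_nhdsWithin] with β hβ
  have h2 := beta_var hr (h1 β hβ) hA
  have h3 := sg_anti (show β1 < β from hβ) hr
  by_contra h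
  nlinarith [mul_pos_of_neg_of_neg (sub_neg.2 h3) (not_le.1 h)]

theorem uf_le {r β1 : ℝ} (hr : 0 < r) (hA : 0 ≤ A) (hβ1 : 0 < β1)
    (h1 : ∀ β, 0 ≤ β → Hf A ε β g r ≤ Hf A ε β1 g r) : uf A β1 g r ≤ 0 := by
  refine le_of_tendsto ((uf_cont_beta (A := A) (g := g) r).continuousWithinAt (x := β1)
    (s := Iio β1)).tendsto ?_
  filter_upwards [Ioo_mem_nhdsLT hβ1] with β hβ
  have h2 := beta_var hr (h1 β hβ.1.le) hA
  have h3 := sg_anti hβ.2 hr
  by_contra h
  nlinarith [mul_pos (sub_pos.2 h3) (not_le.1 h)]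

theorem touch_val (hg : Continuous g) (hH : ∀ r, 0 < r → Hf A ε β g r ≤ 0) {r0 : ℝ}
    (hr0 : 0 < r0) (hD : Df A ε β g r0 = 0) (hu : uf A β g r0 = 0) : g r0 = A * ga β r0 := by
  have hd : HasDerivAt (fun r => 2 * Df A ε β g r * mo 4 (ga β) r - Lf β r * uf A β g r) _ r0 :=
    (((Df_deriv hg r0).const_mul 2).mul (mo_deriv 4 (ga_cont β) r0)).sub
      ((Lf_deriv β r0).mul (uf_deriv hg r0))
  have hmax : IsLocalMax (fun r => 2 * Df A ε β g r * mo 4 (ga β) r - Lf β r * uf A β g r) r0 := by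
    filter_upwards [Ioi_mem_nhds hr0] with r hr
    have h1 := hH r hr
    rw [Hf_eq] at h1
    rw [hD, hu, Lf_eq β hr]
    have := mul_nonneg (mo_ga_pos 4 β hr).le (sub_nonneg.2 (sub_nonpos.1 h1))
    linarith
  have h2 := hmax.hasDerivAt_eq_zero hd
  rw [hD, hu] at h2
  have h3 : Lf β r0 * ((g r0 - A * ga β r0) * r0 ^ 2) = 0 := by linarith
  rcases mul_eq_zero.1 h3 with h | h
  · exact absurd h (lam_pos β hr0).ne'
  · rcases mul_eq_zero.1 h with h | h
    · linarith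
    · exact absurd h (by positivity)

theorem touch_der (hg : Continuous g) {r0 c : ℝ} (hd : HasDerivAt g c r0)
    (hr0 : 0 < r0) (hu : uf A β g r0 = 0) (hv : g r0 = A * ga β r0)
    (hb : ∀ r, r0 ≤ r → 0 ≤ uf A β g r) : -β * r0 * (A * ga β r0) ≤ c := by
  have h1 := second_deriv_right (g := uf A β g) (g1 := fun r => (g r - A * ga β r) * r ^ 2)
    (x0 := r0) one_pos (fun x _ => uf_deriv hg x) (by simp [hv])
    ((hd.sub ((ga_deriv β r0).const_mul A)).mul (hasDerivAt_pow 2 r0))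
    (fun x hx => by rw [hu]; exact hb x hx.1)
  simp only [Pi.sub_apply, hv, sub_self, zero_mul, add_zero] at h1
  have := nonneg_of_mul_nonneg_left h1 (pow_pos hr0 2)
  linarith

theorem touch_tl (h : Prof B g) {r0 : ℝ} (hβ : 0 < β) (hr0 : 0 < r0) (hu : uf A β g r0 = 0)
    (hb : ∀ r, r0 ≤ r → 0 ≤ uf A β g r) : A * ga β r0 / β ≤ tl g r0 := by
  have hg := h.cont
  have hd : ∀ x, 0 < x → HasDerivAt
      (fun R => mo 1 g R + A * ga β R / β - uf A β g R / R) (uf A β g x / x ^ 2) x := by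
    intro x hx
    refine (((mo_deriv 1 hg x).add (((ga_deriv β x).const_mul A).div_const β)).sub
      ((uf_deriv hg x).div (hasDerivAt_id x) hx.ne')).congr_deriv ?_
    simp only [id]
    field_simp
    ring
  have hmono : MonotoneOn (fun R => mo 1 g R + A * ga β R / β - uf A β g R / R) (Ici r0) := by
    refine monotoneOn_of_deriv_nonneg (convex_Ici r0)
      (fun x hx => (hd x (hr0.trans_le hx)).continuousAt.continuousWithinAt)
      (fun x hx => (hd x (hr0.trans_le (interior_subset hx))).differentiableAt.differentiableWithinAt)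
      fun x hx => ?_
    have hx' : r0 ≤ x := interior_subset hx
    rw [(hd x (hr0.trans_le hx')).deriv]
    exact div_nonneg (hb x hx') (sq_nonneg x)
  have h0 : Tendsto (ga β) atTop (𝓝 0) := by
    refine squeeze_zero' (Eventually.of_forall fun R => (ga_pos β R).le) ?_ (ga_tendsto hβ)
    filter_upwards [eventually_ge_atTop 1] with R hR
    nlinarith [ga_pos β R]
  have hlim := (h.mo_tendsto (k := 1) (by norm_num)).add ((h0.const_mul A).div_const β)
  have h1 : mo 1 g r0 + A * ga β r0 / β ≤ tot 1 g + A * 0 / β := by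
    refine ge_of_tendsto hlim ?_
    filter_upwards [eventually_ge_atTop r0] with R hR
    have h2 := hmono (mem_Ici.2 le_rfl) hR hR
    have h3 := div_nonneg (hb R hR) (hr0.le.trans hR)
    simp only [hu, zero_div, sub_zero] at h2
    linarith
  rw [h.tl_eq hr0.le]
  simp only [mul_zero, zero_div, add_zero] at h1
  linarith

theorem touch_alg {A ε β r σ γ G2 G4 E J g1 Mt Et : ℝ} (hA : 0 < A) (hε : 0 < ε) (hβ : 0 < β)
    (hr : 0 < r) (hσ : σ < r ^ 2) (hγ : 0 < γ) (r2 : β * G4 = 3 * G2 - r ^ 3 * γ)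
    (r4 : β * (σ * G4) = 5 * G4 - r ^ 5 * γ) (hK : 0 ≤ σ * G2 - G4) (hE : E = A * G4 - ε)
    (hE0 : 0 ≤ E) (hJ : A * γ / β ≤ J) (hg1 : -β * r * (A * γ) ≤ g1)
    (hM : Mt = (E / (3 * r) + r ^ 2 * J / 3) * g1 + A * γ * (A * G2))
    (hP : r ^ 2 * Mt - Et = 2 * ((E + r ^ 3 * J) / 3 * (A * γ) - A * G2 * J)) :
    σ * Mt - Et < 0 := by
  have hJ0 : 0 ≤ J := le_trans (by positivity) hJ
  obtain ⟨j, hj0, rfl⟩ : ∃ j, 0 ≤ j ∧ J = A * γ / β + j := ⟨J - A * γ / β, by linarith, by ring⟩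
  set X := (E + r ^ 3 * (A * γ / β + j)) / 3 with hX
  have hc : E / (3 * r) + r ^ 2 * (A * γ / β + j) / 3 = X / r := by rw [hX]; field_simp
  have hX0 : 0 ≤ X := by positivity
  have h1 : -(β * X * (A * γ)) + A * γ * (A * G2) ≤ Mt := by
    have := mul_le_mul_of_nonneg_left hg1 (div_nonneg hX0 hr.le)
    have e : X / r * (-β * r * (A * γ)) = -(β * X * (A * γ)) := by field_simp
    rw [hM, hc]; linarith
  have h2 : β * X = A * G2 + β * (r ^ 3 * j - ε) / 3 := by
    rw [hX, hE]; field_simp; linear_combination A * r2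
  have h3 : X * γ - G2 * (A * γ / β + j) = γ * (r ^ 3 * j - ε) / 3 - G2 * j := by
    have : X = (A * G2 + β * (r ^ 3 * j - ε) / 3) / β := by rw [← h2]; field_simp
    rw [this]; field_simp; ring
  have h4 : (r ^ 2 - σ) * β * γ * r ^ 3 / 3 + 2 * γ * r ^ 3 / 3 - 2 * G2 = -(β * (σ * G2 - G4)) := by
    linear_combination (β / 3) * r4 - (β * σ / 3) * r2 + (2 / 3) * r2
  have h5 := mul_le_mul_of_nonneg_left h1 (sub_pos.2 hσ).le
  have h6 : σ * Mt - Et = -((r ^ 2 - σ) * Mt) + 2 * A * (X * γ - G2 * (A * γ / β + j)) := by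
    linear_combination hP
  have h7 : (r ^ 2 - σ) * (β * X * (A * γ) - A * γ * (A * G2))
      + 2 * A * (γ * (r ^ 3 * j - ε) / 3 - G2 * j)
      = -(A * j * (β * (σ * G2 - G4))) - ε * A * γ * ((r ^ 2 - σ) * β + 2) / 3 := by
    rw [h2]; linear_combination A * j * h4
  have h8 : 0 ≤ A * j * (β * (σ * G2 - G4)) := by positivity
  have h9 : 0 < ε * A * γ * ((r ^ 2 - σ) * β + 2) / 3 := by
    have := sub_pos.2 hσ
    positivity
  rw [h6, h3]
  linarith

end Pool.Agent.Lib.LandauRad
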